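import Pool.Agent.Lib.H90Q.Defs
import Pool.Agent.Lib.H90Q.GD

/-!
# MP_a8e959_al, Theorem B (no condition on the automiser): definitions for the character side

`G` is `p`-solvable, the Sylow subgroup `P` is abelian and `u ^ p` centralises `L = O_{p'}(G)` for all `u ∈ P`. See PROOF.md.
-/

open scoped Classical ComplexConjugate BigOperators

noncomputable section

namespace Pool.Agent.Lib.H88B

open Pool.Agent.Lib.H90Q

/-! ## matrix representations of subgroups -/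

/-- `ρ` is (on `H`) a matrix representation of `H`. Its values off `H` do not matter. -/
def MRep {G : Type*} [Group G] {n : ℕ} (H : Subgroup G) (ρ : G → Matrix (Fin n) (Fin n) ℂ) : Prop :=
  ρ 1 = 1 ∧ ∀ a ∈ H, ∀ b ∈ H, ρ (a * b) = ρ a * ρ b

/-- Schur's averaging identity `n ∑_(l ∈ H) ρ(l) X ρ(l⁻¹) = |H| tr(X) 1`. -/
def Av {G : Type*} [Group G] [Fintype G] {n : ℕ} (H : Subgroup G) (ρ : G → Matrix (Fin n) (Fin n) ℂ) : Prop :=
  ∀ X : Matrix (Fin n) (Fin n) ℂ,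
    (n : ℂ) • (∑ l : G, if l ∈ H then ρ l * X * ρ l⁻¹ else 0) = ((Nat.card H : ℂ) * X.trace) • (1 : Matrix (Fin n) (Fin n) ℂ)

/-! ## the bridge -/

section Bridge

variable {G : Type*} [Group G]

/-- The group of the pairs `(g, h)`, `h ∈ S`, `g h⁻¹ ∈ M` (`M` is normal in `G`). -/
def BG (M S : Subgroup G) [hM : M.Normal] : Subgroup (G × G) where
  carrier := {q | q.2 ∈ S ∧ q.1 * q.2⁻¹ ∈ M}
  mul_mem' := by
    rintro ⟨g, h⟩ ⟨g', h'⟩ ⟨h1, h2⟩ ⟨h3, h4⟩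
    refine ⟨S.mul_mem h1 h3, ?_⟩
    change g * g' * (h * h')⁻¹ ∈ M
    have e : g * g' * (h * h')⁻¹ = (g * h⁻¹) * (h * (g' * h'⁻¹) * h⁻¹) := by group
    rw [e]
    exact M.mul_mem h2 (hM.conj_mem _ h4 h)
  one_mem' := ⟨S.one_mem, by simp⟩
  inv_mem' := by
    rintro ⟨g, h⟩ ⟨h1, h2⟩
    refine ⟨S.inv_mem h1, ?_⟩
    change g⁻¹ * h⁻¹⁻¹ ∈ M
    have e : g⁻¹ * h⁻¹⁻¹ = h⁻¹ * (g * h⁻¹)⁻¹ * h⁻¹⁻¹ := by group
    rw [e]
    exact hM.conj_mem _ (M.inv_mem h2) h⁻¹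

theorem mem_BG {M S : Subgroup G} [M.Normal] {g h : G} : (g, h) ∈ BG M S ↔ h ∈ S ∧ g * h⁻¹ ∈ M := Iff.rfl

variable [Fintype G]

/-- The function `g ↦ |M ∩ S|⁻¹ ∑_h η(g, h) β(h)`, the sum over `h` with `(g, h) ∈ BG M S`. -/
def al (M S : Subgroup G) [M.Normal] (η : G × G → ℂ) (β : G → ℂ) : G → ℂ := fun g =>
  (Nat.card (M ⊓ S : Subgroup G) : ℂ)⁻¹ * ∑ h : G, if (g, h) ∈ BG M S then η (g, h) * β h else 0

/-- The function `h ↦ |M|⁻¹ ∑_g conj η(g, h) α(g)`. -/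
def be (M S : Subgroup G) [M.Normal] (η : G × G → ℂ) (α : G → ℂ) : G → ℂ := fun h =>
  (Nat.card M : ℂ)⁻¹ * ∑ g : G, if (g, h) ∈ BG M S then conj (η (g, h)) * α g else 0

end Bridge

/-! ## the finite group `E` of triples `(s, A, B)` -/

/-- `E` is a group with a homomorphism `π` onto `S` and two matrix representations `A`, `B` such that `A e` intertwines the representation `R` of `M` with its
conjugate by `π e`, and `B e` the representation `σ` of `M ∩ S`; the elements `(c, R c, σ c)`, `c ∈ M ∩ S`, come from `E`, the kernel of `π` acts by scalars, the exponent of `E` is prime to `p`. -/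
structure EData {G : Type*} [Group G] (p : ℕ) (M S : Subgroup G) {n m : ℕ} (R : G → Matrix (Fin n) (Fin n) ℂ) (σ : G → Matrix (Fin m) (Fin m) ℂ)
    {E : Type*} [Group E] (π : E →* G) (A : E → Matrix (Fin n) (Fin n) ℂ) (B : E → Matrix (Fin m) (Fin m) ℂ) : Prop where
  one : A 1 = 1 ∧ B 1 = 1
  mulA : ∀ e e', A (e * e') = A e * A e'
  mulB : ∀ e e', B (e * e') = B e * B e'
  mem : ∀ e, π e ∈ S
  surj : ∀ s ∈ S, ∃ e, π e = s
  intA : ∀ e, ∀ y ∈ M, A e * R y = R (π e * y * (π e)⁻¹) * A e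
  intB : ∀ e, ∀ c ∈ M ⊓ S, B e * σ c = σ (π e * c * (π e)⁻¹) * B e
  lift : ∀ c ∈ M ⊓ S, ∃ e, π e = c ∧ A e = R c ∧ B e = σ c
  ker : ∀ e, π e = 1 → ∃ a b : ℂ, a ≠ 0 ∧ b ≠ 0 ∧ A e = a • 1 ∧ B e = b • 1
  exp : ∃ N : ℕ, ¬ p ∣ N ∧ ∀ e : E, e ^ N = 1

/-! ## the setup -/

/-- As `H90Q.Setup`, without the hypothesis on `H / (L ∩ H)`, and with the hypothesis on the `p`-th power of `x ^ i`. -/
structure Setup2 {G : Type*} [Group G] (p : ℕ) (L P H : Subgroup G) (x : G) : Prop where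
  hLn : L.Normal
  hLp : ¬ p ∣ Nat.card L
  hPp : IsPGroup p P
  hPab : ∀ a ∈ P, ∀ b ∈ P, a * b = b * a
  hPL : (P ⊔ L).Normal
  hHN : H ≤ Subgroup.normalizer (P : Set G)
  hHp : ¬ p ∣ Nat.card H
  hN : ∀ g ∈ Subgroup.normalizer (P : Set G), ∃ u ∈ P, ∃ h ∈ H, g = u * h
  hG : ∀ g : G, ∃ l ∈ L, ∃ u ∈ P, ∃ h ∈ H, g = l * u * h
  hC : L ⊓ H = L ⊓ Subgroup.centralizer (P : Set G)
  hCx : L ⊓ Subgroup.centralizer {x} = L ⊓ Subgroup.centralizer (P : Set G)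
  hz : ∃ i : ℕ, L ⊓ Subgroup.centralizer {x ^ i} = L ⊓ Subgroup.centralizer (P : Set G) ∧ ∀ l ∈ L, (x ^ i) ^ p * l = l * (x ^ i) ^ p
  hxP : x ∈ P
  hxN : Subgroup.centralizer {x} ≤ Subgroup.normalizer (P : Set G)

/-- The statement of the core: as `H90Q.CoreStmt`, but only for `u` commuting with the conjugate of `x`. -/
def CoreStmt2 {G : Type*} [Group G] [Fintype G] (p : ℕ) (L P H : Subgroup G) (x : G) : Prop :=
  ∀ S : Subgroup G, S ≤ H → L ⊓ H ≤ S → ∀ θ θs θh : G → ℂ, θ ∈ IrrS L → (∀ u ∈ P, cj u θ = θ) →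
    GC p L (P : Set G) θ θs → CanExt p P L θ θh → (∀ s ∈ S, cj s θ = θ) →
    ∃ ε : ℂ, (ε = 1 ∨ ε = -1) ∧ ∃ F : (G → ℂ) → (G → ℂ),
      Set.BijOn F {α | α ∈ IrrS (P ⊔ L ⊔ S) ∧ Over (P ⊔ L) α θh} {β | β ∈ IrrS S ∧ Over (L ⊓ H) β θs} ∧
      ∀ α, α ∈ IrrS (P ⊔ L ⊔ S) → Over (P ⊔ L) α θh →
        (∃ n : ℕ, α 1 = n ∧ ¬ p ∣ n) ∧
        ∀ h ∈ H, ∀ u ∈ S, u * (h * x * h⁻¹) = (h * x * h⁻¹) * u → α (h * x * h⁻¹ * u) = ε * F α u

end Pool.Agent.Lib.H88B
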