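import Pool.Agent.Lib.H88B.R2

/-!
H88B, E1: the finite group of triples `(s, A, B)`.
-/

open scoped Classical ComplexConjugate BigOperators

noncomputable section

namespace Pool.Agent.Lib.H88B

open Pool.Agent.Lib.H90Q

variable {G : Type*} [Group G]

/-- The group of the triples `(s, A, B)`, `s ∈ S`, `A` intertwines `R` (a representation of `M`) with its conjugate by `s`, `B` does the same for `σ` (a representation of `M ⊓ S`), `det A ^ N = det B ^ N = 1`. -/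
def Tg (N : ℕ) (M S : Subgroup G) [hM : M.Normal] {n m : ℕ} (R : G → Matrix (Fin n) (Fin n) ℂ) (σ : G → Matrix (Fin m) (Fin m) ℂ) :
    Subgroup (G × (Matrix (Fin n) (Fin n) ℂ)ˣ × (Matrix (Fin m) (Fin m) ℂ)ˣ) where
  carrier := {e | e.1 ∈ S ∧ (∀ y ∈ M, (e.2.1 : Matrix (Fin n) (Fin n) ℂ) * R y = R (e.1 * y * e.1⁻¹) * (e.2.1 : Matrix (Fin n) (Fin n) ℂ)) ∧
    (∀ c ∈ M ⊓ S, (e.2.2 : Matrix (Fin m) (Fin m) ℂ) * σ c = σ (e.1 * c * e.1⁻¹) * (e.2.2 : Matrix (Fin m) (Fin m) ℂ)) ∧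
    (e.2.1 : Matrix (Fin n) (Fin n) ℂ).det ^ N = 1 ∧ (e.2.2 : Matrix (Fin m) (Fin m) ℂ).det ^ N = 1}
  one_mem' := by
    refine ⟨S.one_mem, fun y _ => ?_, fun c _ => ?_, ?_, ?_⟩
    · simp
    · simp
    · simp
    · simp
  mul_mem' := by
    rintro ⟨s, A, B⟩ ⟨s', A', B'⟩ ⟨h1, h2, h3, h4, h5⟩ ⟨g1, g2, g3, g4, g5⟩
    simp only at h1 h2 h3 h4 h5 g1 g2 g3 g4 g5
    refine ⟨S.mul_mem h1 g1, fun y hy => ?_, fun c hc => ?_, ?_, ?_⟩
    · change ((A * A' : (Matrix (Fin n) (Fin n) ℂ)ˣ) : Matrix (Fin n) (Fin n) ℂ) * R y = R (s * s' * y * (s * s')⁻¹) * ((A * A' : (Matrix (Fin n) (Fin n) ℂ)ˣ) : Matrix (Fin n) (Fin n) ℂ)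
      have e : s * s' * y * (s * s')⁻¹ = s * (s' * y * s'⁻¹) * s⁻¹ := by group
      rw [Units.val_mul, mul_assoc, g2 y hy, ← mul_assoc, h2 _ (hM.conj_mem _ hy s'), e, mul_assoc]
    · change ((B * B' : (Matrix (Fin m) (Fin m) ℂ)ˣ) : Matrix (Fin m) (Fin m) ℂ) * σ c = σ (s * s' * c * (s * s')⁻¹) * ((B * B' : (Matrix (Fin m) (Fin m) ℂ)ˣ) : Matrix (Fin m) (Fin m) ℂ)
      have e : s * s' * c * (s * s')⁻¹ = s * (s' * c * s'⁻¹) * s⁻¹ := by group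
      rw [Units.val_mul, mul_assoc, g3 c hc, ← mul_assoc, h3 _ ⟨hM.conj_mem _ hc.1 s', S.mul_mem (S.mul_mem g1 hc.2) (S.inv_mem g1)⟩, e, mul_assoc]
    · change ((A * A' : (Matrix (Fin n) (Fin n) ℂ)ˣ) : Matrix (Fin n) (Fin n) ℂ).det ^ N = 1
      rw [Units.val_mul, Matrix.det_mul, mul_pow, h4, g4, one_mul]
    · change ((B * B' : (Matrix (Fin m) (Fin m) ℂ)ˣ) : Matrix (Fin m) (Fin m) ℂ).det ^ N = 1
      rw [Units.val_mul, Matrix.det_mul, mul_pow, h5, g5, one_mul]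
  inv_mem' := by
    rintro ⟨s, A, B⟩ ⟨h1, h2, h3, h4, h5⟩
    simp only at h1 h2 h3 h4 h5
    refine ⟨S.inv_mem h1, fun y hy => ?_, fun c hc => ?_, ?_, ?_⟩
    · change ((A⁻¹ : (Matrix (Fin n) (Fin n) ℂ)ˣ) : Matrix (Fin n) (Fin n) ℂ) * R y = R (s⁻¹ * y * s⁻¹⁻¹) * ((A⁻¹ : (Matrix (Fin n) (Fin n) ℂ)ˣ) : Matrix (Fin n) (Fin n) ℂ)
      have h := h2 (s⁻¹ * y * s⁻¹⁻¹) (hM.conj_mem _ hy s⁻¹)
      have e : s * (s⁻¹ * y * s⁻¹⁻¹) * s⁻¹ = y := by group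
      rw [e] at h
      rw [Units.inv_mul_eq_iff_eq_mul, ← mul_assoc, h, mul_assoc, Units.mul_inv, mul_one]
    · change ((B⁻¹ : (Matrix (Fin m) (Fin m) ℂ)ˣ) : Matrix (Fin m) (Fin m) ℂ) * σ c = σ (s⁻¹ * c * s⁻¹⁻¹) * ((B⁻¹ : (Matrix (Fin m) (Fin m) ℂ)ˣ) : Matrix (Fin m) (Fin m) ℂ)
      have h := h3 (s⁻¹ * c * s⁻¹⁻¹) ⟨hM.conj_mem _ hc.1 s⁻¹, S.mul_mem (S.mul_mem (S.inv_mem h1) hc.2) (S.inv_mem (S.inv_mem h1))⟩
      have e : s * (s⁻¹ * c * s⁻¹⁻¹) * s⁻¹ = c := by group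
      rw [e] at h
      rw [Units.inv_mul_eq_iff_eq_mul, ← mul_assoc, h, mul_assoc, Units.mul_inv, mul_one]
    · change ((A⁻¹ : (Matrix (Fin n) (Fin n) ℂ)ˣ) : Matrix (Fin n) (Fin n) ℂ).det ^ N = 1
      have h : (A : Matrix (Fin n) (Fin n) ℂ).det * ((A⁻¹ : (Matrix (Fin n) (Fin n) ℂ)ˣ) : Matrix (Fin n) (Fin n) ℂ).det = 1 := by
        rw [← Matrix.det_mul, Units.mul_inv, Matrix.det_one]
      have h' := congrArg (· ^ N) h
      simp only [mul_pow, h4, one_mul, one_pow] at h'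
      exact h'
    · change ((B⁻¹ : (Matrix (Fin m) (Fin m) ℂ)ˣ) : Matrix (Fin m) (Fin m) ℂ).det ^ N = 1
      have h : (B : Matrix (Fin m) (Fin m) ℂ).det * ((B⁻¹ : (Matrix (Fin m) (Fin m) ℂ)ˣ) : Matrix (Fin m) (Fin m) ℂ).det = 1 := by
        rw [← Matrix.det_mul, Units.mul_inv, Matrix.det_one]
      have h' := congrArg (· ^ N) h
      simp only [mul_pow, h5, one_mul, one_pow] at h'
      exact h'

private theorem e1_pow {S : Subgroup G} {c : G} (hc : c ∈ S) : c ^ Nat.card S = 1 := by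
  have h : (⟨c, hc⟩ : S) ^ Nat.card S = 1 := pow_card_eq_one'
  have h2 := congrArg (Subtype.val) h
  exact h2

private theorem e1_mrep_pow {H : Subgroup G} {n : ℕ} {R : G → Matrix (Fin n) (Fin n) ℂ} (h : MRep H R) {c : G} (hc : c ∈ H) (k : ℕ) :
    R (c ^ k) = R c ^ k := by
  induction k with
  | zero => rw [pow_zero, pow_zero, h.1]
  | succ k ih => rw [pow_succ, pow_succ, h.2 _ (H.pow_mem hc k) _ hc, ih]

variable [Fintype G]

/-- Elements over `1` act by scalars: `A` commutes with the `R y`, `B` with the `σ c` (`av_comm`); `a ^ n` is the determinant. -/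
theorem Tg_ker {N : ℕ} {M S : Subgroup G} [M.Normal] {n m : ℕ} (hn : 0 < n) (hm : 0 < m) {R : G → Matrix (Fin n) (Fin n) ℂ} {σ : G → Matrix (Fin m) (Fin m) ℂ}
    (hR : MRep M R) (hRA : Av M R) (hσ : MRep (M ⊓ S) σ) (hσA : Av (M ⊓ S) σ) {e : G × (Matrix (Fin n) (Fin n) ℂ)ˣ × (Matrix (Fin m) (Fin m) ℂ)ˣ} (he : e ∈ Tg N M S R σ)
    (h1 : e.1 = 1) : ∃ a b : ℂ, a ^ (n * N) = 1 ∧ b ^ (m * N) = 1 ∧ (e.2.1 : Matrix (Fin n) (Fin n) ℂ) = a • 1 ∧ (e.2.2 : Matrix (Fin m) (Fin m) ℂ) = b • 1 := by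
  obtain ⟨-, h2, h3, h4, h5⟩ := he
  rw [h1] at h2 h3
  obtain ⟨a, ha⟩ := av_comm hn hR hRA (X := (e.2.1 : Matrix (Fin n) (Fin n) ℂ)) (by
    intro g hg
    have h := h2 g hg
    rwa [one_mul, inv_one, mul_one] at h)
  obtain ⟨b, hb⟩ := av_comm hm hσ hσA (X := (e.2.2 : Matrix (Fin m) (Fin m) ℂ)) (by
    intro g hg
    have h := h3 g hg
    rwa [one_mul, inv_one, mul_one] at h)
  refine ⟨a, b, ?_, ?_, ha, hb⟩
  · rw [ha, Matrix.det_smul, Matrix.det_one, mul_one, Fintype.card_fin, ← pow_mul] at h4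
    exact h4
  · rw [hb, Matrix.det_smul, Matrix.det_one, mul_one, Fintype.card_fin, ← pow_mul] at h5
    exact h5

/-- `Tg` is finite (`N > 0`): the kernel of the projection to `G` is finite (it is contained in the set of the `(1, a • 1, b • 1)` with `a`, `b` roots of unity: `Tg_ker`), and `G` is finite: two elements with the same first component differ by an element of the kernel. (E.g. the map
`e ↦ e.1` has finite fibres: `Set.Finite.preimage`/`Finite.of_finite_fibers`-like arguments, or `Subgroup`: finite index and finite kernel.) -/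
theorem Tg_finite {N : ℕ} (hN : 0 < N) {M S : Subgroup G} [M.Normal] {n m : ℕ} (hn : 0 < n) (hm : 0 < m) {R : G → Matrix (Fin n) (Fin n) ℂ} {σ : G → Matrix (Fin m) (Fin m) ℂ}
    (hR : MRep M R) (hRA : Av M R) (hσ : MRep (M ⊓ S) σ) (hσA : Av (M ⊓ S) σ) : Finite (Tg N M S R σ) := by
  obtain ⟨K, hK⟩ : ∃ K : Set (Tg N M S R σ), K = {e | e.1.1 = 1} := ⟨_, rfl⟩
  have hKf : K.Finite := by
    have hfin : ∀ (k l : ℕ), 0 < l → Set.Finite {X : Matrix (Fin k) (Fin k) ℂ | ∃ a : ℂ, a ^ l = 1 ∧ X = a • 1} := by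
      intro k l hl
      have h1 : Set.Finite {a : ℂ | a ^ l = 1} := by
        refine Set.Finite.subset (Multiset.toFinset (Polynomial.nthRoots l (1 : ℂ))).finite_toSet ?_
        intro a ha
        rw [Finset.mem_coe, Multiset.mem_toFinset, Polynomial.mem_nthRoots hl]
        exact ha
      refine (h1.image fun a : ℂ => a • (1 : Matrix (Fin k) (Fin k) ℂ)).subset ?_
      rintro X ⟨a, ha, rfl⟩
      exact ⟨a, ha, rfl⟩
    have h1 := hfin n (n * N) (Nat.mul_pos hn hN)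
    have h2 := hfin m (m * N) (Nat.mul_pos hm hN)
    refine Set.Finite.of_finite_image (f := fun e : Tg N M S R σ =>
      (((e.1.2.1 : (Matrix (Fin n) (Fin n) ℂ)ˣ) : Matrix (Fin n) (Fin n) ℂ),
        ((e.1.2.2 : (Matrix (Fin m) (Fin m) ℂ)ˣ) : Matrix (Fin m) (Fin m) ℂ))) ((h1.prod h2).subset ?_) ?_
    · rintro _ ⟨e, he, rfl⟩
      rw [hK] at he
      obtain ⟨a, b, ha, hb, hA, hB⟩ := Tg_ker hn hm hR hRA hσ hσA e.2 he
      exact ⟨⟨a, ha, hA⟩, ⟨b, hb, hB⟩⟩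
    · intro e he e' he' hee
      rw [hK] at he he'
      have q1 : e.1.1 = e'.1.1 := by
        rw [show e.1.1 = 1 from he, show e'.1.1 = 1 from he']
      have q2 := (Prod.mk.injEq _ _ _ _).mp hee
      exact Subtype.ext (Prod.ext q1 (Prod.ext (Units.ext q2.1) (Units.ext q2.2)))
  have hall := Set.Finite.preimage' (f := fun e : Tg N M S R σ => e.1.1) (Set.toFinite (Set.univ : Set G)) (fun s _ => ?_)
  · rw [Set.preimage_univ] at hall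
    exact Set.finite_univ_iff.1 hall
  by_cases hs : ∃ e0 : Tg N M S R σ, e0.1.1 = s
  · obtain ⟨e0, he0⟩ := hs
    refine (hKf.image fun k => e0 * k).subset ?_
    intro e he
    refine ⟨e0⁻¹ * e, ?_, mul_inv_cancel_left e0 e⟩
    rw [hK]
    change (e0.1⁻¹ * e.1).1 = 1
    rw [Prod.fst_mul, Prod.fst_inv, he0, show e.1.1 = s from he, inv_mul_cancel]
  · have h0 : (fun e : Tg N M S R σ => e.1.1) ⁻¹' {s} = ∅ := by
      rw [Set.eq_empty_iff_forall_notMem]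
      intro e he
      exact hs ⟨e, he⟩
    rw [h0]
    exact Set.finite_empty

/-- The exponent: for `e ∈ Tg` the power `e ^ |S|` lies over `1`, so (`Tg_ker`) `e ^ (|S| (n N) (m N)) = 1`. -/
theorem Tg_exp {N : ℕ} {M S : Subgroup G} [M.Normal] {n m : ℕ} (hn : 0 < n) (hm : 0 < m) {R : G → Matrix (Fin n) (Fin n) ℂ} {σ : G → Matrix (Fin m) (Fin m) ℂ}
    (hR : MRep M R) (hRA : Av M R) (hσ : MRep (M ⊓ S) σ) (hσA : Av (M ⊓ S) σ) {e : G × (Matrix (Fin n) (Fin n) ℂ)ˣ × (Matrix (Fin m) (Fin m) ℂ)ˣ} (he : e ∈ Tg N M S R σ) :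
    e ^ (Nat.card S * (n * N) * (m * N)) = 1 := by
  have hS : e.1 ∈ S := he.1
  obtain ⟨w, hw⟩ : ∃ w, w = e ^ Nat.card S := ⟨_, rfl⟩
  have hwT : w ∈ Tg N M S R σ := by
    rw [hw]
    exact Subgroup.pow_mem _ he _
  have hw1 : w.1 = 1 := by
    rw [hw, Prod.pow_fst]
    exact e1_pow hS
  obtain ⟨a, b, ha, hb, hA, hB⟩ := Tg_ker hn hm hR hRA hσ hσA hwT hw1
  rw [mul_assoc, pow_mul, ← hw]
  refine Prod.ext ?_ (Prod.ext (Units.ext ?_) (Units.ext ?_))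
  · rw [Prod.pow_fst, hw1, one_pow]
    rfl
  · rw [Prod.pow_snd, Prod.pow_fst, Units.val_pow_eq_pow_val, hA, smul_pow, one_pow, pow_mul, ha, one_pow, one_smul]
    rfl
  · rw [Prod.pow_snd, Prod.pow_snd, Units.val_pow_eq_pow_val, hB, smul_pow, one_pow, mul_comm (n * N), pow_mul, hb, one_pow, one_smul]
    rfl

/-- Existence of elements over `s ∈ S`: `intertwiner` for `R` and `y ↦ R (s y s⁻¹)` on `M` (traces: `Θ (s y s⁻¹) = Θ y`), and for `σ` on `M ⊓ S`. -/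
theorem Tg_surj {N : ℕ} {M S : Subgroup G} [M.Normal] {n m : ℕ} (hn : 0 < n) (hm : 0 < m) {R : G → Matrix (Fin n) (Fin n) ℂ} {σ : G → Matrix (Fin m) (Fin m) ℂ}
    (hR : MRep M R) (hRA : Av M R) (hσ : MRep (M ⊓ S) σ) (hσA : Av (M ⊓ S) σ) {Θ θs : G → ℂ} (hΘ : ∀ y ∈ M, (R y).trace = Θ y) (hθs : ∀ c ∈ M ⊓ S, (σ c).trace = θs c)
    (hSΘ : ∀ s ∈ S, cj s Θ = Θ) (hSθ : ∀ s ∈ S, cj s θs = θs) {s : G} (hs : s ∈ S) : ∃ e ∈ Tg N M S R σ, e.1 = s := by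
  have key : ∀ (H : Subgroup G) (k : ℕ) (hk : 0 < k) (T : G → Matrix (Fin k) (Fin k) ℂ) (f : G → ℂ), MRep H T → Av H T →
      (∀ y ∈ H, (T y).trace = f y) → cj s f = f → (∀ y ∈ H, s * y * s⁻¹ ∈ H) →
      ∃ A : (Matrix (Fin k) (Fin k) ℂ)ˣ, (A : Matrix (Fin k) (Fin k) ℂ).det = 1 ∧
        ∀ y ∈ H, (A : Matrix (Fin k) (Fin k) ℂ) * T y = T (s * y * s⁻¹) * (A : Matrix (Fin k) (Fin k) ℂ) := by
    intro H k hk T f hT hTA hf hsf hH
    obtain ⟨A, hA1, hA2⟩ := intertwiner (R' := fun y => T (s * y * s⁻¹)) hk hT (by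
      constructor
      · change T (s * 1 * s⁻¹) = 1
        rw [mul_one, mul_inv_cancel, hT.1]
      · intro a ha b hb
        change T (s * (a * b) * s⁻¹) = T (s * a * s⁻¹) * T (s * b * s⁻¹)
        rw [← hT.2 _ (hH a ha) _ (hH b hb)]
        congr 1
        group) hTA (by
      intro g hg
      rw [hf g hg, hf _ (hH g hg)]
      have h := congrFun hsf (s * g * s⁻¹)
      unfold cj at h
      have e : s⁻¹ * (s * g * s⁻¹) * s = g := by group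
      rwa [e] at h)
    obtain ⟨uA, huA⟩ : IsUnit A := (Matrix.isUnit_iff_isUnit_det A).2 (by rw [hA1]; exact isUnit_one)
    refine ⟨uA, by rw [huA, hA1], fun y hy => ?_⟩
    rw [huA]
    exact hA2 y hy
  obtain ⟨A, hA1, hA2⟩ := key M n hn R Θ hR hRA hΘ (hSΘ s hs) (fun y hy => Subgroup.Normal.conj_mem inferInstance y hy s)
  obtain ⟨B, hB1, hB2⟩ := key (M ⊓ S) m hm σ θs hσ hσA hθs (hSθ s hs)
    (fun y hy => ⟨Subgroup.Normal.conj_mem inferInstance y hy.1 s, S.mul_mem (S.mul_mem hs hy.2) (S.inv_mem hs)⟩)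
  exact ⟨(s, A, B), ⟨hs, hA2, hB2, by rw [hA1, one_pow], by rw [hB1, one_pow]⟩, rfl⟩

/-- The elements `(c, R c, σ c)`, `c ∈ M ⊓ S`, for `N = |S|`: `R c ^ |S| = R (c ^ |S|) = 1`, so the determinants are fine. -/
theorem Tg_lift {M S : Subgroup G} [M.Normal] {n m : ℕ} {R : G → Matrix (Fin n) (Fin n) ℂ} {σ : G → Matrix (Fin m) (Fin m) ℂ}
    (hR : MRep M R) (hσ : MRep (M ⊓ S) σ) {c : G} (hc : c ∈ M ⊓ S) :
    ∃ e ∈ Tg (Nat.card S) M S R σ, e.1 = c ∧ (e.2.1 : Matrix (Fin n) (Fin n) ℂ) = R c ∧ (e.2.2 : Matrix (Fin m) (Fin m) ℂ) = σ c := by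
  have hcM : c ∈ M := hc.1
  have hcS : c ∈ S := hc.2
  have hc1 : c ^ Nat.card S = 1 := e1_pow hcS
  have hcM1 : c ∈ M ⊓ S := hc
  obtain ⟨r1, r2⟩ := mrep_inv hR hcM
  obtain ⟨s1, s2⟩ := mrep_inv hσ hcM1
  refine ⟨(c, ⟨R c, R c⁻¹, r2, r1⟩, ⟨σ c, σ c⁻¹, s2, s1⟩), ⟨hcS, ?_, ?_, ?_, ?_⟩, rfl, rfl, rfl⟩
  · intro y hy
    change R c * R y = R (c * y * c⁻¹) * R c
    rw [← hR.2 _ hcM _ hy, ← hR.2 _ (M.mul_mem (M.mul_mem hcM hy) (M.inv_mem hcM)) _ hcM]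
    congr 1
    group
  · intro y hy
    change σ c * σ y = σ (c * y * c⁻¹) * σ c
    rw [← hσ.2 _ hcM1 _ hy, ← hσ.2 _ ((M ⊓ S).mul_mem ((M ⊓ S).mul_mem hcM1 hy) ((M ⊓ S).inv_mem hcM1)) _ hcM1]
    congr 1
    group
  · change (R c).det ^ Nat.card S = 1
    rw [← Matrix.det_pow, ← e1_mrep_pow hR hcM, hc1, hR.1, Matrix.det_one]
  · change (σ c).det ^ Nat.card S = 1
    rw [← Matrix.det_pow, ← e1_mrep_pow hσ hcM1, hc1, hσ.1, Matrix.det_one]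

end Pool.Agent.Lib.H88B
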