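import Pool.Agent.Lib.H88B.E1

/-!
H88B, E2: the group `E`.
-/

open scoped Classical ComplexConjugate BigOperators

noncomputable section

namespace Pool.Agent.Lib.H88B

open Pool.Agent.Lib.H90Q

universe u

/-- `E = Tg |S| M S R σ` with the projections. The exponent `|S| (n |S|) (m |S|)` is prime to `p`. `Tg_surj`, `Tg_lift`, `Tg_ker`, `Tg_exp`, `Tg_finite`. (`a ≠ 0` because `a ^ (n |S|) = 1`.) -/
theorem exists_EData {G : Type u} [Group G] [Fintype G] {p : ℕ} (hp : p.Prime) {M S : Subgroup G} [M.Normal] (hS : ¬ p ∣ Nat.card S) {n m : ℕ} (hn : 0 < n) (hm : 0 < m)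
    (hpn : ¬ p ∣ n) (hpm : ¬ p ∣ m) {R : G → Matrix (Fin n) (Fin n) ℂ} {σ : G → Matrix (Fin m) (Fin m) ℂ}
    (hR : MRep M R) (hRA : Av M R) (hσ : MRep (M ⊓ S) σ) (hσA : Av (M ⊓ S) σ) {Θ θs : G → ℂ} (hΘ : ∀ y ∈ M, (R y).trace = Θ y) (hθs : ∀ c ∈ M ⊓ S, (σ c).trace = θs c)
    (hSΘ : ∀ s ∈ S, cj s Θ = Θ) (hSθ : ∀ s ∈ S, cj s θs = θs) :
    ∃ (E : Type u) (_ : Group E) (_ : Fintype E) (π : E →* G) (A : E → Matrix (Fin n) (Fin n) ℂ) (B : E → Matrix (Fin m) (Fin m) ℂ), EData p M S R σ π A B := by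
  have hN : 0 < Nat.card S := Nat.card_pos
  have hfin : Finite (Tg (Nat.card S) M S R σ) := Tg_finite hN hn hm hR hRA hσ hσA
  refine ⟨Tg (Nat.card S) M S R σ, inferInstance, Fintype.ofFinite _, (MonoidHom.fst _ _).comp (Tg (Nat.card S) M S R σ).subtype,
    fun e => (e.1.2.1 : Matrix (Fin n) (Fin n) ℂ), fun e => (e.1.2.2 : Matrix (Fin m) (Fin m) ℂ), ?_⟩
  refine
    { one := ⟨rfl, rfl⟩
      mulA := fun e e' => rfl
      mulB := fun e e' => rfl
      mem := fun e => e.2.1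
      surj := ?_
      intA := fun e => e.2.2.1
      intB := fun e => e.2.2.2.1
      lift := ?_
      ker := ?_
      exp := ?_ }
  · intro s hs
    obtain ⟨e, he, hes⟩ := Tg_surj (N := Nat.card S) hn hm hR hRA hσ hσA hΘ hθs hSΘ hSθ hs
    exact ⟨⟨e, he⟩, hes⟩
  · intro c hc
    obtain ⟨e, he, h1, h2, h3⟩ := Tg_lift hR hσ hc
    exact ⟨⟨e, he⟩, h1, h2, h3⟩
  · intro e he
    obtain ⟨a, b, ha, hb, h1, h2⟩ := Tg_ker hn hm hR hRA hσ hσA e.2 he
    refine ⟨a, b, ?_, ?_, h1, h2⟩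
    · rintro rfl
      rw [zero_pow (Nat.mul_pos hn hN).ne'] at ha
      exact zero_ne_one ha
    · rintro rfl
      rw [zero_pow (Nat.mul_pos hm hN).ne'] at hb
      exact zero_ne_one hb
  · refine ⟨Nat.card S * (n * Nat.card S) * (m * Nat.card S), ?_, ?_⟩
    · intro h
      rcases hp.dvd_mul.mp h with h | h
      · rcases hp.dvd_mul.mp h with h | h
        · exact hS h
        · rcases hp.dvd_mul.mp h with h | h
          · exact hpn h
          · exact hS h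
      · rcases hp.dvd_mul.mp h with h | h
        · exact hpm h
        · exact hS h
    · intro e
      apply Subtype.ext
      exact Tg_exp hn hm hR hRA hσ hσA e.2

end Pool.Agent.Lib.H88B
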