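import Pool.Agent.Lib.H88B.U1

/-!
H88B, F1: the group `X = {(g, e) : g π(e)⁻¹ ∈ M}`.
-/

open scoped Classical ComplexConjugate BigOperators

noncomputable section

namespace Pool.Agent.Lib.H88B

open Pool.Agent.Lib.H90Q

variable {G E : Type*} [Group G] [Group E]

/-- The group of the pairs `(g, e)` with `g (π e)⁻¹ ∈ M`. -/
def XG (M : Subgroup G) [hM : M.Normal] (π : E →* G) : Subgroup (G × E) where
  carrier := {q | q.1 * (π q.2)⁻¹ ∈ M}
  mul_mem' := by
    rintro ⟨g, e⟩ ⟨g', e'⟩ h1 h2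
    change g * g' * (π (e * e'))⁻¹ ∈ M
    have e1 : g * g' * (π (e * e'))⁻¹ = (g * (π e)⁻¹) * (π e * (g' * (π e')⁻¹) * (π e)⁻¹) := by rw [map_mul]; group
    rw [e1]
    exact M.mul_mem h1 (hM.conj_mem _ h2 _)
  one_mem' := by simp
  inv_mem' := by
    rintro ⟨g, e⟩ h1
    change g⁻¹ * (π e⁻¹)⁻¹ ∈ M
    have e1 : g⁻¹ * (π e⁻¹)⁻¹ = (π e)⁻¹ * (g * (π e)⁻¹)⁻¹ * (π e)⁻¹⁻¹ := by rw [map_inv]; group
    rw [e1]
    exact hM.conj_mem _ (M.inv_mem h1) _

/-- The projection `X → G`. -/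
def prX (M : Subgroup G) [M.Normal] (π : E →* G) : XG M π →* G := (MonoidHom.fst G E).comp (XG M π).subtype

/-- The projection `X → E`. -/
def prE (M : Subgroup G) [M.Normal] (π : E →* G) : XG M π →* E := (MonoidHom.snd G E).comp (XG M π).subtype

/-- The kernel of the projection to `E`. -/
def DX (M : Subgroup G) [M.Normal] (π : E →* G) : Subgroup (XG M π) := (prE M π).ker

/-- The elements `(g, e)` with `g ∈ S`. -/
def SX (M S : Subgroup G) [M.Normal] (π : E →* G) : Subgroup (XG M π) := S.comap (prX M π)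

theorem mem_DX {M : Subgroup G} [M.Normal] {π : E →* G} {q : XG M π} : q ∈ DX M π ↔ prE M π q = 1 := Iff.rfl

theorem mem_SX {M S : Subgroup G} [M.Normal] {π : E →* G} {q : XG M π} : q ∈ SX M S π ↔ prX M π q ∈ S := Iff.rfl

/-- The defining property of `X`. -/
theorem XG_mem {M : Subgroup G} [M.Normal] {π : E →* G} (q : XG M π) : prX M π q * (π (prE M π q))⁻¹ ∈ M := q.2

/-- Two elements of `X` with the same projections are equal. -/
theorem XG_ext {M : Subgroup G} [M.Normal] {π : E →* G} {q q' : XG M π} (h1 : prX M π q = prX M π q') (h2 : prE M π q = prE M π q') : q = q' :=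
  Subtype.ext (Prod.ext h1 h2)

/-- There is an element with given projections. -/
theorem XG_exists {M : Subgroup G} [M.Normal] {π : E →* G} {g : G} {e : E} (h : g * (π e)⁻¹ ∈ M) : ∃ q : XG M π, prX M π q = g ∧ prE M π q = e :=
  ⟨⟨(g, e), h⟩, rfl, rfl⟩

/-- `D` is a kernel; an element of `D` over `1` is `(1, 1)`; `(g, 1) ∈ X` for `g ∈ M`. -/
theorem emb_X (M : Subgroup G) [M.Normal] (π : E →* G) : Emb (prX M π) (DX M π) M := by
  refine ⟨MonoidHom.normal_ker _, ?_, ?_⟩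
  · intro d hd h1
    have h2 : prE M π d = 1 := hd
    exact XG_ext (by rw [h1, map_one]) (by rw [h2, map_one])
  · intro g hg
    obtain ⟨q, h1, h2⟩ := XG_exists (M := M) (π := π) (g := g) (e := 1) (by rw [map_one, inv_one, mul_one]; exact hg)
    exact ⟨q, mem_DX.2 h2, h1⟩

/-- `(g, e) = (g π(e)⁻¹, 1) (π e, e)`, `π e ∈ S`. -/
theorem sup_X {M S : Subgroup G} [M.Normal] {π : E →* G} (hπ : ∀ e, π e ∈ S) : up (prX M π) (DX M π) M ⊔ SX M S π = ⊤ := by
  refine (Subgroup.eq_top_iff' _).2 fun q => ?_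
  obtain ⟨a, ha1, ha2⟩ := XG_exists (M := M) (π := π) (g := prX M π q * (π (prE M π q))⁻¹) (e := 1)
    (by rw [map_one, inv_one, mul_one]; exact XG_mem q)
  obtain ⟨b, hb1, hb2⟩ := XG_exists (M := M) (π := π) (g := π (prE M π q)) (e := prE M π q)
    (by rw [mul_inv_cancel]; exact M.one_mem)
  have e1 : q = a * b := by
    refine XG_ext ?_ ?_
    · rw [map_mul, ha1, hb1, inv_mul_cancel_right]
    · rw [map_mul, ha2, hb2, one_mul]
  rw [e1]
  refine Subgroup.mul_mem_sup ?_ ?_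
  · exact mem_up.2 ⟨by rw [ha1]; exact XG_mem q, mem_DX.2 ha2⟩
  · exact mem_SX.2 (by rw [hb1]; exact hπ _)

theorem inf_X {M S : Subgroup G} [M.Normal] {π : E →* G} (K : Subgroup G) : up (prX M π) (DX M π) K ⊓ SX M S π = up (prX M π) (DX M π) (K ⊓ S) := by
  ext q
  rw [Subgroup.mem_inf, mem_up, mem_up, mem_SX, Subgroup.mem_inf]
  tauto

/-- `(g, e) ^ (|S| N) = 1` for `g ∈ S`, so `S X` has no element of order `p` (Cauchy: `exists_prime_orderOf_dvd_card'`). -/
theorem card_SX {p : ℕ} [Fact p.Prime] [Finite G] [Finite E] {M S : Subgroup G} [M.Normal] {π : E →* G} (hS : ¬ p ∣ Nat.card S) {N : ℕ} (hN : ¬ p ∣ N) (hE : ∀ e : E, e ^ N = 1) :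
    ¬ p ∣ Nat.card (SX M S π) := by
  intro hd
  obtain ⟨x, hx⟩ := exists_prime_orderOf_dvd_card' p hd
  have h1 : (x : XG M π) ^ (Nat.card S * N) = 1 := by
    refine XG_ext ?_ ?_
    · rw [map_pow, map_one, pow_mul]
      have h2 : (prX M π (x : XG M π)) ^ Nat.card S = 1 := by
        have h3 : (⟨prX M π (x : XG M π), mem_SX.1 x.2⟩ : S) ^ Nat.card S = 1 := pow_card_eq_one'
        exact congrArg Subtype.val h3
      rw [h2, one_pow]
    · rw [map_pow, map_one, mul_comm, pow_mul, hE, one_pow]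
  have h4 : x ^ (Nat.card S * N) = 1 := Subtype.ext h1
  have h5 : p ∣ Nat.card S * N := by
    rw [← hx]
    exact orderOf_dvd_of_pow_eq_one h4
  rcases (Nat.Prime.dvd_mul Fact.out).1 h5 with h | h
  · exact hS h
  · exact hN h

end Pool.Agent.Lib.H88B
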