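import Pool.Agent.Lib.H90Q.A07
import Pool.Agent.Lib.H88B.Defs

/-!
H88B, R1: matrix representations of subgroups.
-/

open scoped Classical ComplexConjugate BigOperators

noncomputable section

namespace Pool.Agent.Lib.H88B

open Pool.Agent.Lib.H90Q

variable {G : Type*} [Group G]

/-- `R g` is invertible with inverse `R g⁻¹` (for `g ∈ H`). -/
theorem mrep_inv {H : Subgroup G} {n : ℕ} {R : G → Matrix (Fin n) (Fin n) ℂ} (h : MRep H R) {g : G} (hg : g ∈ H) :
    R g⁻¹ * R g = 1 ∧ R g * R g⁻¹ = 1 := by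
  constructor
  · rw [← h.2 _ (H.inv_mem hg) _ hg, inv_mul_cancel, h.1]
  · rw [← h.2 _ hg _ (H.inv_mem hg), mul_inv_cancel, h.1]

/-- The representation given by matrices. -/
private def r1Rep {X ι : Type*} [Group X] [Fintype ι] [DecidableEq ι] (R : X → Matrix ι ι ℂ) (h1 : R 1 = 1)
    (hm : ∀ a b, R (a * b) = R a * R b) : Representation ℂ X (ι → ℂ) where
  toFun g := Matrix.toLin' (R g)
  map_one' := by
    rw [h1, Matrix.toLin'_one]
    rfl
  map_mul' a b := by
    rw [hm, Matrix.toLin'_mul]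
    rfl

private theorem r1_isChar {X ι : Type*} [Group X] [Fintype ι] [DecidableEq ι] (R : X → Matrix ι ι ℂ) (h1 : R 1 = 1)
    (hm : ∀ a b, R (a * b) = R a * R b) : IsChar (fun x => (R x).trace) := by
  have h := isChar_of_rep (r1Rep R h1 hm)
  have e : (r1Rep R h1 hm).character = fun x => (R x).trace := by
    funext x
    exact Matrix.trace_toLin'_eq (R x)
  rwa [e] at h

/-- The trace of a matrix representation is a character: `Representation` on `Fin n → ℂ` with `ρ h = Matrix.toLin' (R h)` (`Matrix.toLin'_mul`, `Matrix.trace_toLin'_eq` or `LinearMap.trace_toLin'`), `isChar_of_rep`. -/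
theorem charS_of_mrep {H : Subgroup G} {n : ℕ} {R : G → Matrix (Fin n) (Fin n) ℂ} (h : MRep H R) :
    (fun g => if g ∈ H then (R g).trace else 0) ∈ CharS H := by
  refine ⟨fun g hg => if_neg hg, ?_⟩
  have h2 := r1_isChar (X := H) (fun x => R x) h.1 (fun a b => h.2 _ a.2 _ b.2)
  have e : (fun x : H => if (x : G) ∈ H then (R x).trace else 0) = fun x : H => (R x).trace := by
    funext x
    exact if_pos x.2
  exact e ▸ h2

/-- The abstract form (for a representation of a whole group by matrices with any finite index type). -/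
theorem isChar_of_matrices {X ι : Type*} [Group X] [Fintype ι] [DecidableEq ι] (R : X → Matrix ι ι ℂ) (h1 : R 1 = 1) (hm : ∀ a b, R (a * b) = R a * R b) :
    IsChar (fun x => (R x).trace) := by
  exact r1_isChar R h1 hm

variable [Fintype G]

/-- An irreducible character is the trace of a matrix representation that satisfies Schur's identity.
Proof: `χ.2` gives `n` and an irreducible representation `ρ` on `Fin n → ℂ`; `R g = LinearMap.toMatrix' (ρ g)` for `g ∈ H` and `1` off `H`. `χ 1 = n > 0` (`irr_one`). Schur: for a matrix `X` the sum `T = ∑_l R l X R l⁻¹` commutes with all `R h`, so it is a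
scalar (`Representation.IsIrreducible.algebraMap_intertwiningMap_bijective_of_isAlgClosed`, used as in `irr_conv` in Lib/H90Q/A05.lean): `T = c • 1`; the trace gives `n c = |H| tr X`. -/
theorem exists_mrep {H : Subgroup G} {χ : G → ℂ} (h : χ ∈ IrrS H) :
    ∃ (n : ℕ) (R : G → Matrix (Fin n) (Fin n) ℂ), 0 < n ∧ χ 1 = n ∧ MRep H R ∧ (∀ g ∈ H, (R g).trace = χ g) ∧ Av H R := by
  obtain ⟨hz, hχ⟩ := h
  obtain ⟨m, hm0, hm⟩ := irr_one hχ
  obtain ⟨n, ρ, hirr, hch⟩ := hχ
  set R : G → Matrix (Fin n) (Fin n) ℂ := fun g => if h : g ∈ H then LinearMap.toMatrix' (ρ ⟨g, h⟩) else 1 with hR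
  have hRm : ∀ g (h : g ∈ H), R g = LinearMap.toMatrix' (ρ ⟨g, h⟩) := fun g h => by
    rw [hR]
    exact dif_pos h
  have htrM : ∀ f : (Fin n → ℂ) →ₗ[ℂ] (Fin n → ℂ), (LinearMap.toMatrix' f).trace = LinearMap.trace ℂ _ f := by
    intro f
    rw [← Matrix.trace_toLin'_eq, Matrix.toLin'_toMatrix']
  have htr : ∀ g ∈ H, (R g).trace = χ g := by
    intro g hg
    rw [hRm g hg, htrM]
    exact congrFun hch ⟨g, hg⟩
  have hone : R 1 = 1 := by
    rw [hRm 1 H.one_mem]
    have e : (⟨1, H.one_mem⟩ : H) = 1 := rfl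
    rw [e, map_one]
    exact LinearMap.toMatrix'_one
  have hmul : ∀ a ∈ H, ∀ b ∈ H, R (a * b) = R a * R b := by
    intro a ha b hb
    rw [hRm a ha, hRm b hb, hRm _ (H.mul_mem ha hb), ← LinearMap.toMatrix'_mul, ← map_mul]
    rfl
  have hχ1 : χ 1 = n := by
    rw [← htr 1 H.one_mem, hone, Matrix.trace_one, Fintype.card_fin]
  have hnm : n = m := by
    have e : χ 1 = m := hm
    rw [hχ1] at e
    exact_mod_cast e
  have hn : 0 < n := hnm ▸ hm0
  refine ⟨n, R, hn, hχ1, ⟨hone, hmul⟩, htr, ?_⟩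
  intro X
  set T : Matrix (Fin n) (Fin n) ℂ := ∑ l : G, (if l ∈ H then R l * X * R l⁻¹ else 0) with hT
  have hRinv : ∀ g ∈ H, R g * R g⁻¹ = 1 := fun g hg => by
    rw [← hmul g hg _ (H.inv_mem hg), mul_inv_cancel, hone]
  have hRinv' : ∀ g ∈ H, R g⁻¹ * R g = 1 := fun g hg => by
    rw [← hmul _ (H.inv_mem hg) g hg, inv_mul_cancel, hone]
  have hcomm : ∀ a ∈ H, T * R a = R a * T := by
    intro a ha
    rw [hT, Finset.sum_mul, Finset.mul_sum]
    refine Fintype.sum_equiv (Equiv.mulLeft a⁻¹) _ _ fun l => ?_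
    have e0 : (Equiv.mulLeft a⁻¹) l = a⁻¹ * l := rfl
    rw [e0]
    by_cases hl : l ∈ H
    · have hl' : a⁻¹ * l ∈ H := H.mul_mem (H.inv_mem ha) hl
      rw [if_pos hl, if_pos hl', mul_inv_rev, inv_inv, hmul _ (H.inv_mem ha) l hl, hmul _ (H.inv_mem hl) a ha]
      calc R l * X * R l⁻¹ * R a = (1 : Matrix (Fin n) (Fin n) ℂ) * (R l * X * R l⁻¹ * R a) := (one_mul _).symm
        _ = (R a * R a⁻¹) * (R l * X * R l⁻¹ * R a) := by rw [hRinv a ha]
        _ = R a * (R a⁻¹ * R l * X * (R l⁻¹ * R a)) := by simp only [mul_assoc]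
    · have hl' : a⁻¹ * l ∉ H := fun h => hl (by simpa using H.mul_mem ha h)
      rw [if_neg hl, if_neg hl', zero_mul, mul_zero]
  have hTr : T.trace = (Nat.card H : ℂ) * X.trace := by
    rw [hT, Matrix.trace_sum]
    have e1 : ∀ l : G, Matrix.trace (if l ∈ H then R l * X * R l⁻¹ else 0) = if l ∈ H then X.trace else 0 := by
      intro l
      by_cases hl : l ∈ H
      · rw [if_pos hl, if_pos hl, Matrix.trace_mul_cycle, hRinv' l hl, one_mul]
      · rw [if_neg hl, if_neg hl, Matrix.trace_zero]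
    rw [Finset.sum_congr rfl fun l _ => e1 l, ← Finset.sum_filter, Finset.sum_const, nsmul_eq_mul]
    congr 2
    rw [Nat.card_eq_fintype_card, Fintype.card_subtype]
  obtain ⟨c, hc⟩ := (Representation.IsIrreducible.algebraMap_intertwiningMap_bijective_of_isAlgClosed
    (ρ := ρ)).2
    (⟨Matrix.toLin' T, fun a => by
      have h1 := hcomm a a.2
      rw [hRm a a.2] at h1
      have h2 := congrArg Matrix.toLin' h1
      rw [Matrix.toLin'_mul, Matrix.toLin'_mul, Matrix.toLin'_toMatrix'] at h2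
      exact h2⟩ : Representation.IntertwiningMap ρ ρ)
  have hTc : Matrix.toLin' T = c • LinearMap.id := by
    have h7 := congrArg Representation.IntertwiningMap.toLinearMap hc
    rw [Algebra.algebraMap_eq_smul_one] at h7
    exact h7.symm
  have hTc' : T = c • (1 : Matrix (Fin n) (Fin n) ℂ) := by
    apply (Matrix.toLin' (R := ℂ) (m := Fin n) (n := Fin n)).injective
    rw [hTc, map_smul, Matrix.toLin'_one]
  have h8 : (Nat.card H : ℂ) * X.trace = c * n := by
    rw [← hTr, hTc', Matrix.trace_smul, Matrix.trace_one, Fintype.card_fin, smul_eq_mul]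
  rw [h8, hTc', smul_smul, mul_comm]

/-- Schur's lemma from the identity `Av`: for `X` commuting with all `R g` the left side of `Av` is `n |H| X`. -/
theorem av_comm {H : Subgroup G} {n : ℕ} (hn : 0 < n) {R : G → Matrix (Fin n) (Fin n) ℂ} (h : MRep H R) (hA : Av H R) {X : Matrix (Fin n) (Fin n) ℂ}
    (hX : ∀ g ∈ H, X * R g = R g * X) : ∃ c : ℂ, X = c • 1 := by
  have h1 := hA X
  have e1 : (∑ l : G, if l ∈ H then R l * X * R l⁻¹ else 0) = (Nat.card H : ℂ) • X := by
    have e2 : ∀ l : G, (if l ∈ H then R l * X * R l⁻¹ else 0) = if l ∈ H then X else 0 := by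
      intro l
      by_cases hl : l ∈ H
      · rw [if_pos hl, if_pos hl, ← hX l hl, mul_assoc, (mrep_inv h hl).2, mul_one]
      · rw [if_neg hl, if_neg hl]
    rw [Finset.sum_congr rfl fun l _ => e2 l, ← Finset.sum_filter, Finset.sum_const, ← Nat.cast_smul_eq_nsmul ℂ]
    congr 2
    rw [Nat.card_eq_fintype_card, Fintype.card_subtype]
  rw [e1, smul_smul] at h1
  have hn0 : (n : ℂ) ≠ 0 := by exact_mod_cast hn.ne'
  have hc0 : (Nat.card H : ℂ) ≠ 0 := by exact_mod_cast (Nat.card_pos (α := H)).ne'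
  refine ⟨((n : ℂ) * (Nat.card H : ℂ))⁻¹ * ((Nat.card H : ℂ) * X.trace), ?_⟩
  rw [← smul_smul, ← h1, smul_smul, inv_mul_cancel₀ (mul_ne_zero hn0 hc0), one_smul]

end Pool.Agent.Lib.H88B
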