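import Pool.Agent.Lib.H90Q.C3
import Pool.Agent.Lib.H88B.R1
import Pool.Agent.Lib.H88B.F1

/-!
H88B, F2: the extensions `Φ` and `Ψ`.
-/

open scoped Classical ComplexConjugate BigOperators

noncomputable section

namespace Pool.Agent.Lib.H88B

open Pool.Agent.Lib.H90Q

variable {G E : Type*} [Group G] [Group E]

/-- `(g, e) ↦ R (g π(e)⁻¹) A(e)` is multiplicative on `X`: with `y = g π(e)⁻¹ ∈ M`, `y' = g' π(e')⁻¹ ∈ M` one has `g g' π(e e')⁻¹ = y (π(e) y' π(e)⁻¹)` and `R (π(e) y' π(e)⁻¹) A e = A e R y'` (`intA`). -/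
theorem phi_mul {p : ℕ} {M S : Subgroup G} [M.Normal] {n m : ℕ} {R : G → Matrix (Fin n) (Fin n) ℂ} {σ : G → Matrix (Fin m) (Fin m) ℂ}
    (hR : MRep M R) {π : E →* G} {A : E → Matrix (Fin n) (Fin n) ℂ} {B : E → Matrix (Fin m) (Fin m) ℂ} (hE : EData p M S R σ π A B) (q q' : XG M π) :
    R (prX M π (q * q') * (π (prE M π (q * q')))⁻¹) * A (prE M π (q * q')) =
      (R (prX M π q * (π (prE M π q))⁻¹) * A (prE M π q)) * (R (prX M π q' * (π (prE M π q'))⁻¹) * A (prE M π q')) := by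
  obtain ⟨y, hy⟩ : ∃ y, y = prX M π q * (π (prE M π q))⁻¹ := ⟨_, rfl⟩
  obtain ⟨y', hy'⟩ : ∃ y', y' = prX M π q' * (π (prE M π q'))⁻¹ := ⟨_, rfl⟩
  have hyM : y ∈ M := by rw [hy]; exact XG_mem q
  have hyM' : y' ∈ M := by rw [hy']; exact XG_mem q'
  have hz : π (prE M π q) * y' * (π (prE M π q))⁻¹ ∈ M := Subgroup.Normal.conj_mem inferInstance _ hyM' _
  have e1 : prX M π (q * q') * (π (prE M π (q * q')))⁻¹ = y * (π (prE M π q) * y' * (π (prE M π q))⁻¹) := by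
    rw [map_mul, map_mul, map_mul, hy, hy']
    group
  rw [e1, ← hy, ← hy', hR.2 _ hyM _ hz, map_mul, hE.mulA]
  have h2 := hE.intA (prE M π q) y' hyM'
  calc R y * R (π (prE M π q) * y' * (π (prE M π q))⁻¹) * (A (prE M π q) * A (prE M π q'))
      = R y * (R (π (prE M π q) * y' * (π (prE M π q))⁻¹) * A (prE M π q)) * A (prE M π q') := by
        simp only [Matrix.mul_assoc]
    _ = R y * (A (prE M π q) * R y') * A (prE M π q') := by rw [h2]
    _ = R y * A (prE M π q) * (R y' * A (prE M π q')) := by simp only [Matrix.mul_assoc]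

/-- `(g, e) ↦ σ (g π(e)⁻¹) B(e)` is multiplicative on `SX` (there `g π(e)⁻¹ ∈ M ⊓ S`). -/
theorem psi_mul {p : ℕ} {M S : Subgroup G} [M.Normal] {n m : ℕ} {R : G → Matrix (Fin n) (Fin n) ℂ} {σ : G → Matrix (Fin m) (Fin m) ℂ}
    (hσ : MRep (M ⊓ S) σ) {π : E →* G} {A : E → Matrix (Fin n) (Fin n) ℂ} {B : E → Matrix (Fin m) (Fin m) ℂ} (hE : EData p M S R σ π A B) {q q' : XG M π}
    (hq : q ∈ SX M S π) (hq' : q' ∈ SX M S π) :
    σ (prX M π (q * q') * (π (prE M π (q * q')))⁻¹) * B (prE M π (q * q')) =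
      (σ (prX M π q * (π (prE M π q))⁻¹) * B (prE M π q)) * (σ (prX M π q' * (π (prE M π q'))⁻¹) * B (prE M π q')) := by
  obtain ⟨y, hy⟩ : ∃ y, y = prX M π q * (π (prE M π q))⁻¹ := ⟨_, rfl⟩
  obtain ⟨y', hy'⟩ : ∃ y', y' = prX M π q' * (π (prE M π q'))⁻¹ := ⟨_, rfl⟩
  have hyM : y ∈ M ⊓ S := by
    rw [hy]
    exact ⟨XG_mem q, S.mul_mem (mem_SX.1 hq) (S.inv_mem (hE.mem _))⟩
  have hyM' : y' ∈ M ⊓ S := by
    rw [hy']
    exact ⟨XG_mem q', S.mul_mem (mem_SX.1 hq') (S.inv_mem (hE.mem _))⟩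
  have hz : π (prE M π q) * y' * (π (prE M π q))⁻¹ ∈ M ⊓ S :=
    ⟨Subgroup.Normal.conj_mem inferInstance _ hyM'.1 _, S.mul_mem (S.mul_mem (hE.mem _) hyM'.2) (S.inv_mem (hE.mem _))⟩
  have e1 : prX M π (q * q') * (π (prE M π (q * q')))⁻¹ = y * (π (prE M π q) * y' * (π (prE M π q))⁻¹) := by
    rw [map_mul, map_mul, map_mul, hy, hy']
    group
  rw [e1, ← hy, ← hy', hσ.2 _ hyM _ hz, map_mul, hE.mulB]
  have h2 := hE.intB (prE M π q) y' hyM'
  calc σ y * σ (π (prE M π q) * y' * (π (prE M π q))⁻¹) * (B (prE M π q) * B (prE M π q'))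
      = σ y * (σ (π (prE M π q) * y' * (π (prE M π q))⁻¹) * B (prE M π q)) * B (prE M π q') := by
        simp only [Matrix.mul_assoc]
    _ = σ y * (B (prE M π q) * σ y') * B (prE M π q') := by rw [h2]
    _ = σ y * B (prE M π q) * (σ y' * B (prE M π q')) := by simp only [Matrix.mul_assoc]

variable [Fintype G] [Fintype E]

/-- `Φ` is an irreducible character of `X` : a character (`charS_of_mrep` in the ambient group `X` with `H = ⊤`, or `isChar_of_matrices`), its restriction to `up M` is `upf Θ`, irreducible (`upf_irrS`), so it is irreducible (`irrS_of_ext`). -/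
theorem phi_irr {p : ℕ} {M S : Subgroup G} [M.Normal] {n m : ℕ} {R : G → Matrix (Fin n) (Fin n) ℂ} {σ : G → Matrix (Fin m) (Fin m) ℂ}
    (hR : MRep M R) {Θ : G → ℂ} (hΘ : Θ ∈ IrrS M) (hRt : ∀ g ∈ M, (R g).trace = Θ g) {π : E →* G} {A : E → Matrix (Fin n) (Fin n) ℂ} {B : E → Matrix (Fin m) (Fin m) ℂ}
    (hE : EData p M S R σ π A B) :
    (fun q : XG M π => (R (prX M π q * (π (prE M π q))⁻¹) * A (prE M π q)).trace) ∈ IrrS (⊤ : Subgroup (XG M π)) ∧
      ∀ q ∈ up (prX M π) (DX M π) M, (R (prX M π q * (π (prE M π q))⁻¹) * A (prE M π q)).trace = upf (prX M π) (DX M π) Θ q := by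
  have : Fintype (XG M π) := Fintype.ofFinite _
  have hval : ∀ q ∈ up (prX M π) (DX M π) M,
      (R (prX M π q * (π (prE M π q))⁻¹) * A (prE M π q)).trace = upf (prX M π) (DX M π) Θ q := by
    intro q hq
    have h1 : prX M π q ∈ M := (mem_up.1 hq).1
    have h2 : q ∈ DX M π := (mem_up.1 hq).2
    have h3 : prE M π q = 1 := mem_DX.1 h2
    unfold upf
    rw [if_pos h2, h3, map_one, inv_one, mul_one, hE.one.1, Matrix.mul_one, hRt _ h1]
  refine ⟨?_, hval⟩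
  have hrep : MRep (⊤ : Subgroup (XG M π)) (fun q => R (prX M π q * (π (prE M π q))⁻¹) * A (prE M π q)) := by
    refine ⟨?_, fun a _ b _ => phi_mul hR hE a b⟩
    change R (prX M π 1 * (π (prE M π 1))⁻¹) * A (prE M π 1) = 1
    rw [map_one, map_one, map_one, inv_one, mul_one, hE.one.1, hR.1, Matrix.mul_one]
  have h4 := charS_of_mrep hrep
  have e4 : (fun g : XG M π => if g ∈ (⊤ : Subgroup (XG M π)) then
      ((fun q => R (prX M π q * (π (prE M π q))⁻¹) * A (prE M π q)) g).trace else 0) =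
      fun q : XG M π => (R (prX M π q * (π (prE M π q))⁻¹) * A (prE M π q)).trace := by
    funext g
    exact if_pos (Subgroup.mem_top g)
  rw [e4] at h4
  exact irrS_of_ext le_top h4 (upf_irrS (emb_X M π) le_rfl hΘ) hval

/-- The same for `Ψ` on `SX`; its restriction to `up (M ⊓ S)` is `upf θs`. -/
theorem psi_irr {p : ℕ} {M S : Subgroup G} [M.Normal] {n m : ℕ} {R : G → Matrix (Fin n) (Fin n) ℂ} {σ : G → Matrix (Fin m) (Fin m) ℂ}
    (hσ : MRep (M ⊓ S) σ) {θs : G → ℂ} (hθs : θs ∈ IrrS (M ⊓ S)) (hσt : ∀ g ∈ M ⊓ S, (σ g).trace = θs g) {π : E →* G} {A : E → Matrix (Fin n) (Fin n) ℂ}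
    {B : E → Matrix (Fin m) (Fin m) ℂ} (hE : EData p M S R σ π A B) :
    (fun q : XG M π => if q ∈ SX M S π then (σ (prX M π q * (π (prE M π q))⁻¹) * B (prE M π q)).trace else 0) ∈ IrrS (SX M S π) ∧
      ∀ q ∈ up (prX M π) (DX M π) (M ⊓ S),
        (if q ∈ SX M S π then (σ (prX M π q * (π (prE M π q))⁻¹) * B (prE M π q)).trace else 0) = upf (prX M π) (DX M π) θs q := by
  have : Fintype (XG M π) := Fintype.ofFinite _
  have hle : up (prX M π) (DX M π) (M ⊓ S) ≤ SX M S π := fun q hq => mem_SX.2 (mem_up.1 hq).1.2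
  have hval : ∀ q ∈ up (prX M π) (DX M π) (M ⊓ S),
      (if q ∈ SX M S π then (σ (prX M π q * (π (prE M π q))⁻¹) * B (prE M π q)).trace else 0) = upf (prX M π) (DX M π) θs q := by
    intro q hq
    have h1 : prX M π q ∈ M ⊓ S := (mem_up.1 hq).1
    have h2 : q ∈ DX M π := (mem_up.1 hq).2
    have h3 : prE M π q = 1 := mem_DX.1 h2
    rw [if_pos (hle hq)]
    unfold upf
    rw [if_pos h2, h3, map_one, inv_one, mul_one, hE.one.2, Matrix.mul_one, hσt _ h1]
  refine ⟨?_, hval⟩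
  have hrep : MRep (SX M S π) (fun q => σ (prX M π q * (π (prE M π q))⁻¹) * B (prE M π q)) := by
    refine ⟨?_, fun a ha b hb => psi_mul hσ hE ha hb⟩
    change σ (prX M π 1 * (π (prE M π 1))⁻¹) * B (prE M π 1) = 1
    rw [map_one, map_one, map_one, inv_one, mul_one, hE.one.2, hσ.1, Matrix.mul_one]
  have h4 := charS_of_mrep hrep
  exact irrS_of_ext hle h4 (upf_irrS (emb_X M π) inf_le_left hθs) hval

end Pool.Agent.Lib.H88B
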