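import Pool.Agent.Lib.H88B.U1

/-!
H88B, U2: transport of the correspondence and of the canonical extension.
-/

open scoped Classical ComplexConjugate BigOperators

noncomputable section

namespace Pool.Agent.Lib.H88B

open Pool.Agent.Lib.H90Q

variable {X G : Type*} [Group X] [Group G] [Fintype X] [Fintype G] {π : X →* G} {D : Subgroup X} {M : Subgroup G}

/-- `CM_up`, `upf_irrS`, `mu_up`. -/
theorem gc_up (h : Emb π D M) {p : ℕ} {K A : Subgroup G} (hK : K ≤ M) (hA : A ≤ M) {χ ψ : G → ℂ} (hg : GC p K (A : Set G) χ ψ) :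
    GC p (up π D K) ((up π D A : Subgroup X) : Set X) (upf π D χ) (upf π D ψ) := by
  have hC : CM K (A : Set G) ≤ M := (inf_le_left : CM K (A : Set G) ≤ K).trans hK
  refine ⟨upf_irrS h hK hg.1, ?_, ?_⟩
  · rw [CM_up h K hA]
    exact upf_irrS h hC hg.2.1
  · rw [CM_up h K hA, mu_up h hC]
    exact hg.2.2

/-- `CM_up_single`, `upf_irrS`, `mu_up`. -/
theorem gc_up_single (h : Emb π D M) {p : ℕ} {K : Subgroup G} (hK : K ≤ M) {q : X} (hq : q ∈ D) {χ ψ : G → ℂ} (hg : GC p K {π q} χ ψ) :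
    GC p (up π D K) {q} (upf π D χ) (upf π D ψ) := by
  have hC : CM K {π q} ≤ M := (inf_le_left : CM K {π q} ≤ K).trans hK
  refine ⟨upf_irrS h hK hg.1, ?_, ?_⟩
  · rw [CM_up_single h K hq]
    exact upf_irrS h hC hg.2.1
  · rw [CM_up_single h K hq, mu_up h hC]
    exact hg.2.2

/-- All clauses of `Can` for `upf Θ`: `up_sup`, `gc_up_single`, `CM_up_single`, `mu_up`; and the clause for `p = 2`. -/
theorem canP_up (h : Emb π D M) {p : ℕ} {L P : Subgroup G} (hM : L ⊔ P ≤ M) (hn : ∀ z ∈ P, Nz z L) {θ Θ : G → ℂ} (hc : CanP p L P θ Θ) :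
    CanP p (up π D L) (up π D P) (upf π D θ) (upf π D Θ) := by
  have hL : L ≤ M := le_sup_left.trans hM
  have hP : P ≤ M := le_sup_right.trans hM
  have hD : ∀ (f : G → ℂ) (q : X), q ∈ D → upf π D f q = f (π q) := fun f q hq => if_pos hq
  refine ⟨⟨?_, fun x hx => ?_, fun z hz => ?_⟩, fun hp z hz => ?_⟩
  · rw [up_sup h hL hP hn]
    exact upf_irrS h hM hc.1.irr
  · obtain ⟨h1, h2⟩ := mem_up.1 hx
    rw [hD _ _ h2, hD _ _ h2]
    exact hc.1.ext _ h1
  · obtain ⟨h1, h2⟩ := mem_up.1 hz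
    obtain ⟨ψ, ε, hε, hg, hmu, hv⟩ := hc.1.val (π z) h1
    have hC : CM L {π z} ≤ M := (inf_le_left : CM L {π z} ≤ L).trans hL
    refine ⟨upf π D ψ, ε, hε, gc_up_single h hL h2 hg, ?_, fun c hc => ?_⟩
    · rw [CM_up_single h L h2, mu_up h hC]
      exact hmu
    · rw [CM_up_single h L h2] at hc
      obtain ⟨h3, h4⟩ := mem_up.1 hc
      rw [hD _ _ (D.mul_mem h2 h4), hD _ _ h4, map_mul]
      exact hv _ h3
  · obtain ⟨h1, h2⟩ := mem_up.1 hz
    obtain ⟨k, hk⟩ := hc.2 hp (π z) h1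
    refine ⟨k, ?_⟩
    rw [hD _ _ h2, hD _ _ D.one_mem, map_one]
    exact hk

end Pool.Agent.Lib.H88B
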