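import Pool.Agent.Lib.H90S.Key
import Pool.Agent.Lib.H88B.U2
import Pool.Agent.Lib.H88B.F2

/-!
H88B, F3: the function `F` on `E`.
-/

open scoped Classical ComplexConjugate BigOperators

noncomputable section

namespace Pool.Agent.Lib.H88B

open Pool.Agent.Lib.H90Q

variable {G : Type*} [Group G]

/-- `x ∈ P` is good: some power `z = x ^ j` satisfies `C_L(z) = C_L(P)` and `z ^ p` centralises `L`. -/
def Good (p : ℕ) (L P : Subgroup G) (x : G) : Prop :=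
  ∃ j : ℕ, CM L {x ^ j} = CM L (P : Set G) ∧ ∀ l ∈ L, (x ^ j) ^ p * l = l * (x ^ j) ^ p

variable {E : Type*} [Group E] [Fintype G] [Fintype E]

/-- KEY in the ambient group `X = XG (L ⊔ P) π`, `L' = up L`, `P' = up P`, `S' = SX`. `M = L ⊔ P`, `π' = prX`, `D = DX`, `emb_X`.
Hypotheses of `key`: `up L ⊔ up P ⊔ S' = ⊤` by `up_sup` and `sup_X`; `Nz`: `nz_up`; orders: `card_up`, `card_SX`; `hPp`, `hab`: elements of `up P` (an element of `D` is determined by its image: `Emb.eq`, `Emb.inj`); `hC`: `inf_X`, `CM_up`; `upf_irrS`, `invS_up`, `gc_up`, `canP_up`; `Φ`, `Ψ` from `phi_irr`,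
`psi_irr` (`up L ⊔ up P = up M` by `up_sup`; `up L ⊓ S' = up (L ⊓ S) = up (M ⊓ S)` by `hMS`).
The result: `ε`, `f ∈ LinS S' (up L ⊓ S')`. Put `F e = f (π e, e)` (`(π e, e) ∈ S'` because `π e ∈ S`, `XG_exists`; choose it as a function of `e`, it is multiplicative by `XG_ext`). For `x ∈ P` good: `x' = (x, 1)` is good in `X` (`CM_up_single`, `Emb.inj`).
 (1) `u = (π e, e)` commutes with `x'` if `π e * x = x * π e`: `Φ (x' u) = tr (R (x π(e) π(e)⁻¹) A e)`, `Ψ u = tr (σ 1 * B e)`.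
 (2) `π e = c`, `A e = R c`, `B e = σ c`, `c ∈ M ⊓ S`: take `u = (1, e)` (`1 * c⁻¹ ∈ M`), it commutes with `x'`; `Φ (x' u) = tr (R (x c⁻¹) R c) = tr (R x)`, `Ψ u = tr (σ c⁻¹ σ c) = m`, `f u = f ((c⁻¹, 1) (c, e)) = F e`, since `(c⁻¹, 1) ∈ up L ⊓ S'`. With `e = 1`: `tr (R x) = ε m`.
So `F e = 1` (`ε m ≠ 0`).
 (3) `π e = 1`, `A e = a • 1`, `B e = b • 1`: `u = (1, e)`: `a tr (R x) = ε F(e) b m`, so `F e * b = a`. -/
theorem exists_F {p : ℕ} [Fact p.Prime] {L P S : Subgroup G} [(L ⊔ P).Normal] (hLn : ∀ g, Nz g L) (hPS : ∀ s ∈ S, Nz s P)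
    (hL : ¬ p ∣ Nat.card L) (hS : ¬ p ∣ Nat.card S) (hPp : ∀ z ∈ P, ∃ a : ℕ, z ^ (p ^ a) = 1) (hab : ∀ b ∈ P, ∀ c ∈ P, b * c = c * b)
    (hC : L ⊓ S = CM L (P : Set G)) (hMS : (L ⊔ P) ⊓ S = L ⊓ S) {θ θs Θ : G → ℂ} (hθ : θ ∈ IrrS L) (hinv : InvS P θ) (hGC : GC p L (P : Set G) θ θs)
    (hcan : CanP p L P θ Θ) (hgood : ∃ x ∈ P, Good p L P x) {n m : ℕ} (hm : 0 < m) {R : G → Matrix (Fin n) (Fin n) ℂ} {σ : G → Matrix (Fin m) (Fin m) ℂ}
    (hR : MRep (L ⊔ P) R) (hRt : ∀ g ∈ L ⊔ P, (R g).trace = Θ g) (hσ : MRep ((L ⊔ P) ⊓ S) σ) (hσt : ∀ g ∈ (L ⊔ P) ⊓ S, (σ g).trace = θs g)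
    {π : E →* G} {A : E → Matrix (Fin n) (Fin n) ℂ} {B : E → Matrix (Fin m) (Fin m) ℂ} (hE : EData p (L ⊔ P) S R σ π A B) :
    ∃ ε : ℂ, (ε = 1 ∨ ε = -1) ∧ ∃ F : E → ℂ, F 1 = 1 ∧ (∀ e e', F (e * e') = F e * F e') ∧
      (∀ x ∈ P, Good p L P x → ∀ e, π e * x = x * π e → (R x * A e).trace = ε * F e * (B e).trace) ∧
      (∀ e, ∀ c ∈ (L ⊔ P) ⊓ S, π e = c → A e = R c → B e = σ c → F e = 1) ∧
      ∀ e, ∀ a b : ℂ, π e = 1 → A e = a • 1 → B e = b • 1 → F e * b = a := by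
  have hLM : L ≤ L ⊔ P := le_sup_left
  have hPM : P ≤ L ⊔ P := le_sup_right
  have hem : Emb (prX (L ⊔ P) π) (DX (L ⊔ P) π) (L ⊔ P) := emb_X (L ⊔ P) π
  haveI : Fintype (XG (L ⊔ P) π) := Fintype.ofFinite _
  have hMSC : (L ⊔ P) ⊓ S = CM L (P : Set G) := hMS.trans hC
  have hΘ : Θ ∈ IrrS (L ⊔ P) := hcan.1.irr
  have hθs : θs ∈ IrrS ((L ⊔ P) ⊓ S) := by
    rw [hMSC]
    exact hGC.2.1
  obtain ⟨hΦ, hΦe⟩ := phi_irr hR hΘ hRt hE
  obtain ⟨hΨ, hΨe⟩ := psi_irr hσ hθs hσt hE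
  have hsupM : up (prX (L ⊔ P) π) (DX (L ⊔ P) π) L ⊔ up (prX (L ⊔ P) π) (DX (L ⊔ P) π) P =
      up (prX (L ⊔ P) π) (DX (L ⊔ P) π) (L ⊔ P) := up_sup hem hLM hPM (fun z _ => hLn z)
  have hinfL : up (prX (L ⊔ P) π) (DX (L ⊔ P) π) L ⊓ SX (L ⊔ P) S π =
      up (prX (L ⊔ P) π) (DX (L ⊔ P) π) (L ⊓ S) := inf_X L
  have hCM : CM (up (prX (L ⊔ P) π) (DX (L ⊔ P) π) L)
      ((up (prX (L ⊔ P) π) (DX (L ⊔ P) π) P : Subgroup (XG (L ⊔ P) π)) : Set (XG (L ⊔ P) π)) =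
      up (prX (L ⊔ P) π) (DX (L ⊔ P) π) (CM L (P : Set G)) := CM_up hem L hPM
  obtain ⟨N, hN, hexp⟩ := hE.exp
  have key := H90S.key (p := p) (L := up (prX (L ⊔ P) π) (DX (L ⊔ P) π) L)
    (P := up (prX (L ⊔ P) π) (DX (L ⊔ P) π) P) (S := SX (L ⊔ P) S π)
    (fun z _ => nz_up hem (hLn _)) (fun s _ => nz_up hem (hLn _))
    (fun s hs => nz_up hem (hPS _ (mem_SX.1 hs)))
    (by rw [card_up hem hLM]; exact hL)
    (card_SX hS hN hexp)
    (by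
      rintro z ⟨hz1, hz2⟩
      obtain ⟨a, ha⟩ := hPp _ hz1
      refine ⟨a, hem.inj _ (Subgroup.pow_mem _ hz2 _) ?_⟩
      rw [map_pow]
      exact ha)
    (by
      rintro b ⟨hb1, hb2⟩ c ⟨hc1, hc2⟩
      refine hem.eq (Subgroup.mul_mem _ hb2 hc2) (Subgroup.mul_mem _ hc2 hb2) ?_
      rw [map_mul, map_mul]
      exact hab _ hb1 _ hc1)
    (by rw [hinfL, hCM, hC])
    (upf_irrS hem hLM hθ) (invS_up hem hinv) (gc_up hem hLM hPM hGC)
    (canP_up hem le_rfl (fun z _ => hLn z) hcan)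
    (by rw [hsupM, sup_X hE.mem]; exact hΦ)
    (by rw [hsupM]; exact hΦe)
    hΨ
    (by rw [hinfL, ← hMS]; exact hΨe)
  obtain ⟨ε, hε, f, hf, hkey⟩ := key
  have hε0 : ε ≠ 0 := by
    rcases hε with h | h <;> rw [h] <;> norm_num
  have hm0 : (m : ℂ) ≠ 0 := by exact_mod_cast hm.ne'
  have hq : ∀ e : E, ∃ q : XG (L ⊔ P) π, prX (L ⊔ P) π q = π e ∧ prE (L ⊔ P) π q = e := by
    intro e
    refine XG_exists ?_
    rw [mul_inv_cancel]
    exact Subgroup.one_mem _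
  choose q hq1 hq2 using hq
  have hqS : ∀ e, q e ∈ SX (L ⊔ P) S π := by
    intro e
    rw [mem_SX, hq1]
    exact hE.mem e
  -- the general evaluation
  have main : ∀ x ∈ P, Good p L P x → ∀ u : XG (L ⊔ P) π, u ∈ SX (L ⊔ P) S π →
      prX (L ⊔ P) π u * x = x * prX (L ⊔ P) π u →
      (R (x * prX (L ⊔ P) π u * (π (prE (L ⊔ P) π u))⁻¹) * A (prE (L ⊔ P) π u)).trace =
        ε * f u * (σ (prX (L ⊔ P) π u * (π (prE (L ⊔ P) π u))⁻¹) * B (prE (L ⊔ P) π u)).trace := by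
    intro x hx hgx u hu hcomm
    obtain ⟨x', hx1, hx2⟩ := XG_exists (M := L ⊔ P) (π := π) (g := x) (e := 1)
      (by rw [map_one, inv_one, mul_one]; exact hPM hx)
    have hxD : x' ∈ DX (L ⊔ P) π := mem_DX.2 hx2
    have hxP : x' ∈ up (prX (L ⊔ P) π) (DX (L ⊔ P) π) P := mem_up.2 ⟨by rw [hx1]; exact hx, hxD⟩
    obtain ⟨j, hj1, hj2⟩ := hgx
    have hgood' : ∃ j : ℕ, CM (up (prX (L ⊔ P) π) (DX (L ⊔ P) π) L) {x' ^ j} =
        CM (up (prX (L ⊔ P) π) (DX (L ⊔ P) π) L)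
          ((up (prX (L ⊔ P) π) (DX (L ⊔ P) π) P : Subgroup (XG (L ⊔ P) π)) : Set (XG (L ⊔ P) π)) ∧
        ∀ l ∈ up (prX (L ⊔ P) π) (DX (L ⊔ P) π) L, (x' ^ j) ^ p * l = l * (x' ^ j) ^ p := by
      refine ⟨j, ?_, ?_⟩
      · rw [CM_up_single hem L (Subgroup.pow_mem _ hxD j), hCM, map_pow, hx1, hj1]
      · rintro l ⟨hl1, hl2⟩
        have hxjD : (x' ^ j) ^ p ∈ DX (L ⊔ P) π := Subgroup.pow_mem _ (Subgroup.pow_mem _ hxD j) p
        refine hem.eq (Subgroup.mul_mem _ hxjD hl2) (Subgroup.mul_mem _ hl2 hxjD) ?_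
        rw [map_mul, map_mul, map_pow, map_pow, hx1]
        exact hj2 _ hl1
    have h1 := hkey x' hxP hgood' u hu (by
      refine XG_ext ?_ ?_
      · rw [map_mul, map_mul, hx1]
        exact hcomm
      · rw [map_mul, map_mul, hx2, mul_one, one_mul])
    simp only [map_mul, hx1, hx2, one_mul, if_pos hu] at h1
    exact h1
  have hF1 : ∀ x ∈ P, Good p L P x → ∀ e, π e * x = x * π e →
      (R x * A e).trace = ε * f (q e) * (B e).trace := by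
    intro x hx hgx e he
    have h1 := main x hx hgx (q e) (hqS e) (by rw [hq1]; exact he)
    rw [hq1, hq2, mul_inv_cancel_right, mul_inv_cancel, hσ.1, one_mul] at h1
    exact h1
  have hq0 : q 1 = 1 := by
    refine XG_ext ?_ ?_
    · rw [hq1, map_one, map_one]
    · rw [hq2, map_one]
  have hfone : f (q 1) = 1 := by
    rw [hq0]
    exact hf.2.1 1 (Subgroup.one_mem _)
  obtain ⟨x0, hx0, hg0⟩ := hgood
  have htr0 : (R x0).trace = ε * m := by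
    have h1 := hF1 x0 hx0 hg0 1 (by rw [map_one, one_mul, mul_one])
    rw [hfone, hE.one.1, hE.one.2, mul_one, mul_one, Matrix.trace_one, Fintype.card_fin] at h1
    exact h1
  refine ⟨ε, hε, fun e => f (q e), hfone, ?_, hF1, ?_, ?_⟩
  · intro e e'
    have h1 : q (e * e') = q e * q e' := by
      refine XG_ext ?_ ?_
      · rw [hq1, map_mul, map_mul, hq1, hq1]
      · rw [hq2, map_mul, hq2, hq2]
    show f (q (e * e')) = f (q e) * f (q e')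
    rw [h1]
    exact hf.2.2 _ (hqS e) _ (hqS e')
  · intro e c hc hec hAe hBe
    have hcM : c ∈ L ⊔ P := hc.1
    have hcL : c ∈ L ⊓ S := by
      rw [← hMS]
      exact hc
    obtain ⟨u, hu1, hu2⟩ := XG_exists (M := L ⊔ P) (π := π) (g := 1) (e := e)
      (by rw [one_mul, hec]; exact Subgroup.inv_mem _ hcM)
    have huS : u ∈ SX (L ⊔ P) S π := by
      rw [mem_SX, hu1]
      exact Subgroup.one_mem _
    obtain ⟨v, hv1, hv2⟩ := XG_exists (M := L ⊔ P) (π := π) (g := c⁻¹) (e := 1)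
      (by rw [map_one, inv_one, mul_one]; exact Subgroup.inv_mem _ hcM)
    have hvL : v ∈ up (prX (L ⊔ P) π) (DX (L ⊔ P) π) L ⊓ SX (L ⊔ P) S π := by
      rw [hinfL]
      exact mem_up.2 ⟨by rw [hv1]; exact Subgroup.inv_mem _ hcL, mem_DX.2 hv2⟩
    have huv : u = v * q e := by
      refine XG_ext ?_ ?_
      · rw [map_mul, hu1, hv1, hq1, hec, inv_mul_cancel]
      · rw [map_mul, hu2, hv2, hq2, one_mul]
    have hfu : f u = f (q e) := by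
      rw [huv, hf.2.2 _ hvL.2 _ (hqS e), hf.2.1 v hvL, one_mul]
    have h1 := main x0 hx0 hg0 u huS (by rw [hu1, one_mul, mul_one])
    rw [hu1, hu2, hec, hAe, hBe, mul_one, one_mul, hfu,
      ← hR.2 _ (Subgroup.mul_mem _ (hPM hx0) (Subgroup.inv_mem _ hcM)) _ hcM,
      ← hσ.2 _ (Subgroup.inv_mem _ hc) _ hc, inv_mul_cancel_right, inv_mul_cancel, hσ.1,
      Matrix.trace_one, Fintype.card_fin, htr0] at h1
    have h2 : ε * (m : ℂ) * (f (q e) - 1) = 0 := by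
      linear_combination -h1
    have h3 := (mul_eq_zero.1 h2).resolve_left (mul_ne_zero hε0 hm0)
    exact sub_eq_zero.1 h3
  · intro e a b he hAe hBe
    have h1 := hF1 x0 hx0 hg0 e (by rw [he, one_mul, mul_one])
    rw [hAe, hBe, Matrix.mul_smul, mul_one, Matrix.trace_smul, Matrix.trace_smul, Matrix.trace_one,
      Fintype.card_fin, htr0, smul_eq_mul, smul_eq_mul] at h1
    have h2 : ε * (m : ℂ) * (f (q e) * b - a) = 0 := by
      linear_combination -h1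
    have h3 := (mul_eq_zero.1 h2).resolve_left (mul_ne_zero hε0 hm0)
    exact sub_eq_zero.1 h3

end Pool.Agent.Lib.H88B
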