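import Pool.Agent.Lib.H88B.R1

/-!
H88B, F4: the bridging character.
-/

open scoped Classical ComplexConjugate BigOperators

noncomputable section

namespace Pool.Agent.Lib.H88B

open Pool.Agent.Lib.H90Q

variable {G E : Type*} [Group G] [Group E]

/-- The matrix `F(e)⁻¹ R(g π(e)⁻¹) A(e)` and the matrix `B(e⁻¹)`, for `e` over `h`, `g h⁻¹ ∈ M`, up to a common scalar: for two elements `e, e'` with `π e = π e'` : `e' = e * κ`, `π κ = 1`, `A κ = a • 1`, `B κ = b • 1`, `F κ * b = a`. So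
`F(e')⁻¹ • (A e') ⊗ (B e'⁻¹) = F(e)⁻¹ • (A e) ⊗ (B e⁻¹)` (Kronecker product; `B κ⁻¹ = b⁻¹ • 1`). -/
theorem eta_indep {p : ℕ} {M S : Subgroup G} {n m : ℕ} {R : G → Matrix (Fin n) (Fin n) ℂ} {σ : G → Matrix (Fin m) (Fin m) ℂ} {π : E →* G}
    {A : E → Matrix (Fin n) (Fin n) ℂ} {B : E → Matrix (Fin m) (Fin m) ℂ} (hE : EData p M S R σ π A B) (hm : 0 < m) {F : E → ℂ} (hF1 : F 1 = 1) (hFm : ∀ e e', F (e * e') = F e * F e')
    (hFk : ∀ e, ∀ a b : ℂ, π e = 1 → A e = a • 1 → B e = b • 1 → F e * b = a) (X : Matrix (Fin n) (Fin n) ℂ) {e e' : E} (h : π e = π e') :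
    (F e)⁻¹ • Matrix.kroneckerMap (· * ·) (X * A e) (B e⁻¹).transpose = (F e')⁻¹ • Matrix.kroneckerMap (· * ·) (X * A e') (B e'⁻¹).transpose := by
  have hFne : ∀ e, F e ≠ 0 := fun e he => by
    have h1 := hFm e e⁻¹
    rw [mul_inv_cancel, hF1, he, zero_mul] at h1
    exact one_ne_zero h1
  obtain ⟨κ, hκ⟩ : ∃ κ, κ = e⁻¹ * e' := ⟨_, rfl⟩
  have he' : e' = e * κ := by rw [hκ, mul_inv_cancel_left]
  have hπκ : π κ = 1 := by rw [hκ, map_mul, map_inv, h, inv_mul_cancel]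
  obtain ⟨a, b, ha, hb, hA, hB⟩ := hE.ker κ hπκ
  have hFa := hFk κ a b hπκ hA hB
  have h1 : X * A e' = a • (X * A e) := by
    rw [he', hE.mulA, hA, Matrix.mul_smul, Matrix.mul_one, Matrix.mul_smul]
  have h2 : B e'⁻¹ = b⁻¹ • B e⁻¹ := by
    have h3 : B κ⁻¹ = b⁻¹ • 1 := by
      have h4 := hE.mulB κ⁻¹ κ
      rw [inv_mul_cancel, hE.one.2, hB, Matrix.mul_smul, Matrix.mul_one] at h4
      rw [h4, smul_smul, inv_mul_cancel₀ hb, one_smul]
    rw [he', mul_inv_rev, hE.mulB, h3, Matrix.smul_mul, Matrix.one_mul]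
  have h5 : F e' = F e * F κ := by rw [he', hFm]
  rw [h1, h2, h5, ← hFa]
  have hκ0 := hFne κ
  have he0 := hFne e
  ext ⟨i, k⟩ ⟨j, l⟩
  simp only [Matrix.smul_apply, Matrix.kroneckerMap_apply, Matrix.transpose_apply, smul_eq_mul]
  field_simp

variable [Fintype G] [Fintype E]

/-- The bridging character. For `(g, h) ∈ BG M S` choose `e` over `h` (`surj`) and put `η (g, h) = F(e)⁻¹ tr (R(g h⁻¹) A(e)) tr (B(e⁻¹))`, the trace of `F(e)⁻¹ • (R (g h⁻¹) A e) ⊗ (B e⁻¹)ᵀ` (`Matrix.trace_kronecker`), zero off `BG M S`. It does not depend on `e` (`eta_indep`), so these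
matrices are multiplicative on `BG M S` (for `e, e'` over `h, h'` take `e e'` over `h h'`; `R (g g' (h h')⁻¹) A(e e') = R (g h⁻¹) A(e) R (g' h'⁻¹) A(e')` as in `phi_mul`; `(B (e e')⁻¹)ᵀ = (B e'⁻¹ B e⁻¹)ᵀ = (B e⁻¹)ᵀ (B e'⁻¹)ᵀ`; `Matrix.mul_kronecker_mul`): a character
(`isChar_of_matrices`).
`res`: for `y ∈ M`, `c ∈ M ⊓ S` take `e` from `lift`: `F e = 1`, `η (y, c) = tr (R (y c⁻¹) R c) tr (σ(c)⁻¹) = Θ y * θs (c⁻¹) = Θ y * conj (θs c)`.
value: `e` over `u ∈ S`, `c ∈ M ⊓ S`, `e_c` from `lift`: `e_c e` lies over `c u`, `F (e_c e) = F e`; `η (z u, c u) = F(e)⁻¹ tr (R (z c⁻¹) R c A e) tr (B ((e_c e)⁻¹)) = F(e)⁻¹ tr (R z A e) conj (tr (B (e_c e))) = ε tr (B e) conj (tr (σ c B e))` (`char_inv` for the representation `B` of `E`,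
`isChar_of_matrices`; `F e ≠ 0`). -/
theorem exists_eta {p : ℕ} {M S : Subgroup G} [M.Normal] {n m : ℕ} (hn : 0 < n) (hm : 0 < m) {R : G → Matrix (Fin n) (Fin n) ℂ} {σ : G → Matrix (Fin m) (Fin m) ℂ} {Θ θs : G → ℂ}
    (hR : MRep M R) (hRt : ∀ g ∈ M, (R g).trace = Θ g) (hσ : MRep (M ⊓ S) σ) (hσt : ∀ g ∈ M ⊓ S, (σ g).trace = θs g) (hθs : θs ∈ IrrS (M ⊓ S))
    {π : E →* G} {A : E → Matrix (Fin n) (Fin n) ℂ} {B : E → Matrix (Fin m) (Fin m) ℂ} (hE : EData p M S R σ π A B) {ε : ℂ} {F : E → ℂ} (hF1 : F 1 = 1)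
    (hFm : ∀ e e', F (e * e') = F e * F e') (hFc : ∀ e, ∀ c ∈ M ⊓ S, π e = c → A e = R c → B e = σ c → F e = 1)
    (hFk : ∀ e, ∀ a b : ℂ, π e = 1 → A e = a • 1 → B e = b • 1 → F e * b = a) :
    ∃ η ∈ CharS (BG M S), (∀ g ∈ M, ∀ h ∈ M ⊓ S, η (g, h) = Θ g * conj (θs h)) ∧
      ∀ z ∈ M, ∀ e, (R z * A e).trace = ε * F e * (B e).trace → ∀ c ∈ M ⊓ S, η (z * π e, c * π e) = ε * ((B e).trace * conj ((σ c * B e).trace)) := by
  have hFne : ∀ e, F e ≠ 0 := fun e he => by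
    have h1 := hFm e e⁻¹
    rw [mul_inv_cancel, hF1, he, zero_mul] at h1
    exact one_ne_zero h1
  have hBinv : ∀ e, (B e⁻¹).trace = conj ((B e).trace) := fun e =>
    char_inv (isChar_of_matrices B hE.one.2 hE.mulB) e
  obtain ⟨s, hs⟩ : ∃ s : G → E, ∀ h ∈ S, π (s h) = h :=
    ⟨fun h => if hh : h ∈ S then Classical.choose (hE.surj h hh) else 1, fun h hh => by
      change π (if hh : h ∈ S then Classical.choose (hE.surj h hh) else 1) = h
      rw [dif_pos hh]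
      exact Classical.choose_spec (hE.surj h hh)⟩
  obtain ⟨Φ, hΦ⟩ : ∃ Φ : G × G → Matrix (Fin n × Fin m) (Fin n × Fin m) ℂ, ∀ q, Φ q =
      (F (s q.2))⁻¹ • Matrix.kroneckerMap (· * ·) (R (q.1 * q.2⁻¹) * A (s q.2)) (B (s q.2)⁻¹).transpose :=
    ⟨_, fun q => rfl⟩
  have hK : ∀ g h : G, h ∈ S → ∀ e, π e = h → Φ (g, h) =
      (F e)⁻¹ • Matrix.kroneckerMap (· * ·) (R (g * h⁻¹) * A e) (B e⁻¹).transpose := by
    intro g h hh e he
    rw [hΦ]
    exact eta_indep hE hm hF1 hFm hFk (R (g * h⁻¹)) (by rw [he]; exact hs h hh)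
  have hKt : ∀ g h : G, h ∈ S → ∀ e, π e = h → (Φ (g, h)).trace =
      (F e)⁻¹ * ((R (g * h⁻¹) * A e).trace * (B e⁻¹).trace) := by
    intro g h hh e he
    rw [hK g h hh e he, Matrix.trace_smul, smul_eq_mul]
    congr 1
    exact (Matrix.trace_kronecker _ _).trans (by rw [Matrix.trace_transpose])
  have hΦ1 : Φ (1, 1) = 1 := by
    rw [hK 1 1 S.one_mem 1 (map_one π), hF1, inv_one, one_smul, inv_one, mul_one, inv_one, hR.1, hE.one.1, hE.one.2,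
      Matrix.mul_one, Matrix.transpose_one]
    exact Matrix.one_kronecker_one
  have hΦm : ∀ g h g' h' : G, (g, h) ∈ BG M S → (g', h') ∈ BG M S → Φ (g * g', h * h') = Φ (g, h) * Φ (g', h') := by
    intro g h g' h' hq hq'
    obtain ⟨q1, q2⟩ := mem_BG.1 hq
    obtain ⟨q3, q4⟩ := mem_BG.1 hq'
    have e1 := hs h q1
    have e2 := hs h' q3
    rw [hK (g * g') (h * h') (S.mul_mem q1 q3) (s h * s h') (by rw [map_mul, e1, e2]), hK g h q1 (s h) e1,
      hK g' h' q3 (s h') e2]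
    have hn' : h * (g' * h'⁻¹) * h⁻¹ ∈ M := Subgroup.Normal.conj_mem inferInstance _ q4 h
    have hX : R (g * g' * (h * h')⁻¹) * A (s h * s h') = (R (g * h⁻¹) * A (s h)) * (R (g' * h'⁻¹) * A (s h')) := by
      have i1 := hE.intA (s h) _ q4
      rw [e1] at i1
      have i2 := hR.2 _ q2 _ hn'
      have i3 : g * h⁻¹ * (h * (g' * h'⁻¹) * h⁻¹) = g * g' * (h * h')⁻¹ := by group
      rw [i3] at i2
      rw [hE.mulA, i2]
      calc R (g * h⁻¹) * R (h * (g' * h'⁻¹) * h⁻¹) * (A (s h) * A (s h'))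
          = R (g * h⁻¹) * (R (h * (g' * h'⁻¹) * h⁻¹) * A (s h)) * A (s h') := by
            simp only [Matrix.mul_assoc]
        _ = R (g * h⁻¹) * (A (s h) * R (g' * h'⁻¹)) * A (s h') := by rw [i1]
        _ = _ := by simp only [Matrix.mul_assoc]
    have hY : (B (s h * s h')⁻¹).transpose = (B (s h)⁻¹).transpose * (B (s h')⁻¹).transpose := by
      rw [← Matrix.transpose_mul, ← hE.mulB, mul_inv_rev]
    rw [hX, hY, Matrix.smul_mul, Matrix.mul_smul, smul_smul, hFm, mul_inv]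
    congr 1
    exact Matrix.mul_kronecker_mul _ _ _ _
  refine ⟨fun q => if q ∈ BG M S then (Φ q).trace else 0, ⟨fun q hq => if_neg hq, ?_⟩, ?_, ?_⟩
  · have h := isChar_of_matrices (X := BG M S) (fun q => Φ q.1) hΦ1 (fun q q' => hΦm q.1.1 q.1.2 q'.1.1 q'.1.2 q.2 q'.2)
    have e : (fun q : BG M S => if (q : G × G) ∈ BG M S then (Φ q).trace else 0) = fun q : BG M S => (Φ q.1).trace := by
      funext q
      exact if_pos q.2
    change IsChar (fun q : BG M S => if (q : G × G) ∈ BG M S then (Φ q).trace else 0)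
    rw [e]
    exact h
  · intro g hg h hh
    have hhS : h ∈ S := hh.2
    have hhM : h ∈ M := hh.1
    have hq : (g, h) ∈ BG M S := mem_BG.2 ⟨hhS, M.mul_mem hg (M.inv_mem hhM)⟩
    obtain ⟨e, he, hA, hB⟩ := hE.lift h hh
    change (if (g, h) ∈ BG M S then (Φ (g, h)).trace else 0) = _
    rw [if_pos hq, hKt g h hhS e he, hFc e h hh he hA hB, inv_one, one_mul, hBinv, hA, hB,
      ← hR.2 _ (M.mul_mem hg (M.inv_mem hhM)) _ hhM, inv_mul_cancel_right, hRt g hg, hσt h hh]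
  · intro z hz e hv c hc
    have hcS : c ∈ S := hc.2
    have hcM : c ∈ M := hc.1
    have h1 : c * π e ∈ S := S.mul_mem hcS (hE.mem e)
    have e1 : z * π e * (c * π e)⁻¹ = z * c⁻¹ := by group
    have hzc : z * c⁻¹ ∈ M := M.mul_mem hz (M.inv_mem hcM)
    have hq : (z * π e, c * π e) ∈ BG M S := mem_BG.2 ⟨h1, by rw [e1]; exact hzc⟩
    obtain ⟨ec, hec, hA, hB⟩ := hE.lift c hc
    have hF := hFc ec c hc hec hA hB
    change (if (z * π e, c * π e) ∈ BG M S then (Φ (z * π e, c * π e)).trace else 0) = _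
    rw [if_pos hq, hKt _ _ h1 (ec * e) (by rw [map_mul, hec]), e1, hFm, hF, one_mul, hBinv, hE.mulA, hA, hE.mulB, hB,
      ← Matrix.mul_assoc, ← hR.2 _ hzc _ hcM, inv_mul_cancel_right, hv]
    have h0 := hFne e
    field_simp

end Pool.Agent.Lib.H88B
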