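import Pool.Agent.Lib.H88B.E2
import Pool.Agent.Lib.H88B.F3
import Pool.Agent.Lib.H88B.F4

/-!
H88B, F5: existence of the bridging character.
-/

open scoped Classical ComplexConjugate BigOperators

noncomputable section

namespace Pool.Agent.Lib.H88B

open Pool.Agent.Lib.H90Q

variable {G : Type*} [Group G] [Fintype G]

/-- `M = L ⊔ P`, `C = M ⊓ S = L ⊓ S = CM L P`. `exists_mrep` for `Θ ∈ Irr M` (`CanP`: `Can.irr`) and `θs ∈ Irr C` (`hGC.2.1`): `R`, `σ`, of degrees `n = Θ 1 = θ 1` (divides `|L|`, `irr_dvd`, so prime to `p`) and `m = θs 1` (divides `|C|`, which divides `|L|`). `exists_EData`, `exists_F`, `exists_eta`.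
For `x ∈ P` good and `u ∈ S` commuting with `x`: `e` over `u` (`surj`); `ψ` from `ext_cyclic` (`θs` is fixed by `u`); `ext_trace` with `B = B e` (`(B e) ^ N = B (e ^ N) = 1`, `intB`): `ψ (c u) = t tr (σ c * B e)`, `t * conj t = 1`; with `c = 1` : `ψ u = t tr (B e)`. So
`η (x u, c u) = ε tr (B e) conj (tr (σ c * B e)) = ε ψ u conj (ψ (c u))`. -/
theorem bridge_exists {p : ℕ} [Fact p.Prime] {L P S : Subgroup G} [(L ⊔ P).Normal] (hLn : ∀ g, Nz g L) (hPS : ∀ s ∈ S, Nz s P)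
    (hL : ¬ p ∣ Nat.card L) (hS : ¬ p ∣ Nat.card S) (hPp : ∀ z ∈ P, ∃ a : ℕ, z ^ (p ^ a) = 1) (hab : ∀ b ∈ P, ∀ c ∈ P, b * c = c * b)
    (hC : L ⊓ S = CM L (P : Set G)) (hMS : (L ⊔ P) ⊓ S = L ⊓ S) {θ θs Θ : G → ℂ} (hθ : θ ∈ IrrS L) (hinv : InvS P θ) (hGC : GC p L (P : Set G) θ θs)
    (hcan : CanP p L P θ Θ) (hgood : ∃ x ∈ P, Good p L P x) (hSΘ : ∀ s ∈ S, cj s Θ = Θ) (hSθ : ∀ s ∈ S, cj s θs = θs) :
    ∃ ε : ℂ, (ε = 1 ∨ ε = -1) ∧ ∃ η ∈ CharS (BG (L ⊔ P) S), (∀ g ∈ L ⊔ P, ∀ h ∈ (L ⊔ P) ⊓ S, η (g, h) = Θ g * conj (θs h)) ∧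
      ∀ x ∈ P, Good p L P x → ∀ u ∈ S, u * x = x * u → ∃ ψ ∈ IrrS (((L ⊔ P) ⊓ S) ⊔ Subgroup.zpowers u),
        (∀ c ∈ (L ⊔ P) ⊓ S, ψ c = θs c) ∧ ∀ c ∈ (L ⊔ P) ⊓ S, η (x * u, c * u) = ε * (ψ u * conj (ψ (c * u))) := by
  have hPM : P ≤ L ⊔ P := le_sup_right
  have hMSC : (L ⊔ P) ⊓ S = CM L (P : Set G) := hMS.trans hC
  have hΘ : Θ ∈ IrrS (L ⊔ P) := hcan.1.irr
  have hθs : θs ∈ IrrS ((L ⊔ P) ⊓ S) := by
    rw [hMSC]
    exact hGC.2.1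
  obtain ⟨n, R, hn, hΘ1, hR, hRt, hRA⟩ := exists_mrep hΘ
  obtain ⟨m, σ, hm, hθs1, hσ, hσt, hσA⟩ := exists_mrep hθs
  have hpn : ¬ p ∣ n := by
    obtain ⟨k, -, hk1, hk2⟩ := irr_dvd hθ.2
    have h1 : (n : ℂ) = k := by
      rw [← hΘ1, hcan.1.ext 1 L.one_mem]
      exact hk1
    have h2 : n = k := by exact_mod_cast h1
    intro h3
    exact hL ((h2 ▸ h3).trans hk2)
  have hpm : ¬ p ∣ m := by
    obtain ⟨k, -, hk1, hk2⟩ := irr_dvd hθs.2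
    have h1 : (m : ℂ) = k := by
      rw [← hθs1]
      exact hk1
    have h2 : m = k := by exact_mod_cast h1
    intro h3
    refine hL ((h2 ▸ h3).trans (hk2.trans ?_))
    rw [hMS]
    exact Subgroup.card_dvd_of_le inf_le_left
  obtain ⟨E, hEg, hEf, π, A, B, hE⟩ :=
    exists_EData (Fact.out : p.Prime) hS hn hm hpn hpm hR hRA hσ hσA hRt hσt hSΘ hSθ
  obtain ⟨ε, hε, F, hF1, hFm, hFx, hFc, hFk⟩ :=
    exists_F hLn hPS hL hS hPp hab hC hMS hθ hinv hGC hcan hgood hm hR hRt hσ hσt hE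
  obtain ⟨η, hη, hη1, hη2⟩ :=
    exists_eta hn hm hR hRt hσ hσt hθs hE (ε := ε) hF1 hFm hFc hFk
  refine ⟨ε, hε, η, hη, hη1, ?_⟩
  intro x hx hgx u hu hux
  obtain ⟨e, he⟩ := hE.surj u hu
  have h1 : (R x * A e).trace = ε * F e * (B e).trace := hFx x hx hgx e (by rw [he]; exact hux)
  have h2 := hη2 x (hPM hx) e h1
  have hMn : (L ⊔ P).Normal := inferInstance
  have hNz : Nz u ((L ⊔ P) ⊓ S) := by
    intro g
    constructor
    · intro hg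
      exact ⟨hMn.conj_mem g hg.1 u, S.mul_mem (S.mul_mem hu hg.2) (S.inv_mem hu)⟩
    · intro hg
      have e1 : u⁻¹ * (u * g * u⁻¹) * u⁻¹⁻¹ = g := by group
      have h3 := hMn.conj_mem _ hg.1 u⁻¹
      have h4 := S.mul_mem (S.mul_mem (S.inv_mem hu) hg.2) (S.inv_mem (S.inv_mem hu))
      rw [e1] at h3 h4
      exact ⟨h3, h4⟩
  obtain ⟨ψ, hψ, hψe⟩ := ext_cyclic hNz rfl hθs (hSθ u hu)
  obtain ⟨N, hpN, hexp⟩ := hE.exp
  have hN : 0 < N := by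
    rcases Nat.eq_zero_or_pos N with h | h
    · exact absurd (h ▸ dvd_zero p) hpN
    · exact h
  have hpow : ∀ k : ℕ, B (e ^ k) = B e ^ k := by
    intro k
    induction k with
    | zero => rw [pow_zero, pow_zero, hE.one.2]
    | succ k ih => rw [pow_succ, pow_succ, hE.mulB, ih]
  have hBN : B e ^ N = 1 := by rw [← hpow, hexp, hE.one.2]
  obtain ⟨t, ht, ht2⟩ := ext_trace hm hσ hσA hθs hσt hNz (B := B e) (fun c hc => by
    have h3 := hE.intB e c hc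
    rwa [he] at h3) hN hBN hψ hψe
  refine ⟨ψ, hψ, hψe, fun c hc => ?_⟩
  have h3 := h2 c hc
  rw [he] at h3
  have h4 : ψ u = t * (B e).trace := by
    have h5 := ht2 1 (Subgroup.one_mem _)
    rwa [one_mul, hσ.1, one_mul] at h5
  rw [h3, h4, ht2 c hc, map_mul]
  have h5 : t * (B e).trace * (conj t * conj (σ c * B e).trace) =
      (t * conj t) * ((B e).trace * conj (σ c * B e).trace) := by ring
  rw [h5, ht, one_mul]

end Pool.Agent.Lib.H88B
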