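import Pool.Agent.Lib.H88B.Defs
import Pool.Agent.Lib.H90Q.F4

/-!
# MP_a8e959_al, Theorem B: the set-up without the hypothesis on the automiser (ports of H90Q/GT5, GD, F4)
-/

open scoped Classical ComplexConjugate BigOperators

noncomputable section

namespace Pool.Agent.Lib.H88B

open Pool.Agent.Lib.H90Q

section Group

variable {G : Type*} [Group G]

/-- An element of a `p`-group which lies in a subgroup of order prime to `p` is trivial. -/
private lemma g1_one [Finite G] {p : ℕ} (hp : p.Prime) {P : Subgroup G} (hPp : IsPGroup p P) {K : Subgroup G}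
    (hK : ¬ p ∣ Nat.card K) {w : G} (hw : w ∈ P) (hwK : w ∈ K) : w = 1 := by
  obtain ⟨k, hk⟩ := hPp ⟨w, hw⟩
  have hk' : w ^ p ^ k = 1 := congrArg Subtype.val hk
  have h0 : orderOf w ∣ Nat.card K := by
    have h := orderOf_dvd_natCard (⟨w, hwK⟩ : K)
    rwa [Subgroup.orderOf_mk] at h
  have h1 : orderOf w ∣ Nat.gcd (p ^ k) (Nat.card K) := Nat.dvd_gcd (orderOf_dvd_of_pow_eq_one hk') h0
  have h2 : Nat.gcd (p ^ k) (Nat.card K) = 1 := Nat.Coprime.pow_left k ((Nat.Prime.coprime_iff_not_dvd hp).mpr hK)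
  rw [h2, Nat.dvd_one] at h1
  exact orderOf_eq_one_iff.mp h1

/-- The set-up exists for every picky element `x` of an abelian Sylow `p`-subgroup of a `p`-solvable group, if some picky power `z` of `x` has its `p`-th power in `O_p(G)`. -/
theorem gt5_setup2 [Finite G] {p : ℕ} (hp : p.Prime) (hs : PSolvable p G) (P : Sylow p G)
    (hP : ∀ a ∈ P, ∀ b ∈ P, a * b = b * a)
    {x : G} (hx : Picky p x) (hxP : x ∈ P) (hz : ∃ i : ℕ, Picky p (x ^ i) ∧ ∀ Q : Sylow p G, (x ^ i) ^ p ∈ Q) :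
    ∃ L H : Subgroup G, Setup2 p L (P : Subgroup G) H x := by
  have : Fact p.Prime := ⟨hp⟩
  obtain ⟨L, hLn, hLp, -, hPL, hcent⟩ := gt2_LP hp hs P hP
  set N : Subgroup G := Subgroup.normalizer ((P : Subgroup G) : Set G) with hNdef
  have hPN : (P : Subgroup G) ≤ N := Subgroup.le_normalizer
  -- the complement
  set P' : Subgroup N := (P : Subgroup G).subgroupOf N with hP'
  have hP'n : P'.Normal := ⟨fun a ha t => by
    rw [Subgroup.mem_subgroupOf] at ha ⊢
    exact (Subgroup.mem_normalizer_iff.mp t.2 (a : G)).mp ha⟩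
  have hco : Nat.Coprime (Nat.card P') P'.index := by
    have h := Sylow.card_coprime_index (P.subtype hPN)
    rwa [Sylow.coe_subtype] at h
  have hndvd : ¬ p ∣ P'.index := by
    have h := Sylow.not_dvd_index (P.subtype hPN)
    rwa [Sylow.coe_subtype] at h
  obtain ⟨H', hH'⟩ := Subgroup.exists_right_complement'_of_coprime hco
  have hH'c : ¬ p ∣ Nat.card H' := by
    rw [← hH'.symm.index_eq_card]; exact hndvd
  have hP'p : IsPGroup p P' := by
    have h := (P.subtype hPN).2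
    rwa [Sylow.coe_subtype] at h
  have hdec : ∀ g : N, ∃ u ∈ P', ∃ h ∈ H', u * h = g := by
    intro g
    obtain ⟨⟨u, h⟩, hu, -⟩ := hH'.existsUnique g
    exact ⟨u, u.2, h, h.2, hu⟩
  set H : Subgroup G := H'.map N.subtype with hH
  have hHN : H ≤ N := Subgroup.map_subtype_le H'
  have hHcard : Nat.card H = Nat.card H' := Subgroup.card_map_of_injective N.subtype_injective
  have hHp : ¬ p ∣ Nat.card H := by rw [hHcard]; exact hH'c
  have hN : ∀ g ∈ N, ∃ u ∈ (P : Subgroup G), ∃ h ∈ H, g = u * h := by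
    intro g hg
    obtain ⟨u, hu, h, hh, e⟩ := hdec ⟨g, hg⟩
    exact ⟨u, Subgroup.mem_subgroupOf.mp hu, h, Subgroup.mem_map_of_mem _ hh, (congrArg Subtype.val e).symm⟩
  -- elements of `L` normalising `P`
  have hLH : ∀ l ∈ L, l ∈ N → l ∈ H := by
    intro l hl hlN
    set M' : Subgroup N := L.subgroupOf N with hM'
    have hM'n : M'.Normal := by rw [hM']; exact Subgroup.normal_subgroupOf
    have hM'c : Nat.card M' ∣ Nat.card L := by
      have h1 : Nat.card M' = Nat.card (M'.map N.subtype) :=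
        (Subgroup.card_map_of_injective N.subtype_injective).symm
      rw [h1]
      refine Subgroup.card_dvd_of_le ?_
      rw [Subgroup.map_le_iff_le_comap]
      exact le_rfl
    have hc : ¬ p ∣ Nat.card (M' ⊔ H' : Subgroup N) := by
      have h1 : Nat.card M' * M'.relIndex (M' ⊔ H') = Nat.card (M' ⊔ H' : Subgroup N) := by
        have h := Subgroup.relIndex_mul_relIndex (⊥ : Subgroup N) M' (M' ⊔ H') bot_le le_sup_left
        rwa [Subgroup.relIndex_bot_left, Subgroup.relIndex_bot_left] at h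
      rw [← h1, Subgroup.relIndex_sup_left]
      intro h
      rcases (Nat.Prime.dvd_mul hp).mp h with h | h
      · exact hLp (h.trans hM'c)
      · exact hH'c (h.trans (Subgroup.relIndex_dvd_card _ _))
    obtain ⟨u, hu, h, hh, e⟩ := hdec ⟨l, hlN⟩
    have h1 : u ∈ M' ⊔ H' := by
      have h2 : u = ⟨l, hlN⟩ * h⁻¹ := by rw [← e, mul_inv_cancel_right]
      rw [h2]
      exact Subgroup.mul_mem _ (Subgroup.mem_sup_left (Subgroup.mem_subgroupOf.mpr hl))
        (Subgroup.mem_sup_right (H'.inv_mem hh))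
    have h2 : u = 1 := g1_one hp hP'p hc hu h1
    rw [h2, one_mul] at e
    have h3 : (h : G) = l := congrArg Subtype.val e
    rw [← h3]
    exact Subgroup.mem_map_of_mem _ hh
  have hPLone : ∀ w ∈ (P : Subgroup G), w ∈ L → w = 1 := fun w hw hwL => g1_one hp P.2 hLp hw hwL
  have hPHone : ∀ w ∈ (P : Subgroup G), w ∈ H → w = 1 := fun w hw hwH => g1_one hp P.2 hHp hw hwH
  have hLC : ∀ l ∈ L, l ∈ N → l ∈ Subgroup.centralizer ((P : Subgroup G) : Set G) := by
    intro l hl hlN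
    rw [Subgroup.mem_centralizer_iff]
    intro v hv
    have h1 : l * v * l⁻¹ * v⁻¹ ∈ (P : Subgroup G) :=
      Subgroup.mul_mem _ ((Subgroup.mem_normalizer_iff.mp hlN v).mp hv) (Subgroup.inv_mem _ hv)
    have h2 : l * v * l⁻¹ * v⁻¹ ∈ L := by
      have h3 : l * v * l⁻¹ * v⁻¹ = l * (v * l⁻¹ * v⁻¹) := by group
      rw [h3]
      exact L.mul_mem hl (hLn.conj_mem _ (L.inv_mem hl) v)
    have h3 := hPLone _ h1 h2
    have h4 : l * v = v * l := by
      calc l * v = (l * v * l⁻¹ * v⁻¹) * (v * l) := by group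
        _ = v * l := by rw [h3, one_mul]
    exact h4.symm
  have hcN : Subgroup.centralizer ((P : Subgroup G) : Set G) ≤ N := by
    intro c hc
    rw [hNdef, Subgroup.mem_normalizer_iff]
    intro v
    constructor
    · intro hv
      have h1 := Subgroup.mem_centralizer_iff.mp hc v hv
      rw [← h1, mul_inv_cancel_right]; exact hv
    · intro hv
      have h1 := Subgroup.mem_centralizer_iff.mp hc _ hv
      have h2 : c * v * c⁻¹ = v := by
        have h3 : c * v * c⁻¹ * c = c * (c * v * c⁻¹) := h1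
        have h4 : c * v = c * (c * v * c⁻¹) := by rwa [inv_mul_cancel_right] at h3
        exact (mul_left_cancel h4).symm
      rw [← h2]; exact hv
  have hC : L ⊓ H = L ⊓ Subgroup.centralizer ((P : Subgroup G) : Set G) := by
    apply le_antisymm
    · exact fun l hl => ⟨hl.1, hLC l hl.1 (hHN hl.2)⟩
    · exact fun l hl => ⟨hl.1, hLH l hl.1 (hcN hl.2)⟩
  have hxN : Subgroup.centralizer {x} ≤ N := gt3_centralizer hx P hxP
  obtain ⟨i, hzi, hzp⟩ := hz
  have hCz : ∀ y ∈ (P : Subgroup G), Subgroup.centralizer {y} ≤ N →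
      L ⊓ Subgroup.centralizer {y} = L ⊓ Subgroup.centralizer ((P : Subgroup G) : Set G) := by
    intro y hy hyN
    apply le_antisymm
    · exact fun l hl => ⟨hl.1, hLC l hl.1 (hyN hl.2)⟩
    · intro l hl
      refine ⟨hl.1, Subgroup.mem_centralizer_iff.mpr ?_⟩
      intro y' hy'
      rw [Set.mem_singleton_iff.mp hy']
      exact Subgroup.mem_centralizer_iff.mp hl.2 y hy
  have hziP : x ^ i ∈ (P : Subgroup G) := Subgroup.pow_mem _ hxP i
  have hziN : Subgroup.centralizer {x ^ i} ≤ N := gt3_centralizer hzi P hziP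
  -- the `p`-th power of `x ^ i` centralises `L`
  have hpow : ∀ l ∈ L, (x ^ i) ^ p * l = l * (x ^ i) ^ p := by
    intro l hl
    set w : G := (x ^ i) ^ p with hw
    have hwP : w ∈ (P : Subgroup G) := hzp P
    have h1 : l * w⁻¹ * l⁻¹ ∈ (P : Subgroup G) := by
      have h2 : w ∈ (l⁻¹ • P : Sylow p G) := hzp _
      have h3 : w⁻¹ ∈ (l⁻¹ • P : Sylow p G) := Subgroup.inv_mem _ h2
      have h4 : w⁻¹ ∈ (((l⁻¹ • P : Sylow p G) : Subgroup G)) := h3
      rw [Sylow.coe_subgroup_smul, Subgroup.mem_pointwise_smul_iff_inv_smul_mem] at h4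
      have h5 : (MulAut.conj (l⁻¹ : G))⁻¹ • w⁻¹ = l * w⁻¹ * l⁻¹ := by
        rw [← map_inv, inv_inv]
        rfl
      rwa [h5] at h4
    have h2 : w * l * w⁻¹ * l⁻¹ ∈ (P : Subgroup G) := by
      have e : w * l * w⁻¹ * l⁻¹ = w * (l * w⁻¹ * l⁻¹) := by group
      rw [e]
      exact Subgroup.mul_mem _ hwP h1
    have h3 : w * l * w⁻¹ * l⁻¹ ∈ L := L.mul_mem (hLn.conj_mem _ hl w) (L.inv_mem hl)
    have h4 := hPLone _ h2 h3
    calc w * l = (w * l * w⁻¹ * l⁻¹) * (l * w) := by group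
      _ = l * w := by rw [h4, one_mul]
  exact ⟨L, H, {
    hLn := hLn
    hLp := hLp
    hPp := P.2
    hPab := hP
    hPL := hPL
    hHN := hHN
    hHp := hHp
    hN := hN
    hG := by
      intro g
      have h1 : N ⊔ ((P : Subgroup G) ⊔ L) = ⊤ := Sylow.normalizer_sup_eq_top' P le_sup_left
      have h2 : L ⊔ N = ⊤ := by
        rw [← h1, ← sup_assoc, sup_eq_left.mpr hPN, sup_comm]
      have h3 : g ∈ ((L ⊔ N : Subgroup G) : Set G) := by rw [h2]; exact Set.mem_univ g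
      rw [Subgroup.normal_mul] at h3
      obtain ⟨l, hl, m, hm, e⟩ := Set.mem_mul.mp h3
      obtain ⟨u, hu, h, hh, e2⟩ := hN m hm
      exact ⟨l, hl, u, hu, h, hh, by rw [← e, e2, mul_assoc]⟩
    hC := hC
    hCx := hCz x hxP hxN
    hz := ⟨i, hCz _ hziP hziN, hpow⟩
    hxP := hxP
    hxN := hxN }⟩

/-- The group `G` itself. -/
theorem tri_top2 {p : ℕ} {L P H : Subgroup G} {x : G} (h : Setup2 p L P H x) : Tri p ⊤ L P H where
  hLK := le_top
  hPK := le_top
  hHK := le_top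
  hL := fun k _ g => by
    constructor
    · exact fun hg => h.hLn.conj_mem g hg k
    · intro hg
      have h1 := h.hLn.conj_mem _ hg k⁻¹
      have h2 : k⁻¹ * (k * g * k⁻¹) * k⁻¹⁻¹ = g := by group
      rwa [h2] at h1
  hPL := fun k _ g => by
    constructor
    · exact fun hg => h.hPL.conj_mem g hg k
    · intro hg
      have h1 := h.hPL.conj_mem _ hg k⁻¹
      have h2 : k⁻¹ * (k * g * k⁻¹) * k⁻¹⁻¹ = g := by group
      rwa [h2] at h1
  hLp := h.hLp
  hHp := h.hHp
  hPp := h.hPp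
  hPab := h.hPab
  hHP := fun a ha g => Subgroup.mem_normalizer_iff.mp (h.hHN ha) g
  hK := fun k _ => h.hG k
  hC := fun l hl => by
    constructor
    · intro hlH u hu
      have h1 : l ∈ L ⊓ Subgroup.centralizer (P : Set G) := h.hC ▸ (⟨hl, hlH⟩ : l ∈ L ⊓ H)
      exact (Subgroup.mem_centralizer_iff.mp h1.2 u hu).symm
    · intro hc
      have h1 : l ∈ L ⊓ H := by
        rw [h.hC]
        exact ⟨hl, Subgroup.mem_centralizer_iff.mpr fun u hu => (hc u hu).symm⟩
      exact h1.2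

/-- The normaliser of `P`, with `L ∩ H` in the role of `L`. -/
theorem tri_norm2 {p : ℕ} {L P H : Subgroup G} {x : G} (h : Setup2 p L P H x) :
    Tri p (Subgroup.normalizer (P : Set G)) (L ⊓ H) P H where
  hLK := inf_le_right.trans h.hHN
  hPK := Subgroup.le_normalizer
  hHK := h.hHN
  hL := by
    have key : ∀ k ∈ Subgroup.normalizer (P : Set G), ∀ g ∈ L ⊓ H, k * g * k⁻¹ ∈ L ⊓ H := by
      intro k hk g hg
      rw [h.hC] at hg ⊢
      refine ⟨h.hLn.conj_mem g hg.1 k, Subgroup.mem_centralizer_iff.mpr fun u hu => ?_⟩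
      have h1 : k⁻¹ * u * k ∈ P := by
        have h2 := (Subgroup.mem_normalizer_iff.mp (Subgroup.inv_mem _ hk) u).mp hu
        rwa [inv_inv] at h2
      have h2 := Subgroup.mem_centralizer_iff.mp hg.2 _ h1
      calc u * (k * g * k⁻¹) = k * ((k⁻¹ * u * k) * g) * k⁻¹ := by group
        _ = k * (g * (k⁻¹ * u * k)) * k⁻¹ := by rw [h2]
        _ = k * g * k⁻¹ * u := by group
    intro k hk g
    constructor
    · exact key k hk g
    · intro hg
      have h1 := key k⁻¹ (Subgroup.inv_mem _ hk) _ hg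
      have h2 : k⁻¹ * (k * g * k⁻¹) * k⁻¹⁻¹ = g := by group
      rwa [h2] at h1
  hPL := by
    have key : ∀ k ∈ Subgroup.normalizer (P : Set G), ∀ g ∈ P ⊔ (L ⊓ H), k * g * k⁻¹ ∈ P ⊔ (L ⊓ H) := by
      intro k hk g hg
      have h1 : P ⊔ (L ⊓ H) ≤ (P ⊔ (L ⊓ H)).comap (MulAut.conj k).toMonoidHom := by
        refine sup_le ?_ ?_
        · intro u hu
          exact Subgroup.mem_sup_left ((Subgroup.mem_normalizer_iff.mp hk u).mp hu)
        · intro g hg
          refine Subgroup.mem_sup_right ?_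
          change k * g * k⁻¹ ∈ L ⊓ H
          rw [h.hC] at hg ⊢
          refine ⟨h.hLn.conj_mem g hg.1 k, Subgroup.mem_centralizer_iff.mpr fun u hu => ?_⟩
          have h1 : k⁻¹ * u * k ∈ P := by
            have h2 := (Subgroup.mem_normalizer_iff.mp (Subgroup.inv_mem _ hk) u).mp hu
            rwa [inv_inv] at h2
          have h2 := Subgroup.mem_centralizer_iff.mp hg.2 _ h1
          calc u * (k * g * k⁻¹) = k * ((k⁻¹ * u * k) * g) * k⁻¹ := by group
            _ = k * (g * (k⁻¹ * u * k)) * k⁻¹ := by rw [h2]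
            _ = k * g * k⁻¹ * u := by group
      exact h1 hg
    intro k hk g
    constructor
    · exact key k hk g
    · intro hg
      have h1 := key k⁻¹ (Subgroup.inv_mem _ hk) _ hg
      have h2 : k⁻¹ * (k * g * k⁻¹) * k⁻¹⁻¹ = g := by group
      rwa [h2] at h1
  hLp := fun hd => h.hLp (hd.trans (Subgroup.card_dvd_of_le inf_le_left))
  hHp := h.hHp
  hPp := h.hPp
  hPab := h.hPab
  hHP := fun a ha g => Subgroup.mem_normalizer_iff.mp (h.hHN ha) g
  hK := fun k hk => by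
    obtain ⟨u, hu, a, ha, e⟩ := h.hN k hk
    exact ⟨1, Subgroup.one_mem _, u, hu, a, ha, by rw [one_mul, e]⟩
  hC := fun l hl => by
    constructor
    · intro _ u hu
      have h1 : l ∈ L ⊓ Subgroup.centralizer (P : Set G) := h.hC ▸ hl
      exact (Subgroup.mem_centralizer_iff.mp h1.2 u hu).symm
    · intro _
      exact hl.2

end Group

section Fin

variable {G : Type*} [Group G] [Fintype G]

/-- `C_L(P) = L ∩ H`. -/
theorem F4_C2 {p : ℕ} {L P H : Subgroup G} {x : G} (hs : Setup2 p L P H x) : CM L (P : Set G) = L ⊓ H := hs.hC.symm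

/-- `C_L(x) = L ∩ H`. -/
theorem F4_Cx2 {p : ℕ} {L P H : Subgroup G} {x : G} (hs : Setup2 p L P H x) : CM L {x} = L ⊓ H := by
  rw [hs.hC, ← hs.hCx]
  rfl

/-- Everything normalises `L`. -/
theorem F4_nzL2 {p : ℕ} {L P H : Subgroup G} {x : G} (hs : Setup2 p L P H x) (g : G) : Nz g L := by
  intro y
  constructor
  · intro hy
    exact hs.hLn.conj_mem y hy g
  · intro hy
    have := hs.hLn.conj_mem _ hy g⁻¹
    simpa [mul_assoc] using this

/-- `H` normalises `P`. -/
theorem F4_nzP2 {p : ℕ} {L P H : Subgroup G} {x : G} (hs : Setup2 p L P H x) {h : G} (hh : h ∈ H) : Nz h P := by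
  intro y
  exact Subgroup.mem_normalizer_iff.1 (hs.hHN hh) y

/-- `H` normalises `L ∩ H`. -/
theorem F4_nzC2 {p : ℕ} {L P H : Subgroup G} {x : G} (hs : Setup2 p L P H x) {h : G} (hh : h ∈ H) : Nz h (L ⊓ H) := by
  intro y
  rw [Subgroup.mem_inf, Subgroup.mem_inf]
  exact and_congr (F4_nzL2 hs h y) (nz_mem hh y)

/-- The conjugates of `x` under `H`: they lie in `P`, have `p`-power order, and the same centraliser in `L`. -/
theorem F4_z2 {p : ℕ} [Fact p.Prime] {L P H : Subgroup G} {x : G} (hs : Setup2 p L P H x) {h : G} (hh : h ∈ H) :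
    h * x * h⁻¹ ∈ P ∧ (∃ a : ℕ, orderOf (h * x * h⁻¹) = p ^ a) ∧ CM L {h * x * h⁻¹} = L ⊓ H := by
  have h1 : h * x * h⁻¹ ∈ P := (F4_nzP2 hs hh x).1 hs.hxP
  refine ⟨h1, ?_, ?_⟩
  · obtain ⟨k, hk⟩ := hs.hPp ⟨_, h1⟩
    have hk' : (h * x * h⁻¹) ^ p ^ k = 1 := congrArg Subtype.val hk
    obtain ⟨a, _, ha⟩ := (Nat.dvd_prime_pow (Fact.out : p.Prime)).1 (orderOf_dvd_of_pow_eq_one hk')
    exact ⟨a, ha⟩
  · apply le_antisymm
    · intro y hy
      rw [F4_mem_CM] at hy
      have h2 : h⁻¹ * y * h ∈ L ⊓ H := by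
        rw [← F4_Cx2 hs, F4_mem_CM]
        refine ⟨?_, ?_⟩
        · have := (F4_nzL2 hs h⁻¹ y).1 hy.1
          simpa using this
        · have h3 := hy.2
          calc h⁻¹ * y * h * x = h⁻¹ * (y * (h * x * h⁻¹)) * h := by group
            _ = h⁻¹ * ((h * x * h⁻¹) * y) * h := by rw [h3]
            _ = x * (h⁻¹ * y * h) := by group
      have h3 := (F4_nzC2 hs hh _).1 h2
      have e : h * (h⁻¹ * y * h) * h⁻¹ = y := by group
      rwa [e] at h3
    · intro y hy
      rw [F4_mem_CM]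
      rw [← F4_C2 hs, F4_mem_CMP] at hy
      exact ⟨hy.1, (hy.2 _ h1).symm⟩

/-- `L ∩ H ≤ C_S(x)`. -/
theorem F4_CD2 {p : ℕ} {L P H S : Subgroup G} {x : G} (hs : Setup2 p L P H x) (hCS : L ⊓ H ≤ S) : L ⊓ H ≤ CM S {x} := by
  intro y hy
  have h1 := hy
  rw [← F4_Cx2 hs, F4_mem_CM] at h1
  exact F4_mem_CM.2 ⟨hCS hy, h1.2⟩

/-- elements of `L ⊔ S` -/
theorem F4_mem2 {p : ℕ} {L P H S : Subgroup G} {x : G} (hs : Setup2 p L P H x) {g : G} : g ∈ L ⊔ S ↔ ∃ l ∈ L, ∃ s ∈ S, g = l * s := by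
  haveI := hs.hLn
  rw [← SetLike.mem_coe, Subgroup.normal_mul, Set.mem_mul]
  constructor
  · rintro ⟨l, hl, s, hs', rfl⟩
    exact ⟨l, hl, s, hs', rfl⟩
  · rintro ⟨l, hl, s, hs', rfl⟩
    exact ⟨l, hl, s, hs', rfl⟩

/-- `L ⊔ S` is a `p'`-group for `S ≤ H` -/
theorem F4_card2 {p : ℕ} [Fact p.Prime] {L P H S : Subgroup G} {x : G} (hs : Setup2 p L P H x) (hSH : S ≤ H) :
    ¬ p ∣ Nat.card (L ⊔ S : Subgroup G) := by
  haveI := hs.hLn
  have hp : p.Prime := Fact.out
  have h1 : Nat.card (L ⊔ S : Subgroup G) = Nat.card L * L.relIndex S := by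
    rw [← A15_relIndex (le_sup_left : L ≤ L ⊔ S), Subgroup.relIndex_sup_left]
  rw [h1]
  intro h
  rcases (Nat.Prime.dvd_mul hp).1 h with h2 | h2
  · exact hs.hLp h2
  · exact hs.hHp (h2.trans ((Subgroup.relIndex_dvd_card L S).trans (Subgroup.card_dvd_of_le hSH)))

/-- The group `T = L P S`: `L P` is normalised by `T` and `T = (L P) (L S)`, `L P ∩ L S = L`.
Proof of the last: `u = l s` with `u ∈ P`, so `s = l⁻¹ u ∈ H`; `|L S|` is prime to `p` (`F4_card2`) and `u ∈ L S` is a `p`-element, so `u = 1`. -/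
theorem F4_T2 {p : ℕ} [Fact p.Prime] {L P H S : Subgroup G} {x : G} (hs : Setup2 p L P H x) (hSH : S ≤ H) :
    (∀ g : G, Nz g (L ⊔ P)) ∧ (∀ t ∈ L ⊔ P ⊔ S, ∃ m ∈ L ⊔ P, ∃ u ∈ L ⊔ S, t = m * u) ∧ (L ⊔ P) ⊓ (L ⊔ S) = L := by
  have hn : (L ⊔ P).Normal := by
    rw [sup_comm]
    exact hs.hPL
  refine ⟨?_, ?_, ?_⟩
  · intro g y
    constructor
    · intro hy
      exact hn.conj_mem y hy g
    · intro hy
      have := hn.conj_mem _ hy g⁻¹
      simpa [mul_assoc] using this
  · intro t ht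
    haveI := hn
    rw [← SetLike.mem_coe, Subgroup.normal_mul, Set.mem_mul] at ht
    obtain ⟨m, hm, s, hs', rfl⟩ := ht
    exact ⟨m, hm, s, (le_sup_right : S ≤ L ⊔ S) hs', rfl⟩
  · apply le_antisymm
    · intro y hy
      obtain ⟨h1, h2⟩ := Subgroup.mem_inf.1 hy
      obtain ⟨l, hl, u, hu, rfl⟩ := (F4_mem2 hs).1 h1
      have h3 : u ∈ L ⊔ S := by
        have := Subgroup.mul_mem _ (Subgroup.inv_mem _ ((le_sup_left : L ≤ L ⊔ S) hl)) h2
        simpa using this
      have hp : p.Prime := Fact.out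
      obtain ⟨k, hk⟩ := hs.hPp ⟨u, hu⟩
      have hk' : u ^ p ^ k = 1 := congrArg Subtype.val hk
      have h0 : orderOf u ∣ Nat.card (L ⊔ S : Subgroup G) := by
        have h := orderOf_dvd_natCard (⟨u, h3⟩ : (L ⊔ S : Subgroup G))
        rwa [Subgroup.orderOf_mk] at h
      have h4 : orderOf u ∣ Nat.gcd (p ^ k) (Nat.card (L ⊔ S : Subgroup G)) := Nat.dvd_gcd (orderOf_dvd_of_pow_eq_one hk') h0
      have h5 : Nat.gcd (p ^ k) (Nat.card (L ⊔ S : Subgroup G)) = 1 :=
        Nat.Coprime.pow_left k ((Nat.Prime.coprime_iff_not_dvd hp).mpr (F4_card2 hs hSH))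
      rw [h5, Nat.dvd_one] at h4
      rw [orderOf_eq_one_iff.mp h4, mul_one]
      exact hl
    · exact le_inf le_sup_left le_sup_left

end Fin

end Pool.Agent.Lib.H88B
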