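import Pool.Agent.Lib.H88B.G1
import Pool.Agent.Lib.H90Q.K12

/-!
# MP_a8e959_al, Theorem B: one block (port of H90Q/K12)
-/

open scoped Classical ComplexConjugate BigOperators

noncomputable section

namespace Pool.Agent.Lib.H88B

open Pool.Agent.Lib.H90Q

variable {G : Type*} [Group G] [Fintype G]

/-- Composition of a bijection with the inverse of another one, with a relation. -/
private lemma g2_bij {α β γ : Type*} [Nonempty α] {e1 : α → β} {e2 : α → γ} {A : Set α} {B : Set β} {C : Set γ} {R : β → γ → Prop}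
    (h1 : Set.BijOn e1 A B) (h2 : Set.BijOn e2 A C) (hR : ∀ a ∈ A, R (e1 a) (e2 a)) :
    ∃ f : β → γ, Set.BijOn f B C ∧ ∀ b ∈ B, R b (f b) := by
  refine ⟨e2 ∘ Function.invFunOn e1 A, h2.comp (h1.symm h1.invOn_invFunOn.symm), fun b hb => ?_⟩
  have h3 : Function.invFunOn e1 A b ∈ A := Function.invFunOn_mem (h1.surjOn hb)
  have h4 : e1 (Function.invFunOn e1 A b) = b := Function.invFunOn_eq (h1.surjOn hb)
  have h5 := hR _ h3
  rw [h4] at h5
  exact h5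

/-- One block. `S = stPair H θ ll` (a subgroup, containing `C = L ⊓ H`); `S = stPair H θs ll` as well (`gc_inv_iff`). `tri_top2`, `tri_norm2`: `blk_bij` for `(⊤, L, θh)` and for `(N, C, tens P C 1 θs)` (`canExt_triv`). The core gives
`F`, `infl_bij` gives `β ↦ tens P S 1 β` (note `P ⊔ (L ⊓ H) ⊔ S = P ⊔ S`). The composed bijection: `ind (prl * α) ↦ ind (prl * infl (F α))`. Values: `blk_value` for both; for `y ∈ H` commuting with `x` and `b ∈ H` with `b y b⁻¹ ∈ S`: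
`b y b⁻¹` commutes with `b x b⁻¹`, so `α (b x b⁻¹ * (b y b⁻¹)) = ε F α (b y b⁻¹)` and `infl (F α) (b x b⁻¹ * (b y b⁻¹)) = F α (b y b⁻¹)`. Degrees: `blk_degree`, `F α 1` is `α x` up to sign and the
degree of a character of `S`, which divides `|S|` (`irr_dvd`). -/
theorem block_bij2 {p : ℕ} (hp : p.Prime) {L P H : Subgroup G} {x : G} (h : Setup2 p L P H x) (hgc : GCBij p L P)
    (hcore : CoreStmt2 p L P H x) {θ θs θh ll : G → ℂ} (hθ : θ ∈ IrrS L) (hinv : ∀ u ∈ P, cj u θ = θ) (hGC : GC p L (P : Set G) θ θs)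
    (hθh : CanExt p P L θ θh) (hl : ll ∈ LinS P ⊥) :
    ∃ f : (G → ℂ) → (G → ℂ),
      Set.BijOn f (Blk ⊤ P L θh ll) (Blk (Subgroup.normalizer (P : Set G)) P (L ⊓ H) (tens P (L ⊓ H) (fun _ => 1) θs) ll) ∧
      ∀ χ ∈ Blk ⊤ P L θh ll, Rel p H x χ (f χ) := by
  have T1 := tri_top2 h
  have T2 := tri_norm2 h
  have hC : CM L (P : Set G) = L ⊓ H := h.hC.symm
  have hθs : θs ∈ IrrS (L ⊓ H) := hC ▸ hGC.2.1
  have hnL : ∀ b : G, Nz b L := fun b => T1.hL b (Subgroup.mem_top b)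
  have hnP : ∀ b ∈ H, Nz b P := T1.hHP
  have hcomm : ∀ c ∈ L ⊓ H, ∀ u ∈ P, c * u = u * c := fun c hc => (T1.hC c hc.1).mp hc.2
  -- the stabiliser
  set S : Subgroup G := stS H θ ⊓ stS H ll with hSdef
  have hS1 : (S : Set G) = stPair H θ ll := by
    ext b
    constructor
    · rintro ⟨⟨h1, h2⟩, -, h3⟩
      exact ⟨h1, h2, h3⟩
    · rintro ⟨h1, h2, h3⟩
      exact ⟨⟨h1, h2⟩, h1, h3⟩
  have hS2 : (S : Set G) = stPair H θs ll := by
    rw [hS1]
    ext b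
    constructor
    · rintro ⟨h1, h2, h3⟩
      exact ⟨h1, (gc_inv_iff hgc (hnL b) (hnP b h1) hinv hGC).mp h2, h3⟩
    · rintro ⟨h1, h2, h3⟩
      exact ⟨h1, (gc_inv_iff hgc (hnL b) (hnP b h1) hinv hGC).mpr h2, h3⟩
  have hSH : S ≤ H := fun b hb => hb.1.1
  have hSθ : ∀ s ∈ S, cj s θ = θ := fun s hs => hs.1.2
  have hSl : ∀ s ∈ S, cj s ll = ll := fun s hs => hs.2.2
  have hCS : L ⊓ H ≤ S := by
    intro c hc
    refine ⟨⟨hc.2, cj_mem hc.1 (cf_charS (charS_of_irrS hθ))⟩, hc.2, ?_⟩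
    funext g
    change ll (c⁻¹ * g * c) = ll g
    by_cases hg : g ∈ P
    · have e : c⁻¹ * g * c = g := by rw [mul_assoc, ← hcomm c hc g hg, inv_mul_cancel_left]
      rw [e]
    · have hg' : c⁻¹ * g * c ∉ P := by
        intro h1
        have h2 := (hnP c hc.2 _).mp h1
        have e : c * (c⁻¹ * g * c) * c⁻¹ = g := by group
        rw [e] at h2
        exact hg h2
      rw [hl.1 _ hg, hl.1 _ hg']
  have hCS' : (L ⊓ H) ⊓ H ≤ S := inf_le_left.trans hCS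
  have hSp : ¬ p ∣ Nat.card S := fun hd => h.hHp (hd.trans (Subgroup.card_dvd_of_le hSH))
  have hPS : ∀ u ∈ P, u ∈ S → u = 1 := fun u hu hus => tri_PLS hp T2 hSH u hu (Subgroup.mem_sup_right hus)
  have hPC : ∀ u ∈ P, u ∈ L ⊓ H → u = 1 := fun u hu huc => hPS u hu (hCS huc)
  have hPCS : P ⊔ (L ⊓ H) ⊔ S = P ⊔ S := by rw [sup_assoc, sup_eq_right.mpr hCS]
  have hcan := canExt_triv p hcomm hPC hθs
  obtain ⟨ε, hε, F, hF, hFv⟩ := hcore S hSH hCS θ θs θh hθ hinv hGC hθh hSθ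
  have b1 := blk_bij hp T1 hl hθ hθh hS1 hCS
  have b2 := blk_bij hp T2 hl hθs hcan hS2 hCS'
  have b3 := infl_bij (P := P) (S := S) (C := L ⊓ H) (fun s hs => hnP s (hSH hs)) hPS hCS
    (fun s hs => T2.hL s (h.hHN (hSH hs))) hcomm hθs
  rw [hPCS] at b2
  have b4 := b2.comp (b3.comp hF)
  refine g2_bij b1 b4 ?_
  rintro α ⟨hα, hαo⟩
  obtain ⟨⟨n, hn, hnp⟩, hval⟩ := hFv α hα hαo
  have hFα := hF.mapsTo ⟨hα, hαo⟩
  have hβ := b3.mapsTo hFα
  have hαcf := cf_charS (charS_of_irrS hα)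
  have hβcf : IsCF (P ⊔ (L ⊓ H) ⊔ S) (tens P S (fun _ => 1) (F α)) := by
    rw [hPCS]
    exact cf_charS (charS_of_irrS hβ.1)
  have hd1 := blk_degree hp T1 hSH hCS hl hSl hαcf hn hnp
  obtain ⟨m, -, hm, hmd⟩ := irr_dvd hFα.1.2
  have hmp : ¬ p ∣ m := fun hd => hSp (hd.trans hmd)
  have hm' : tens P S (fun _ => 1) (F α) 1 = m := by
    have e := tens_apply hPS (fun _ => 1) (F α) P.one_mem S.one_mem
    rw [mul_one, one_mul] at e
    rw [e]
    exact hm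
  have hd2 := blk_degree hp T2 hSH hCS' hl hSl hβcf hm' hmp
  rw [hPCS] at hd2
  refine ⟨?_, ε, hε, ?_⟩
  · obtain ⟨m1, e1, n1⟩ := hd1
    obtain ⟨m2, e2, n2⟩ := hd2
    exact ⟨m1, m2, e1, e2, n1, n2⟩
  · intro y hy hyx
    have v1 := blk_value hp T1 hSH hCS hl hSl hαcf h.hxP hy
    have v2 := blk_value hp T2 hSH hCS' hl hSl hβcf h.hxP hy
    rw [hPCS] at v2
    change ind (P ⊔ L ⊔ S) ⊤ (prl P (L ⊔ S) ll * α) (x * y) =
      ε * ind (P ⊔ S) (Subgroup.normalizer (P : Set G)) (prl P (L ⊓ H ⊔ S) ll * tens P S (fun _ => 1) (F α)) (x * y)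
    have key : (∑ b : G, if b ∈ H ∧ b * y * b⁻¹ ∈ S then ll (b * x * b⁻¹) * α (b * x * b⁻¹ * (b * y * b⁻¹)) else 0) =
        ε * ∑ b : G, if b ∈ H ∧ b * y * b⁻¹ ∈ S then
          ll (b * x * b⁻¹) * tens P S (fun _ => 1) (F α) (b * x * b⁻¹ * (b * y * b⁻¹)) else 0 := by
     rw [Finset.mul_sum]
     refine Finset.sum_congr rfl fun b _ => ?_
     by_cases hb : b ∈ H ∧ b * y * b⁻¹ ∈ S
     · rw [if_pos hb, if_pos hb]
       have hux : (b * y * b⁻¹) * (b * x * b⁻¹) = (b * x * b⁻¹) * (b * y * b⁻¹) := by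
         calc (b * y * b⁻¹) * (b * x * b⁻¹) = b * (y * x) * b⁻¹ := by group
           _ = b * (x * y) * b⁻¹ := by rw [hyx]
           _ = (b * x * b⁻¹) * (b * y * b⁻¹) := by group
       rw [hval b hb.1 _ hb.2 hux, tens_apply hPS _ _ ((hnP b hb.1 x).mp h.hxP) hb.2]
       ring
     · rw [if_neg hb, if_neg hb, mul_zero]
    rw [v1, v2, key]
    ring

end Pool.Agent.Lib.H88B
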