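import Pool.Agent.Lib.H88B.G3
import Pool.Agent.Lib.H90Q.K14

/-!
# MP_a8e959_al, Theorem B: the theorem, given the canonical extension and the core (port of H90Q/K14)
-/

open scoped Classical ComplexConjugate BigOperators

noncomputable section

namespace Pool.Agent.Lib.H88B

open Pool.Agent.Lib.H90Q

variable {G : Type*} [Group G] [Fintype G]

/-- The theorem, given the canonical extension and the core. `gt5_setup2`; `main_ambient2`; `gt3_subG`: `SubG x = N_G(P)`. For `g = x y ∈ S`, `y` commuting with `x` and of order prime to `p`: `y ∈ N_G(P)` (`hxN`), `y = u k` with `u ∈ P`, `k ∈ H` (`hN`), `k` commutes with `x`,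
and by `gt4_conj` there is `v ∈ P` with `v⁻¹ y v = k`, so `v⁻¹ (x y) v = x k`: the values of class functions of `G` and of `N_G(P)` at `x y` and `x k` agree. A character `χ` of `G` with `χ (x y) ≠ 0` lies over an `x`-invariant `θ` (`nonvanish_over`),
which is `P`-invariant (`inv_of_single`, `hCx`). So `f` restricts to a bijection between the characters not vanishing somewhere on `S`. Third clause: `bijOn_of_sign`. -/
theorem q1_of_core2 {p : ℕ} (hp : p.Prime) (hs : PSolvable p G) (P : Sylow p G) (hP : ∀ a ∈ P, ∀ b ∈ P, a * b = b * a)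
    {x : G} (hx : Picky p x) (hxP : x ∈ P) (hz : ∃ i : ℕ, Picky p (x ^ i) ∧ ∀ Q : Sylow p G, (x ^ i) ^ p ∈ Q)
    {S : Set G} (hS : S ⊆ SecSet p x)
    (hcan : ∀ L H : Subgroup G, Setup2 p L (P : Subgroup G) H x → ∀ θ ∈ IrrS L, (∀ u ∈ (P : Subgroup G), cj u θ = θ) → ∃ θh, CanExt p (P : Subgroup G) L θ θh)
    (hcore : ∀ L H : Subgroup G, Setup2 p L (P : Subgroup G) H x → CoreStmt2 p L (P : Subgroup G) H x) : Q1Sharp p x S := by
  have : Fact p.Prime := ⟨hp⟩
  obtain ⟨L, H, h⟩ := gt5_setup2 hp hs P hP hx hxP hz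
  have hLnz : ∀ g, Nz g L := by
    intro g l
    constructor
    · exact fun hl => h.hLn.conj_mem l hl g
    · intro hl
      have h1 := h.hLn.conj_mem _ hl g⁻¹
      have h2 : g⁻¹ * (g * l * g⁻¹) * g⁻¹⁻¹ = l := by group
      rwa [h2] at h1
  have hpow : ∀ z ∈ (P : Subgroup G), ∃ a : ℕ, z ^ (p ^ a) = 1 := by
    intro z hz
    obtain ⟨a, ha⟩ := h.hPp ⟨z, hz⟩
    exact ⟨a, congrArg Subtype.val ha⟩
  have hgc : GCBij p L (P : Subgroup G) := gcBij h.hLp (fun b _ => hLnz b) hpow h.hPab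
  obtain ⟨f, hf, hrel⟩ := main_ambient2 hp h hgc (hcan L H h) (hcore L H h)
  have hSub : SubG x = Subgroup.normalizer ((P : Subgroup G) : Set G) := gt3_subG hp hx P hxP hP
  have hPN : (P : Subgroup G) ≤ Subgroup.normalizer ((P : Subgroup G) : Set G) :=
    Subgroup.le_normalizer
  obtain ⟨a₀, ha₀⟩ := hpow x hxP
  -- elements of `S` are conjugate under `P` to elements `x k`
  have key : ∀ g ∈ S, ∃ k ∈ H, k * x = x * k ∧ ∃ v ∈ (P : Subgroup G), v⁻¹ * g * v = x * k := by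
    intro g hg
    obtain ⟨y, hy, hyp, e⟩ := hS hg
    have hyN : y ∈ Subgroup.normalizer ((P : Subgroup G) : Set G) := by
      refine h.hxN (Subgroup.mem_centralizer_iff.mpr ?_)
      intro z hz
      rw [Set.mem_singleton_iff.mp hz]
      exact hy.symm
    obtain ⟨u, hu, k, hk, e2⟩ := h.hN y hyN
    have hux : u * x = x * u := h.hPab u hu x hxP
    have hkx : k * x = x * k := by
      have h1 : k = u⁻¹ * y := by rw [e2, inv_mul_cancel_left]
      have h2 : u⁻¹ * x = x * u⁻¹ := h.hPab _ (Subgroup.inv_mem _ hu) x hxP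
      calc k * x = u⁻¹ * (y * x) := by rw [h1, mul_assoc]
        _ = u⁻¹ * x * y := by rw [hy, mul_assoc]
        _ = x * (u⁻¹ * y) := by rw [h2, mul_assoc]
        _ = x * k := by rw [← h1]
    have hkp : ¬ p ∣ orderOf k := by
      intro hd
      apply h.hHp
      have h1 := orderOf_dvd_natCard (⟨k, hk⟩ : H)
      rw [Subgroup.orderOf_mk] at h1
      exact hd.trans h1
    have hukp : ¬ p ∣ orderOf (u * k) := by
      rw [← e2]
      intro hd
      have h1 : p ∣ Nat.gcd (orderOf y) p := Nat.dvd_gcd hd dvd_rfl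
      rw [hyp.gcd_eq_one] at h1
      exact hp.one_lt.ne' (Nat.dvd_one.mp h1)
    obtain ⟨v, hv, hv2⟩ := gt4_conj hp (P : Subgroup G) h.hPp h.hPab (h.hHN hk) hkp hu hukp
    refine ⟨k, hk, hkx, v, hv, ?_⟩
    have hvx : v⁻¹ * x = x * v⁻¹ := h.hPab _ (Subgroup.inv_mem _ hv) x hxP
    calc v⁻¹ * g * v = (v⁻¹ * x) * y * v := by rw [e]; group
      _ = x * (v⁻¹ * (u * k) * v) := by rw [hvx, e2]; group
      _ = x * k := by rw [hv2]
  -- values
  have hval : ∀ χ, (χ ∈ IrrS ⊤ ∧ ∃ θ ∈ IrrS L, (∀ u ∈ (P : Subgroup G), cj u θ = θ) ∧ Over L χ θ) →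
      ∃ ε : ℂ, (ε = 1 ∨ ε = -1) ∧ ∀ g ∈ S, χ g = ε * f χ g := by
    intro χ hχ
    obtain ⟨-, ε, hε, h1⟩ := hrel χ hχ
    refine ⟨ε, hε, fun g hg => ?_⟩
    obtain ⟨k, hk, hkx, v, hv, e⟩ := key g hg
    have h2 : χ (x * k) = χ g := by
      have h3 := (cf_charS (charS_of_irrS hχ.1)).2 v⁻¹ (Subgroup.mem_top _) g
      rw [inv_inv, e] at h3
      exact h3
    have h4 : f χ (x * k) = f χ g := by
      have h3 := (cf_charS (charS_of_irrS (hf.mapsTo hχ))).2 v⁻¹ (Subgroup.inv_mem _ (hPN hv)) g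
      rw [inv_inv, e] at h3
      exact h3
    rw [← h2, ← h4]
    exact h1 k hk hkx
  -- characters which do not vanish on `S` are over invariant characters
  have hover : ∀ χ ∈ IrrOn ⊤ S,
      χ ∈ IrrS ⊤ ∧ ∃ θ ∈ IrrS L, (∀ u ∈ (P : Subgroup G), cj u θ = θ) ∧ Over L χ θ := by
    rintro χ ⟨hχ, g, hg, hne⟩
    obtain ⟨y, hy, hyp, e⟩ := hS hg
    rw [e] at hne
    obtain ⟨θ, hθ, hθx, hθo⟩ := nonvanish_over hp hLnz ha₀ hy hyp hχ hne
    have h1 : InvS (P : Subgroup G) θ :=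
      inv_of_single h.hLp (fun b _ => hLnz b) hpow h.hPab hxP h.hCx hθ hθx
    exact ⟨hχ, θ, hθ, h1, hθo⟩
  have hbij : Set.BijOn f (IrrOn ⊤ S) (IrrOn (SubG x) S) := by
    rw [hSub]
    refine ⟨?_, ?_, ?_⟩
    · intro χ hχ
      have hA := hover χ hχ
      refine ⟨hf.mapsTo hA, ?_⟩
      obtain ⟨ε, -, h1⟩ := hval χ hA
      obtain ⟨-, g, hg, hne⟩ := hχ
      refine ⟨g, hg, fun h0 => hne ?_⟩
      rw [h1 g hg, h0, mul_zero]
    · exact hf.injOn.mono fun χ hχ => hover χ hχ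
    · rintro ψ ⟨hψ, g, hg, hne⟩
      obtain ⟨χ, hχ, rfl⟩ := hf.surjOn hψ
      obtain ⟨ε, hε, h1⟩ := hval χ hχ
      refine ⟨χ, ⟨hχ.1, g, hg, ?_⟩, rfl⟩
      rw [h1 g hg]
      refine mul_ne_zero ?_ hne
      rcases hε with rfl | rfl
      · exact one_ne_zero
      · exact neg_ne_zero.mpr one_ne_zero
  have hsign : ∀ χ ∈ IrrOn ⊤ S, (∀ g ∈ S, χ g = f χ g) ∨ ∀ g ∈ S, χ g = -f χ g := by
    intro χ hχ
    obtain ⟨ε, hε, h1⟩ := hval χ (hover χ hχ)
    rcases hε with rfl | rfl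
    · exact Or.inl fun g hg => by rw [h1 g hg, one_mul]
    · exact Or.inr fun g hg => by rw [h1 g hg, neg_one_mul]
  refine ⟨f, hbij, ?_, hsign, bijOn_of_sign hbij ?_⟩
  · intro χ hχ
    obtain ⟨⟨m, n, hm, hn, hm2, hn2⟩, -⟩ := hrel χ (hover χ hχ)
    exact ⟨m, n, hm, hn, by
      rw [padicValNat.eq_zero_of_not_dvd hm2, padicValNat.eq_zero_of_not_dvd hn2]⟩
  · intro χ hχ g hg
    rcases hsign χ hχ with h1 | h1
    · exact Or.inl (h1 g hg)
    · exact Or.inr (h1 g hg)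

end Pool.Agent.Lib.H88B
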