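import Pool.Agent.Lib.H88B.Z7

/-!
H88B, Z8: the bijection and its values.
-/

open scoped Classical ComplexConjugate BigOperators

noncomputable section

namespace Pool.Agent.Lib.H88B

open Pool.Agent.Lib.H90Q

variable {G : Type*} [Group G] [Fintype G]

/-- A bridging character gives a bijection. `al_charS`, `al_ip` (norm one), `irrS_of_norm_one` : `al β` is irreducible; on `M` it is a multiple of `Θ` (`al_coset` with `u = 1`, `ψ = θs`, `φ = Θ`, `ν = 1`), so it lies over `Θ`. Injective: `al_ip` and `irrS_ortho`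
(`ip S β β' = 1` if `al β = al β'`). Surjective: for `α` put `β = be α` : irreducible by `be_charS`, `be_ip`, over `θs` by `be_coset`; `al (be α) = α`: on the coset `M u` by `eta_coset`, `over_coset`, `be_coset`, `al_coset` : `ν conj ν a φ = a φ = α`; both sides are zero off
`M ⊔ S`, and every element of `M ⊔ S` is `y * u` (`mem_sup_nz`, B0). -/
theorem bridge_bij {M S : Subgroup G} [M.Normal] {Θ θs : G → ℂ} (hΘ : Θ ∈ IrrS M) (hθs : θs ∈ IrrS (M ⊓ S)) (hSΘ : ∀ s ∈ S, cj s Θ = Θ)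
    (hSθ : ∀ s ∈ S, cj s θs = θs) {η : G × G → ℂ} (hη : η ∈ CharS (BG M S)) (hres : ∀ g ∈ M, ∀ h ∈ M ⊓ S, η (g, h) = Θ g * conj (θs h)) :
    Set.BijOn (al M S η) {β | β ∈ IrrS S ∧ Over (M ⊓ S) β θs} {α | α ∈ IrrS (M ⊔ S) ∧ Over M α Θ} := by
  have hnM : ∀ t : G, Nz t M := by
    intro t g
    constructor
    · intro hg
      exact Subgroup.Normal.conj_mem inferInstance g hg t
    · intro hg
      have h1 := Subgroup.Normal.conj_mem (inferInstance : M.Normal) _ hg t⁻¹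
      have h2 : t⁻¹ * (t * g * t⁻¹) * t⁻¹⁻¹ = g := by group
      rwa [h2] at h1
  have hnI : ∀ t ∈ S, Nz t (M ⊓ S) := by
    intro t ht g
    rw [Subgroup.mem_inf, Subgroup.mem_inf]
    exact and_congr (hnM t g) (nz_mem ht g)
  have hz1 : Subgroup.zpowers (1 : G) = ⊥ := Subgroup.zpowers_one_eq_bot
  have hθ1 : θs ∈ IrrS ((M ⊓ S) ⊔ Subgroup.zpowers (1 : G)) := by
    rw [hz1, sup_bot_eq]
    exact hθs
  have hΘ1 : Θ ∈ IrrS (M ⊔ Subgroup.zpowers (1 : G)) := by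
    rw [hz1, sup_bot_eq]
    exact hΘ
  have hv1 : ∀ y ∈ M, ∀ c ∈ M ⊓ S, η (y * 1, c * 1) = 1 * (Θ (y * 1) * conj (θs (c * 1))) := by
    intro y hy c hc
    rw [mul_one, mul_one, one_mul]
    exact hres y hy c hc
  have hinvT : ∀ t ∈ M ⊔ S, cj t Θ = Θ := by
    intro t ht
    obtain ⟨m, hm, s, hs, rfl⟩ := (mem_sup_nz fun z _ => hnM z).1 ht
    rw [← cj_cj, hSΘ s hs]
    exact cj_mem hm (cf_charS (charS_of_irrS hΘ))
  refine ⟨?_, ?_, ?_⟩
  · rintro β ⟨hβ, hβo⟩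
    have hc := al_charS hη (charS_of_irrS hβ)
    have hn1 : ip (M ⊔ S) (al M S η β) (al M S η β) = 1 := by
      rw [al_ip hΘ hθs hSΘ hSθ hη hres hβ hβo hβ hβo, irrS_ortho hβ hβ, if_pos rfl]
    refine ⟨irrS_of_norm_one hc hn1, ?_⟩
    obtain ⟨hmu, hval⟩ := clifford_inv (inf_le_right : M ⊓ S ≤ S) hnI hβ hθs hβo hSθ
    have h1 := al_coset (M := M) (S := S) (η := η) (φ := Θ) (ψ := θs) (β := β) hθs S.one_mem hθ1
      (fun c _ => rfl) hv1 (b := (mu (M ⊓ S) β θs : ℂ)) (fun c hc => by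
        rw [mul_one]
        exact hval c hc)
    unfold Over
    rw [ip_congr M (f := al M S η β) (f' := (mu (M ⊓ S) β θs : ℂ) • Θ) (g := Θ) (g' := Θ)
      (fun x hx => by
        have h2 := h1 x hx
        rw [mul_one, one_mul] at h2
        rw [h2, Pi.smul_apply, smul_eq_mul]) (fun x _ => rfl), ip_smul_left, irrS_ortho hΘ hΘ,
      if_pos rfl, mul_one]
    exact Nat.cast_ne_zero.2 hmu.ne'
  · rintro β ⟨hβ, hβo⟩ β' ⟨hβ', hβo'⟩ heq
    change al M S η β = al M S η β' at heq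
    have h1 := al_ip hΘ hθs hSΘ hSθ hη hres hβ hβo hβ' hβo'
    have h2 := al_ip hΘ hθs hSΘ hSθ hη hres hβ hβo hβ hβo
    rw [← heq, h2, irrS_ortho hβ hβ, if_pos rfl, irrS_ortho hβ hβ'] at h1
    by_contra hne
    rw [if_neg hne] at h1
    exact one_ne_zero h1
  · rintro α ⟨hα, hαo⟩
    have hc := be_charS hη (charS_of_irrS hα)
    have hn1 : ip S (be M S η α) (be M S η α) = 1 := by
      rw [be_ip hΘ hθs hSΘ hSθ hη hres hα hαo hα hαo, irrS_ortho hα hα, if_pos rfl]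
    have hirr : be M S η α ∈ IrrS S := irrS_of_norm_one hc hn1
    obtain ⟨hmu, hval⟩ := clifford_inv (le_sup_left : M ≤ M ⊔ S) (fun t _ => hnM t) hα hΘ hαo hinvT
    have h1 := be_coset (M := M) (S := S) (η := η) (φ := Θ) (ψ := θs) (α := α) hΘ S.one_mem hΘ1
      (fun c _ => rfl) hv1 (a := (mu M α Θ : ℂ)) (fun c hc => by
        rw [mul_one]
        exact hval c hc)
    refine ⟨be M S η α, ⟨hirr, ?_⟩, ?_⟩
    · unfold Over
      rw [ip_congr (M ⊓ S) (f := be M S η α) (f' := (mu M α Θ : ℂ) • θs) (g := θs) (g' := θs)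
        (fun x hx => by
          have h2 := h1 x hx
          rw [mul_one, map_one, one_mul] at h2
          rw [h2, Pi.smul_apply, smul_eq_mul]) (fun x _ => rfl), ip_smul_left, irrS_ortho hθs hθs,
        if_pos rfl, mul_one]
      exact Nat.cast_ne_zero.2 hmu.ne'
    · funext g
      by_cases hg : g ∈ M ⊔ S
      · obtain ⟨y, hy, u, hu, rfl⟩ := (mem_sup_nz fun z _ => hnM z).1 hg
        obtain ⟨φ, hφ, ψ, hψ, hφe, hψe, ν, hν, hv⟩ := eta_coset hΘ hθs hη hres hu (hSΘ u hu) (hSθ u hu)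
        obtain ⟨a, ha⟩ := over_coset (le_sup_left : M ≤ M ⊔ S) (fun t _ => hnM t) hΘ hinvT hα hαo
          ((le_sup_right : S ≤ M ⊔ S) hu) hφ hφe
        have h3 := be_coset hΘ hu hφ hφe hv ha
        have h4 := al_coset hθs hu hψ hψe hv h3 y hy
        rw [h4, ha y hy]
        linear_combination (a * φ (y * u)) * hν
      · rw [(al_charS hη hc).1 g hg, hα.1 g hg]

/-- The value at `z * u`: `sum_fst` with `y = z`; `β (c u) = b ψ(c u)` (`over_coset`); `al β (z u) = |C|⁻¹ ∑_c ε ψ(u) conj ψ(c u) b ψ(c u) = ε ψ(u) b = ε β(u)` (`coset_norm`). -/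
theorem bridge_val {M S : Subgroup G} [M.Normal] {θs : G → ℂ} (hθs : θs ∈ IrrS (M ⊓ S)) (hSθ : ∀ s ∈ S, cj s θs = θs) {η : G × G → ℂ} {β : G → ℂ} (hβ : β ∈ IrrS S)
    (hβo : Over (M ⊓ S) β θs) {z u : G} (hz : z ∈ M) (hu : u ∈ S) {ε : ℂ} {ψ : G → ℂ} (hψ : ψ ∈ IrrS ((M ⊓ S) ⊔ Subgroup.zpowers u)) (hψe : ∀ c ∈ M ⊓ S, ψ c = θs c)
    (hv : ∀ c ∈ M ⊓ S, η (z * u, c * u) = ε * (ψ u * conj (ψ (c * u)))) : al M S η β (z * u) = ε * β u := by
  have hnM : ∀ t : G, Nz t M := by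
    intro t g
    constructor
    · intro hg
      exact Subgroup.Normal.conj_mem inferInstance g hg t
    · intro hg
      have h1 := Subgroup.Normal.conj_mem (inferInstance : M.Normal) _ hg t⁻¹
      have h2 : t⁻¹ * (t * g * t⁻¹) * t⁻¹⁻¹ = g := by group
      rwa [h2] at h1
  have hnI : ∀ t ∈ S, Nz t (M ⊓ S) := by
    intro t ht g
    rw [Subgroup.mem_inf, Subgroup.mem_inf]
    exact and_congr (hnM t g) (nz_mem ht g)
  obtain ⟨b, hb⟩ := over_coset (inf_le_right : M ⊓ S ≤ S) hnI hθs hSθ hβ hβo hu hψ hψe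
  have hcn := coset_norm (hnI u hu) hθs hψ hψe
  have h1 : β u = b * ψ u := by
    have h2 := hb 1 (M ⊓ S).one_mem
    rwa [one_mul] at h2
  unfold al
  rw [sum_fst (fun h => η (z * u, h) * β h) hz hu]
  have h3 : ∑ c : G, (if c ∈ M ⊓ S then η (z * u, c * u) * β (c * u) else 0) =
      ε * ψ u * b * ∑ c : G, (if c ∈ M ⊓ S then ψ (c * u) * conj (ψ (c * u)) else 0) := by
    rw [Finset.mul_sum]
    refine Finset.sum_congr rfl fun c _ => ?_
    by_cases hc : c ∈ M ⊓ S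
    · rw [if_pos hc, if_pos hc, hv c hc, hb c hc]
      ring
    · rw [if_neg hc, if_neg hc, mul_zero]
  rw [h3, hcn, h1]
  have h4 : (Nat.card (M ⊓ S : Subgroup G) : ℂ) ≠ 0 := A15_card_ne _
  field_simp

end Pool.Agent.Lib.H88B
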