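import Pool.Agent.Lib.H90Q.K16
import Pool.Agent.Lib.H88B.G4
import Pool.Agent.Lib.H88B.G5

/-!
# MP_a8e959_al: the final theorem (helper88)
-/

open scoped Classical ComplexConjugate BigOperators

noncomputable section

namespace Pool.Agent.Lib.H88B

open Pool.Agent.Lib.H90Q

variable {G : Type*} [Group G] [Fintype G]

/-- **Theorem B.** `G` a `p`-solvable finite group with an abelian Sylow `p`-subgroup `P`, `x ∈ P` picky, such that some power of `x` is picky and its `p`-th power lies in all Sylow `p`-subgroups. Then the subnormalizer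
`p`-section conjecture holds for `x`, with a sign which depends only on the character. -/
theorem q1_power {p : ℕ} (hp : p.Prime) (hs : PSolvable p G) (P : Sylow p G) (hP : ∀ a ∈ P, ∀ b ∈ P, a * b = b * a)
    {x : G} (hx : Picky p x) (hxP : x ∈ P) (hz : ∃ i : ℕ, Picky p (x ^ i) ∧ ∀ Q : Sylow p G, (x ^ i) ^ p ∈ Q)
    {S : Set G} (hS : S ⊆ SecSet p x) : Q1Sharp p x S := by
  have : Fact p.Prime := ⟨hp⟩
  refine q1_of_core2 hp hs P hP hx hxP hz hS ?_ ?_
  · intro L H h θ hθ hinv
    have hPp : ∀ z ∈ (P : Subgroup G), ∃ a : ℕ, z ^ (p ^ a) = 1 := by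
      intro z hz
      obtain ⟨k, hk⟩ := h.hPp ⟨z, hz⟩
      exact ⟨k, congrArg Subtype.val hk⟩
    obtain ⟨Θ, hΘ⟩ := canP_exists h.hLp (fun z _ => F4_nzL2 h z) hPp h.hPab hθ hinv
    exact ⟨Θ, canExt_of_canP2 hΘ⟩
  · intro L H h
    exact core_stmt2 h

/-- **Main theorem.** `G` a `p`-solvable finite group with an abelian Sylow `p`-subgroup `P`, `x ∈ P` picky. Suppose that `N_G(P) / C_G(P)` is abelian, or that some power of `x` is picky and its `p`-th power lies in all Sylow
`p`-subgroups (for instance if `P`, or `P / O_p(G)`, is elementary abelian, or if `x` has order `p`). Then the subnormalizer `p`-section conjecture holds for `x`, with a sign which depends only on the character. -/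
theorem q1_main {p : ℕ} (hp : p.Prime) (hs : PSolvable p G) (P : Sylow p G) (hP : ∀ a ∈ P, ∀ b ∈ P, a * b = b * a)
    {x : G} (hx : Picky p x) (hxP : x ∈ P)
    (h : (∀ a ∈ Subgroup.normalizer ((P : Subgroup G) : Set G), ∀ b ∈ Subgroup.normalizer ((P : Subgroup G) : Set G),
        a * b * a⁻¹ * b⁻¹ ∈ Subgroup.centralizer ((P : Subgroup G) : Set G)) ∨
      ∃ i : ℕ, Picky p (x ^ i) ∧ ∀ Q : Sylow p G, (x ^ i) ^ p ∈ Q)
    {S : Set G} (hS : S ⊆ SecSet p x) : Q1Sharp p x S := by
  rcases h with h | h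
  · exact q1_all hp hs P hP h hx hxP hS
  · exact q1_power hp hs P hP hx hxP h hS

end Pool.Agent.Lib.H88B
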