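import Pool.Agent.Lib.H88B.R1

/-!
H88B, R2: intertwiners.
-/

open scoped Classical ComplexConjugate BigOperators

noncomputable section

namespace Pool.Agent.Lib.H88B

open Pool.Agent.Lib.H90Q

variable {G : Type*} [Group G] [Fintype G]

open scoped ComplexOrder in
private theorem r2_conj {n : ℕ} (A : Matrix (Fin n) (Fin n) ℂ) (h : (A.conjTranspose * A).trace = 0) : A = 0 :=
  Matrix.trace_conjTranspose_mul_self_eq_zero_iff.1 h

private theorem r2_single {n : ℕ} (P Q : Matrix (Fin n) (Fin n) ℂ) (i j a b : Fin n) :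
    (P * Matrix.single i j (1 : ℂ) * Q) a b = P a i * Q j b := by
  rw [Matrix.mul_apply, Finset.sum_eq_single j]
  · rw [Matrix.mul_single_apply_same, mul_one]
  · intro k _ hk
    rw [Matrix.mul_single_apply_of_ne _ _ _ _ _ hk, zero_mul]
  · intro h
    exact absurd (Finset.mem_univ j) h

/-- The average `∑_l R' l X R l⁻¹`. -/
private def r2T (H : Subgroup G) {n : ℕ} (R' R : G → Matrix (Fin n) (Fin n) ℂ) (X : Matrix (Fin n) (Fin n) ℂ) : Matrix (Fin n) (Fin n) ℂ :=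
  ∑ l : G, if l ∈ H then R' l * X * R l⁻¹ else 0

private theorem r2T_comm {H : Subgroup G} {n : ℕ} {R' R : G → Matrix (Fin n) (Fin n) ℂ} (h' : MRep H R') (h : MRep H R) {a : G} (ha : a ∈ H)
    (X : Matrix (Fin n) (Fin n) ℂ) : r2T H R' R X * R a = R' a * r2T H R' R X := by
  rw [r2T, Finset.sum_mul, Finset.mul_sum]
  refine Fintype.sum_equiv (Equiv.mulLeft a⁻¹) _ _ fun l => ?_
  have e0 : (Equiv.mulLeft a⁻¹) l = a⁻¹ * l := rfl
  rw [e0]
  by_cases hl : l ∈ H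
  · have hl' : a⁻¹ * l ∈ H := H.mul_mem (H.inv_mem ha) hl
    rw [if_pos hl, if_pos hl', mul_inv_rev, inv_inv, h'.2 _ (H.inv_mem ha) l hl, h.2 _ (H.inv_mem hl) a ha]
    calc R' l * X * R l⁻¹ * R a = (1 : Matrix (Fin n) (Fin n) ℂ) * (R' l * X * R l⁻¹ * R a) := (one_mul _).symm
      _ = (R' a * R' a⁻¹) * (R' l * X * R l⁻¹ * R a) := by rw [(mrep_inv h' ha).2]
      _ = R' a * (R' a⁻¹ * R' l * X * (R l⁻¹ * R a)) := by simp only [mul_assoc]
  · have hl' : a⁻¹ * l ∉ H := fun h => hl (by simpa using H.mul_mem ha h)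
    rw [if_neg hl, if_neg hl', zero_mul, mul_zero]

/-- Entrywise form of `Av` (take `X = Matrix.single i j 1`): `n ∑_l R(l)_(a i) R(l⁻¹)_(j b) = |H| δ_(i j) δ_(a b)`. -/
theorem av_entry {H : Subgroup G} {n : ℕ} {R : G → Matrix (Fin n) (Fin n) ℂ} (hA : Av H R) (a i j b : Fin n) :
    (n : ℂ) * ∑ l : G, (if l ∈ H then R l a i * R l⁻¹ j b else 0) = if i = j ∧ a = b then (Nat.card H : ℂ) else 0 := by
  have h := congrFun (congrFun (hA (Matrix.single i j 1)) a) b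
  have e1 : ((∑ l : G, if l ∈ H then R l * Matrix.single i j (1 : ℂ) * R l⁻¹ else 0) : Matrix (Fin n) (Fin n) ℂ) a b =
      ∑ l : G, (if l ∈ H then R l a i * R l⁻¹ j b else 0) := by
    rw [Matrix.sum_apply]
    refine Finset.sum_congr rfl fun l _ => ?_
    by_cases hl : l ∈ H
    · rw [if_pos hl, if_pos hl, r2_single]
    · rw [if_neg hl, if_neg hl, Matrix.zero_apply]
  have e2 : ((n : ℂ) • (∑ l : G, if l ∈ H then R l * Matrix.single i j (1 : ℂ) * R l⁻¹ else 0) : Matrix (Fin n) (Fin n) ℂ) a b =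
      (n : ℂ) * ∑ l : G, (if l ∈ H then R l a i * R l⁻¹ j b else 0) := by
    rw [Matrix.smul_apply, e1, smul_eq_mul]
  have e3 : (((Nat.card H : ℂ) * (Matrix.single i j (1 : ℂ)).trace) • (1 : Matrix (Fin n) (Fin n) ℂ)) a b =
      if i = j ∧ a = b then (Nat.card H : ℂ) else 0 := by
    rw [Matrix.smul_apply, Matrix.one_apply, smul_eq_mul]
    by_cases hij : i = j
    · subst hij
      rw [Matrix.trace_single_eq_same, mul_one]
      by_cases hab : a = b
      · rw [if_pos hab, if_pos ⟨rfl, hab⟩, mul_one]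
      · rw [if_neg hab, if_neg fun h => hab h.2, mul_zero]
    · rw [Matrix.trace_single_eq_of_ne _ _ _ hij, mul_zero, zero_mul, if_neg fun h => hij h.1]
  exact e2.symm.trans (h.trans e3)

/-- Two matrix representations of `H` with the same trace, one of them satisfying Schur's identity, are intertwined by a matrix of determinant one.
Proof. Let `T X = ∑_l R' l X R l⁻¹` (`l ∈ H`); `T X * R g = R' g * T X`. Some `T X ≠ 0`: otherwise (matrix units) `∑_l tr (R' l) tr (R l⁻¹) = 0`, but this is `∑_l tr (R l) tr (R l⁻¹) = |H|` by `av_entry`. Let `A = T X ≠ 0`, `Y = A.conjTranspose`,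
`B = ∑_l R l Y R' l⁻¹`; `B * R' g = R g * B`, `tr (B A) = ∑_l tr (R l Y R' l⁻¹ A) = ∑_l tr (R l Y A R l⁻¹) = |H| tr (Y A) ≠ 0`; `B A` commutes with the `R g`, so `B A = c • 1` with `c ≠ 0` (`av_comm`) and `det A ≠ 0`. Scale `A` by an `n`-th root of `(det A)⁻¹`
(`IsAlgClosed.exists_pow_nat_eq`, `Matrix.det_smul`). -/
theorem intertwiner {H : Subgroup G} {n : ℕ} (hn : 0 < n) {R R' : G → Matrix (Fin n) (Fin n) ℂ} (h : MRep H R) (h' : MRep H R') (hA : Av H R)
    (ht : ∀ g ∈ H, (R g).trace = (R' g).trace) : ∃ A : Matrix (Fin n) (Fin n) ℂ, A.det = 1 ∧ ∀ g ∈ H, A * R g = R' g * A := by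
  have hn0 : (n : ℂ) ≠ 0 := by exact_mod_cast hn.ne'
  have hc0 : (Nat.card H : ℂ) ≠ 0 := by exact_mod_cast (Nat.card_pos (α := H)).ne'
  -- a nonzero average
  have hex : ∃ X : Matrix (Fin n) (Fin n) ℂ, r2T H R' R X ≠ 0 := by
    by_contra hne
    push Not at hne
    have h1 : ∀ i j : Fin n, ∑ l : G, (if l ∈ H then R l i i * R l⁻¹ j j else 0) = if i = j then (n : ℂ)⁻¹ * (Nat.card H : ℂ) else 0 := by
      intro i j
      have h2 := av_entry hA i i j j
      have h3 : ∑ l : G, (if l ∈ H then R l i i * R l⁻¹ j j else 0) = (n : ℂ)⁻¹ * if i = j ∧ i = j then (Nat.card H : ℂ) else 0 := by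
        rw [← h2, ← mul_assoc, inv_mul_cancel₀ hn0, one_mul]
      rw [h3]
      by_cases hij : i = j
      · rw [if_pos ⟨hij, hij⟩, if_pos hij]
      · rw [if_neg fun h => hij h.1, if_neg hij, mul_zero]
    have h4 : ∀ i j : Fin n, ∑ l : G, (if l ∈ H then R' l i i * R l⁻¹ j j else 0) = 0 := by
      intro i j
      have h5 := congrFun (congrFun (hne (Matrix.single i j 1)) i) j
      rw [r2T, Matrix.sum_apply] at h5
      refine Eq.trans (Finset.sum_congr rfl fun l _ => ?_) (h5.trans (Matrix.zero_apply i j))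
      by_cases hl : l ∈ H
      · rw [if_pos hl, if_pos hl, r2_single]
      · rw [if_neg hl, if_neg hl, Matrix.zero_apply]
    have key : ∀ S : G → Matrix (Fin n) (Fin n) ℂ, ∑ i : Fin n, ∑ j : Fin n, ∑ l : G, (if l ∈ H then S l i i * R l⁻¹ j j else 0) =
        ∑ l : G, (if l ∈ H then (S l).trace * (R l⁻¹).trace else 0) := by
      intro S
      have e1 : ∀ i : Fin n, ∑ j : Fin n, ∑ l : G, (if l ∈ H then S l i i * R l⁻¹ j j else 0) =
          ∑ l : G, ∑ j : Fin n, (if l ∈ H then S l i i * R l⁻¹ j j else 0) := fun i => Finset.sum_comm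
      rw [Finset.sum_congr rfl fun i _ => e1 i, Finset.sum_comm]
      refine Finset.sum_congr rfl fun l _ => ?_
      by_cases hl : l ∈ H
      · rw [if_pos hl, Matrix.trace, Matrix.trace, Finset.sum_mul]
        refine Finset.sum_congr rfl fun i _ => ?_
        rw [Finset.mul_sum]
        refine Finset.sum_congr rfl fun j _ => ?_
        rw [if_pos hl, Matrix.diag_apply, Matrix.diag_apply]
      · rw [if_neg hl]
        refine Finset.sum_eq_zero fun i _ => Finset.sum_eq_zero fun j _ => ?_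
        rw [if_neg hl]
    have h6 : ∑ l : G, (if l ∈ H then (R l).trace * (R l⁻¹).trace else 0) = ∑ l : G, (if l ∈ H then (R' l).trace * (R l⁻¹).trace else 0) := by
      refine Finset.sum_congr rfl fun l _ => ?_
      by_cases hl : l ∈ H
      · rw [if_pos hl, if_pos hl, ht l hl]
      · rw [if_neg hl, if_neg hl]
    rw [← key R, ← key R', Finset.sum_eq_zero fun i _ => Finset.sum_eq_zero fun j _ => h4 i j] at h6
    have h7 : ∑ i : Fin n, ∑ j : Fin n, ∑ l : G, (if l ∈ H then R l i i * R l⁻¹ j j else 0) = (Nat.card H : ℂ) := by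
      have e2 : ∀ i : Fin n, ∑ j : Fin n, ∑ l : G, (if l ∈ H then R l i i * R l⁻¹ j j else 0) = (n : ℂ)⁻¹ * (Nat.card H : ℂ) := by
        intro i
        rw [Finset.sum_congr rfl fun j _ => h1 i j, Finset.sum_ite_eq, if_pos (Finset.mem_univ i)]
      rw [Finset.sum_congr rfl fun i _ => e2 i, Finset.sum_const, Finset.card_univ, Fintype.card_fin, nsmul_eq_mul, ← mul_assoc, mul_inv_cancel₀ hn0, one_mul]
    rw [h7] at h6
    exact hc0 h6
  obtain ⟨X, hX⟩ := hex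
  set A := r2T H R' R X with hAdef
  have hAi : ∀ g ∈ H, A * R g = R' g * A := fun g hg => r2T_comm h' h hg X
  set B := r2T H R R' A.conjTranspose with hBdef
  have hBi : ∀ g ∈ H, B * R' g = R g * B := fun g hg => r2T_comm h h' hg _
  have htr : (B * A).trace = (Nat.card H : ℂ) * (A.conjTranspose * A).trace := by
    rw [hBdef, r2T, Finset.sum_mul, Matrix.trace_sum]
    have e1 : ∀ l : G, Matrix.trace ((if l ∈ H then R l * A.conjTranspose * R' l⁻¹ else 0) * A) = if l ∈ H then (A.conjTranspose * A).trace else 0 := by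
      intro l
      by_cases hl : l ∈ H
      · rw [if_pos hl, if_pos hl, mul_assoc (R l * A.conjTranspose), ← hAi _ (H.inv_mem hl), ← mul_assoc (R l * A.conjTranspose), mul_assoc (R l),
          Matrix.trace_mul_cycle, (mrep_inv h hl).1, one_mul]
      · rw [if_neg hl, if_neg hl, zero_mul, Matrix.trace_zero]
    rw [Finset.sum_congr rfl fun l _ => e1 l, ← Finset.sum_filter, Finset.sum_const, nsmul_eq_mul]
    congr 2
    rw [Nat.card_eq_fintype_card, Fintype.card_subtype]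
  have htr0 : (B * A).trace ≠ 0 := by
    rw [htr]
    refine mul_ne_zero hc0 fun h0 => hX ?_
    exact r2_conj A h0
  obtain ⟨c, hc⟩ := av_comm hn h hA (X := B * A) fun g hg => by
    rw [mul_assoc, hAi g hg, ← mul_assoc, hBi g hg, mul_assoc]
  have hc1 : c ≠ 0 := by
    rintro rfl
    rw [hc, zero_smul, Matrix.trace_zero] at htr0
    exact htr0 rfl
  have hdet : A.det ≠ 0 := by
    intro h0
    have h1 : (B * A).det = 0 := by rw [Matrix.det_mul, h0, mul_zero]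
    rw [hc, Matrix.det_smul, Matrix.det_one, mul_one, Fintype.card_fin] at h1
    exact hc1 (pow_eq_zero_iff hn.ne' |>.1 h1)
  obtain ⟨z, hz⟩ := IsAlgClosed.exists_pow_nat_eq (A.det)⁻¹ hn
  refine ⟨z • A, ?_, fun g hg => ?_⟩
  · rw [Matrix.det_smul, Fintype.card_fin, hz, inv_mul_cancel₀ hdet]
  · rw [Matrix.smul_mul, hAi g hg, Matrix.mul_smul]

/-- An extension `ψ` of `θs ∈ Irr C` to `C⟨u⟩` and an intertwiner `B` of `σ` with its conjugate by `u`, of finite order: `ψ (c u) = t tr (σ(c) B)` with `|t| = 1`.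
Proof. `exists_mrep` for `ψ`: `Σ` on `C⟨u⟩` (its degree is `ψ 1 = θs 1 = m`, so the sizes agree; `subst`). `intertwiner` for `σ` and `Σ` on `C`: `Q σ(c) = Σ(c) Q`, `det Q = 1`. `X = B⁻¹ Q⁻¹ Σ(u) Q` commutes with all `σ(c)`: `Q⁻¹ Σ(u) Q σ(c) = Q⁻¹ Σ(u c) Q = Q⁻¹ Σ(u c u⁻¹) Σ(u) Q =
σ(u c u⁻¹) Q⁻¹ Σ(u) Q`, the same for `B`. So (`av_comm`) `Q⁻¹ Σ(u) Q = t • B`, and `ψ(c u) = tr (Σ(c) Σ(u)) = tr (σ(c) Q⁻¹ Σ(u) Q) = t tr (σ(c) B)`. Orders: `Σ(u) ^ N = 1` for `N = orderOf u`, `B ^ N' = 1`: `t ^ (N N') = 1`, so `|t| = 1`, `t * conj t = 1`. -/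
theorem ext_trace {C : Subgroup G} {m : ℕ} (hm : 0 < m) {σ : G → Matrix (Fin m) (Fin m) ℂ} (hσ : MRep C σ) (hA : Av C σ) {θs : G → ℂ} (hθs : θs ∈ IrrS C)
    (hσt : ∀ c ∈ C, (σ c).trace = θs c) {u : G} (hu : Nz u C) {B : Matrix (Fin m) (Fin m) ℂ} (hB : ∀ c ∈ C, B * σ c = σ (u * c * u⁻¹) * B) {N : ℕ} (hN : 0 < N)
    (hBN : B ^ N = 1) {ψ : G → ℂ} (hψ : ψ ∈ IrrS (C ⊔ Subgroup.zpowers u)) (hψe : ∀ c ∈ C, ψ c = θs c) :
    ∃ t : ℂ, t * conj t = 1 ∧ ∀ c ∈ C, ψ (c * u) = t * (σ c * B).trace := by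
  obtain ⟨n, S, hn, hψ1, hS, hSt, _⟩ := exists_mrep hψ
  have hC1 : C ≤ C ⊔ Subgroup.zpowers u := le_sup_left
  have hu1 : u ∈ C ⊔ Subgroup.zpowers u := (le_sup_right : Subgroup.zpowers u ≤ _) (Subgroup.mem_zpowers u)
  have hnm : n = m := by
    have e : (n : ℂ) = m := by
      rw [← hψ1, hψe 1 C.one_mem, ← hσt 1 C.one_mem, hσ.1, Matrix.trace_one, Fintype.card_fin]
    exact_mod_cast e
  subst hnm
  obtain ⟨Q, hQ1, hQ⟩ := intertwiner hm hσ (R' := S) ⟨hS.1, fun a ha b hb => hS.2 a (hC1 ha) b (hC1 hb)⟩ hA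
    (fun g hg => by rw [hσt g hg, hSt g (hC1 hg), hψe g hg])
  have hQu : IsUnit Q.det := by rw [hQ1]; exact isUnit_one
  have hQ' : Q⁻¹ * Q = 1 := Matrix.nonsing_inv_mul Q hQu
  have hQ'' : Q * Q⁻¹ = 1 := Matrix.mul_nonsing_inv Q hQu
  set Z := Q⁻¹ * S u * Q with hZ
  have hQi : ∀ c ∈ C, Q⁻¹ * S c = σ c * Q⁻¹ := by
    intro c hc
    calc Q⁻¹ * S c = Q⁻¹ * S c * (Q * Q⁻¹) := by rw [hQ'', mul_one]
      _ = Q⁻¹ * (S c * Q) * Q⁻¹ := by simp only [mul_assoc]
      _ = Q⁻¹ * (Q * σ c) * Q⁻¹ := by rw [hQ c hc]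
      _ = (Q⁻¹ * Q) * σ c * Q⁻¹ := by simp only [mul_assoc]
      _ = σ c * Q⁻¹ := by rw [hQ', one_mul]
  have huc : ∀ c ∈ C, u * c * u⁻¹ ∈ C := fun c hc => (hu c).1 hc
  have hZc : ∀ c ∈ C, Z * σ c = σ (u * c * u⁻¹) * Z := by
    intro c hc
    have h1 : S u * S c = S (u * c * u⁻¹) * S u := by
      rw [← hS.2 u hu1 c (hC1 hc), ← hS.2 _ (hC1 (huc c hc)) u hu1]
      congr 1
      group
    calc Z * σ c = Q⁻¹ * S u * (Q * σ c) := by rw [hZ]; simp only [mul_assoc]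
      _ = Q⁻¹ * (S u * S c) * Q := by rw [hQ c hc]; simp only [mul_assoc]
      _ = (Q⁻¹ * S (u * c * u⁻¹)) * S u * Q := by rw [h1]; simp only [mul_assoc]
      _ = σ (u * c * u⁻¹) * Z := by rw [hQi _ (huc c hc), hZ]; simp only [mul_assoc]
  obtain ⟨N', rfl⟩ : ∃ N', N = N' + 1 := ⟨N - 1, by omega⟩
  have hB1 : B ^ N' * B = 1 := by rw [← pow_succ, hBN]
  have hB2 : B * B ^ N' = 1 := by rw [← pow_succ', hBN]
  have hBi : ∀ c ∈ C, B ^ N' * σ (u * c * u⁻¹) = σ c * B ^ N' := by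
    intro c hc
    calc B ^ N' * σ (u * c * u⁻¹) = B ^ N' * σ (u * c * u⁻¹) * (B * B ^ N') := by rw [hB2, mul_one]
      _ = B ^ N' * (σ (u * c * u⁻¹) * B) * B ^ N' := by simp only [mul_assoc]
      _ = B ^ N' * (B * σ c) * B ^ N' := by rw [hB c hc]
      _ = (B ^ N' * B) * σ c * B ^ N' := by simp only [mul_assoc]
      _ = σ c * B ^ N' := by rw [hB1, one_mul]
  obtain ⟨t, ht⟩ := av_comm hm hσ hA (X := B ^ N' * Z) fun c hc => by
    rw [mul_assoc, hZc c hc, ← mul_assoc, hBi c hc, mul_assoc]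
  have hZt : Z = t • B := by
    calc Z = B * B ^ N' * Z := by rw [hB2, one_mul]
      _ = B * (B ^ N' * Z) := by rw [mul_assoc]
      _ = t • B := by rw [ht, Matrix.mul_smul, mul_one]
  have hSpow : ∀ k : ℕ, Z ^ k = Q⁻¹ * S (u ^ k) * Q := by
    intro k
    induction k with
    | zero => rw [pow_zero, pow_zero, hS.1, mul_one, hQ']
    | succ k ih =>
      calc Z ^ (k + 1) = Z ^ k * Z := pow_succ Z k
        _ = Q⁻¹ * S (u ^ k) * (Q * Q⁻¹) * S u * Q := by rw [ih, hZ]; simp only [mul_assoc]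
        _ = Q⁻¹ * (S (u ^ k) * S u) * Q := by rw [hQ'', mul_one]; simp only [mul_assoc]
        _ = Q⁻¹ * S (u ^ (k + 1)) * Q := by rw [← hS.2 _ (Subgroup.pow_mem _ hu1 k) u hu1, ← pow_succ]
  have htk : t ^ (orderOf u * (N' + 1)) = 1 := by
    have h1 : Z ^ (orderOf u * (N' + 1)) = 1 := by
      rw [hSpow, pow_mul, pow_orderOf_eq_one, one_pow, hS.1, mul_one, hQ']
    have h2 : B ^ (orderOf u * (N' + 1)) = 1 := by
      rw [mul_comm, pow_mul, hBN, one_pow]
    rw [hZt, smul_pow, h2] at h1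
    have h3 := congrFun (congrFun h1 ⟨0, hm⟩) ⟨0, hm⟩
    rw [Matrix.smul_apply, Matrix.one_apply_eq, smul_eq_mul, mul_one] at h3
    exact h3
  have htn : ‖t‖ = 1 := by
    refine Complex.norm_eq_one_of_pow_eq_one htk ?_
    exact Nat.mul_ne_zero (orderOf_pos u).ne' (Nat.succ_ne_zero N')
  refine ⟨t, ?_, fun c hc => ?_⟩
  · rw [Complex.mul_conj, Complex.normSq_eq_norm_sq, htn, one_pow, Complex.ofReal_one]
  · have h1 : S u = Q * Z * Q⁻¹ := by
      rw [hZ]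
      calc S u = (Q * Q⁻¹) * S u * (Q * Q⁻¹) := by rw [hQ'', one_mul, mul_one]
        _ = Q * (Q⁻¹ * S u * Q) * Q⁻¹ := by simp only [mul_assoc]
    rw [← hSt _ (Subgroup.mul_mem _ (hC1 hc) hu1), hS.2 c (hC1 hc) u hu1, h1]
    calc (S c * (Q * Z * Q⁻¹)).trace = (S c * Q * Z * Q⁻¹).trace := by simp only [mul_assoc]
      _ = (Q * (σ c * Z) * Q⁻¹).trace := by rw [← hQ c hc]; simp only [mul_assoc]
      _ = (σ c * Z).trace := by rw [Matrix.trace_mul_cycle, hQ', one_mul]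
      _ = t * (σ c * B).trace := by rw [hZt, Matrix.mul_smul, Matrix.trace_smul, smul_eq_mul]

end Pool.Agent.Lib.H88B
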