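import Pool.Agent.Lib.H90Q.C9
import Pool.Agent.Lib.H88B.Defs

/-!
H88B, U1: transport from `G` to a group `X` along a homomorphism `π : X → G` which is injective on a normal subgroup `D` of `X`.
-/

open scoped Classical ComplexConjugate BigOperators

noncomputable section

namespace Pool.Agent.Lib.H88B

open Pool.Agent.Lib.H90Q

/-- `π : X → G` is injective on the normal subgroup `D` of `X`, and `π(D)` contains `M`. -/
structure Emb {X G : Type*} [Group X] [Group G] (π : X →* G) (D : Subgroup X) (M : Subgroup G) : Prop where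
  nor : D.Normal
  inj : ∀ d ∈ D, π d = 1 → d = 1
  sur : ∀ g ∈ M, ∃ d ∈ D, π d = g

/-- The elements of `D` over `K`. -/
def up {X G : Type*} [Group X] [Group G] (π : X →* G) (D : Subgroup X) (K : Subgroup G) : Subgroup X := K.comap π ⊓ D

/-- The function `f ∘ π` on `D`, zero off `D`. -/
def upf {X G : Type*} [Group X] [Group G] (π : X →* G) (D : Subgroup X) (f : G → ℂ) : X → ℂ := fun q => if q ∈ D then f (π q) else 0

variable {X G : Type*} [Group X] [Group G] {π : X →* G} {D : Subgroup X} {M : Subgroup G}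

theorem mem_up {K : Subgroup G} {q : X} : q ∈ up π D K ↔ π q ∈ K ∧ q ∈ D := Iff.rfl

theorem Emb.eq (h : Emb π D M) {q q' : X} (hq : q ∈ D) (hq' : q' ∈ D) (e : π q = π q') : q = q' := by
  have h1 := h.inj (q * q'⁻¹) (D.mul_mem hq (D.inv_mem hq')) (by rw [map_mul, map_inv, e, mul_inv_cancel])
  exact mul_inv_eq_one.1 h1

private theorem u1_mem_sup {K K' : Subgroup G} (hn : ∀ z ∈ K', Nz z K) {t : G} (ht : t ∈ K ⊔ K') :
    ∃ n ∈ K, ∃ z ∈ K', t = n * z := by
  let S : Subgroup G :=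
    { carrier := {t | ∃ n ∈ K, ∃ z ∈ K', t = n * z}
      one_mem' := ⟨1, K.one_mem, 1, K'.one_mem, (mul_one 1).symm⟩
      mul_mem' := by
        rintro a b ⟨n, hn1, z, hz, rfl⟩ ⟨n', hn', z', hz', rfl⟩
        refine ⟨n * (z * n' * z⁻¹), K.mul_mem hn1 ((hn z hz n').1 hn'), z * z', K'.mul_mem hz hz', ?_⟩
        group
      inv_mem' := by
        rintro a ⟨n, hn1, z, hz, rfl⟩
        refine ⟨z⁻¹ * n⁻¹ * z⁻¹⁻¹, (hn z⁻¹ (K'.inv_mem hz) n⁻¹).1 (K.inv_mem hn1), z⁻¹, K'.inv_mem hz, ?_⟩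
        group }
  have hN : K ≤ S := fun n hn => ⟨n, hn, 1, K'.one_mem, (mul_one n).symm⟩
  have hP' : K' ≤ S := fun z hz => ⟨1, K.one_mem, z, hz, (one_mul z).symm⟩
  exact (sup_le hN hP') ht

private theorem u1_up_mono {K K' : Subgroup G} (h : K ≤ K') : up π D K ≤ up π D K' :=
  fun _ hq => ⟨h hq.1, hq.2⟩

/-- `π` as a homomorphism from `up K` to `K`. -/
private def u1_hom (π : X →* G) (D : Subgroup X) (K : Subgroup G) : up π D K →* K where
  toFun q := ⟨π q, q.2.1⟩
  map_one' := Subtype.ext (map_one π)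
  map_mul' a b := Subtype.ext (map_mul π _ _)

private theorem u1_hom_surj (h : Emb π D M) {K : Subgroup G} (hK : K ≤ M) : Function.Surjective (u1_hom π D K) := by
  rintro ⟨g, hg⟩
  obtain ⟨d, hd, rfl⟩ := h.sur g (hK hg)
  exact ⟨⟨d, hg, hd⟩, rfl⟩

private theorem u1_hom_inj (h : Emb π D M) {K : Subgroup G} : Function.Injective (u1_hom π D K) := by
  rintro ⟨q, hq⟩ ⟨q', hq'⟩ e
  exact Subtype.ext (h.eq hq.2 hq'.2 (congrArg Subtype.val e))

private theorem u1_upf {K : Subgroup G} (f : G → ℂ) (q : up π D K) : upf π D f q = f (u1_hom π D K q) :=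
  if_pos q.2.2

private theorem u1_conj (h : Emb π D M) (q g : X) : q * g * q⁻¹ ∈ D ↔ g ∈ D := by
  constructor
  · intro hg
    have := h.nor.conj_mem _ hg q⁻¹
    have e : q⁻¹ * (q * g * q⁻¹) * q⁻¹⁻¹ = g := by group
    rwa [e] at this
  · intro hg
    exact h.nor.conj_mem _ hg q

/-- For `K, K' ≤ M`, `K'` normalising `K`: every element of `up (K ⊔ K')` is a product (`mem_sup_nz`, B0, lift the factors with `sur`, `Emb.eq`). -/
theorem up_sup (h : Emb π D M) {K K' : Subgroup G} (hK : K ≤ M) (hK' : K' ≤ M) (hn : ∀ z ∈ K', Nz z K) : up π D K ⊔ up π D K' = up π D (K ⊔ K') := by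
  apply le_antisymm
  · exact sup_le (u1_up_mono le_sup_left) (u1_up_mono le_sup_right)
  · rintro q ⟨hq, hqD⟩
    obtain ⟨k, hk, k', hk', e⟩ := u1_mem_sup hn hq
    obtain ⟨d, hd, rfl⟩ := h.sur k (hK hk)
    obtain ⟨d', hd', rfl⟩ := h.sur k' (hK' hk')
    have e2 : q = d * d' := h.eq hqD (D.mul_mem hd hd') (by rw [map_mul]; exact e)
    rw [e2]
    exact Subgroup.mul_mem _ ((le_sup_left : up π D K ≤ _) ⟨hk, hd⟩) ((le_sup_right : up π D K' ≤ _) ⟨hk', hd'⟩)

/-- `π` is a bijection from `up K` to `K`. -/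
theorem card_up (h : Emb π D M) {K : Subgroup G} (hK : K ≤ M) : Nat.card (up π D K) = Nat.card K := by
  exact Nat.card_congr (Equiv.ofBijective (u1_hom π D K) ⟨u1_hom_inj h, u1_hom_surj h hK⟩)

/-- `upf` of a character of `K` is a character of `up K`: `isChar_comp` for `π : up K → K`. (`f` is zero off `K`.) -/
theorem upf_charS {K : Subgroup G} {f : G → ℂ} (hf : f ∈ CharS K) : upf π D f ∈ CharS (up π D K) := by
  refine ⟨fun q hq => ?_, ?_⟩
  · unfold upf
    split_ifs with hD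
    · exact hf.1 _ fun hK => hq ⟨hK, hD⟩
    · rfl
  · have h1 := isChar_comp (u1_hom π D K) hf.2
    have e : (fun q : up π D K => upf π D f q) = fun q => (fun k : K => f k) (u1_hom π D K q) := by
      funext q
      exact u1_upf f q
    rw [e]
    exact h1

/-- `isIrr_comp` for the surjective homomorphism `up K → K`. -/
theorem upf_irrS (h : Emb π D M) {K : Subgroup G} (hK : K ≤ M) {f : G → ℂ} (hf : f ∈ IrrS K) : upf π D f ∈ IrrS (up π D K) := by
  refine ⟨fun q hq => ?_, ?_⟩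
  · unfold upf
    split_ifs with hD
    · exact hf.1 _ fun hK => hq ⟨hK, hD⟩
    · rfl
  · have h1 := isIrr_comp (u1_hom π D K) (u1_hom_surj h hK) hf.2
    have e : (fun q : up π D K => upf π D f q) = fun q => (fun k : K => f k) (u1_hom π D K q) := by
      funext q
      exact u1_upf f q
    rw [e]
    exact h1

/-- `q` normalises `up K` if `π q` normalises `K`. -/
theorem nz_up (h : Emb π D M) {K : Subgroup G} {q : X} (hq : Nz (π q) K) : Nz q (up π D K) := by
  intro g
  rw [mem_up, mem_up, u1_conj h, map_mul, map_mul, map_inv, ← hq (π g)]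

/-- The centraliser in `up K` of `up A`: two elements of `D` commute iff their images do (`Emb.inj` for the commutator). -/
theorem CM_up (h : Emb π D M) (K : Subgroup G) {A : Subgroup G} (hA : A ≤ M) :
    CM (up π D K) ((up π D A : Subgroup X) : Set X) = up π D (CM K (A : Set G)) := by
  ext q
  constructor
  · rintro ⟨⟨hqK, hqD⟩, hc⟩
    refine ⟨⟨hqK, ?_⟩, hqD⟩
    refine Subgroup.mem_centralizer_iff.2 fun a ha => ?_
    obtain ⟨d, hd, rfl⟩ := h.sur a (hA ha)
    have h1 := Subgroup.mem_centralizer_iff.1 hc d ⟨ha, hd⟩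
    rw [← map_mul, ← map_mul, h1]
  · rintro ⟨⟨hqK, hqc⟩, hqD⟩
    refine ⟨⟨hqK, hqD⟩, ?_⟩
    refine Subgroup.mem_centralizer_iff.2 fun d hd => ?_
    have h1 := Subgroup.mem_centralizer_iff.1 hqc (π d) hd.1
    exact h.eq (D.mul_mem hd.2 hqD) (D.mul_mem hqD hd.2) (by rw [map_mul, map_mul, h1])

theorem CM_up_single (h : Emb π D M) (K : Subgroup G) {q : X} (hq : q ∈ D) : CM (up π D K) {q} = up π D (CM K {π q}) := by
  ext x
  constructor
  · rintro ⟨⟨hxK, hxD⟩, hc⟩
    refine ⟨⟨hxK, ?_⟩, hxD⟩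
    refine Subgroup.mem_centralizer_iff.2 fun a ha => ?_
    rw [Set.mem_singleton_iff] at ha
    subst ha
    have h1 := Subgroup.mem_centralizer_iff.1 hc q (Set.mem_singleton q)
    rw [← map_mul, ← map_mul, h1]
  · rintro ⟨⟨hxK, hxc⟩, hxD⟩
    refine ⟨⟨hxK, hxD⟩, ?_⟩
    refine Subgroup.mem_centralizer_iff.2 fun d hd => ?_
    rw [Set.mem_singleton_iff] at hd
    subst hd
    have h1 := Subgroup.mem_centralizer_iff.1 hxc (π d) (Set.mem_singleton _)
    exact h.eq (D.mul_mem hq hxD) (D.mul_mem hxD hq) (by rw [map_mul, map_mul, h1])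

/-- Conjugation by an element of `D` (or of `X`: `D` is normal). -/
theorem cj_up (h : Emb π D M) (q : X) (f : G → ℂ) : cj q (upf π D f) = upf π D (cj (π q) f) := by
  funext g
  have h1 : q⁻¹ * g * q ∈ D ↔ g ∈ D := by
    have := u1_conj h q⁻¹ g
    rwa [inv_inv] at this
  unfold cj upf
  rw [map_mul, map_mul, map_inv]
  by_cases hg : g ∈ D
  · rw [if_pos (h1.2 hg), if_pos hg]
  · rw [if_neg (fun h2 => hg (h1.1 h2)), if_neg hg]

theorem invS_up (h : Emb π D M) {P : Subgroup G} {f : G → ℂ} (hf : InvS P f) : InvS (up π D P) (upf π D f) := by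
  intro a ha
  rw [cj_up h, hf (π a) ha.1]

variable [Fintype X] [Fintype G]

/-- Inner products: for `K ≤ M`; reindex the sum over `up K` by `π` (`Finset.sum_bij`), `card_up`. -/
theorem ip_up (h : Emb π D M) {K : Subgroup G} (hK : K ≤ M) (f g : G → ℂ) : ip (up π D K) (upf π D f) (upf π D g) = ip K f g := by
  unfold ip
  rw [card_up h hK]
  refine congrArg (fun z : ℂ => (Nat.card K : ℂ)⁻¹ * z) ?_
  rw [← Finset.sum_filter, ← Finset.sum_filter]
  refine Finset.sum_bij (fun q _ => π q) ?_ ?_ ?_ ?_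
  · intro q hq
    exact Finset.mem_filter.2 ⟨Finset.mem_univ _, (Finset.mem_filter.1 hq).2.1⟩
  · intro q hq q' hq' e
    exact h.eq (Finset.mem_filter.1 hq).2.2 (Finset.mem_filter.1 hq').2.2 e
  · intro g hg
    have hg' := (Finset.mem_filter.1 hg).2
    obtain ⟨d, hd, rfl⟩ := h.sur g (hK hg')
    exact ⟨d, Finset.mem_filter.2 ⟨Finset.mem_univ _, hg', hd⟩, rfl⟩
  · intro q hq
    have hD : q ∈ D := (Finset.mem_filter.1 hq).2.2
    unfold upf
    rw [if_pos hD, if_pos hD]

theorem mu_up (h : Emb π D M) {K : Subgroup G} (hK : K ≤ M) (f g : G → ℂ) : mu (up π D K) (upf π D f) (upf π D g) = mu K f g := by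
  unfold mu
  rw [ip_up h hK]

end Pool.Agent.Lib.H88B
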