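import Pool.Agent.Lib.H88B.Defs
import Pool.Agent.Lib.H90Q.C9
import Pool.Agent.Lib.H90Q.F7

open scoped Classical ComplexConjugate BigOperators

noncomputable section

namespace Pool.Agent.Lib.H88B

open Pool.Agent.Lib.H90Q

variable {G : Type*} [Group G] [Fintype G]

/-- The values of the canonical extension at `x` and at a power `x ^ i` with the same centraliser in `K` agree up to one sign. -/
theorem val_power {p : ℕ} [Fact p.Prime] {K P : Subgroup G} (hK : ¬ p ∣ Nat.card K) (hn : ∀ z ∈ P, Nz z K)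
    (hp : ∀ z ∈ P, ∃ a : ℕ, z ^ (p ^ a) = 1) {φ Φ : G → ℂ} (hφ : φ ∈ IrrS K) (h : Can p K P φ Φ) {x : G} (hx : x ∈ P) {i : ℕ}
    (hC : CM K {x ^ i} = CM K {x}) : ∃ ε : ℂ, (ε = 1 ∨ ε = -1) ∧ ∀ d ∈ CM K {x}, Φ (x * d) = ε * Φ (x ^ i * d) := by
  obtain ⟨ψ, ε, hε, hgc, -, hv⟩ := h.val x hx
  have hgc' : GC p K {x ^ i} φ ψ := F7_gc_of_CM hC.symm hgc
  obtain ⟨ε', hε', -, hv'⟩ := can_val hK hn hp hφ h (x ^ i) (P.pow_mem hx i) ψ hgc'
  refine ⟨(ε : ℂ) * ε', ?_, fun d hd => ?_⟩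
  · rcases hε with rfl | rfl <;> rcases hε' with rfl | rfl <;> norm_num
  · rw [hv d hd, hv' d (hC ▸ hd)]
    have h1 : (ε' : ℂ) * ε' = 1 := by
      rcases hε' with rfl | rfl <;> norm_num
    linear_combination (-(ε : ℂ) * ψ d) * h1

end Pool.Agent.Lib.H88B
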