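import Pool.Agent.Lib.H90Q.C9
import Pool.Agent.Lib.H90Q.F7

/-!
MP_a8e959_al: the subgroup `P1` generated by the good elements of `P` (`C_L(z) = C_L(P)` and `z ^ p` centralises `L`).
-/

open scoped Classical ComplexConjugate BigOperators

noncomputable section

namespace Pool.Agent.Lib.H88B

open Pool.Agent.Lib.H90Q

variable {G : Type*} [Group G]

/-- The good elements of `P`. -/
def ZS (p : ℕ) (L P : Subgroup G) : Set G :=
  {z | z ∈ P ∧ CM L {z} = CM L (P : Set G) ∧ ∀ l ∈ L, z ^ p * l = l * z ^ p}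

/-- The subgroup generated by the good elements. -/
def P1 (p : ℕ) (L P : Subgroup G) : Subgroup G := Subgroup.closure (ZS p L P)

theorem P1_le {p : ℕ} {L P : Subgroup G} : P1 p L P ≤ P := (Subgroup.closure_le _).2 fun _ hz => hz.1

theorem ZS_sub_P1 {p : ℕ} {L P : Subgroup G} : ZS p L P ⊆ (P1 p L P : Set G) := Subgroup.subset_closure

private theorem W2_mem {s : G} {H : Subgroup G} (h : Nz s H) {g : G} (hg : g ∈ H) : s⁻¹ * g * s ∈ H := by
  have h1 := (h (s⁻¹ * g * s)).2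
  refine h1 ?_
  have e : s * (s⁻¹ * g * s) * s⁻¹ = g := by group
  rw [e]
  exact hg

/-- Membership in `CM L {z}`. -/
private theorem W2_CM {L : Subgroup G} {z l : G} : l ∈ CM L {z} ↔ l ∈ L ∧ z * l = l * z := by
  unfold CM
  rw [Subgroup.mem_inf, Subgroup.mem_centralizer_iff]
  constructor
  · rintro ⟨h1, h2⟩
    exact ⟨h1, h2 z rfl⟩
  · rintro ⟨h1, h2⟩
    refine ⟨h1, ?_⟩
    rintro y rfl
    exact h2

private theorem W2_CMP {L P : Subgroup G} {l : G} : l ∈ CM L (P : Set G) ↔ l ∈ L ∧ ∀ u ∈ P, u * l = l * u := by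
  unfold CM
  rw [Subgroup.mem_inf, Subgroup.mem_centralizer_iff]
  rfl

/-- `Z` is stable under elements normalising `L` and `P`. -/
theorem ZS_conj {p : ℕ} {L P : Subgroup G} {s : G} (hL : Nz s L) (hP : Nz s P) {z : G} (hz : z ∈ ZS p L P) :
    s * z * s⁻¹ ∈ ZS p L P := by
  obtain ⟨hzP, hzC, hzp⟩ := hz
  refine ⟨(hP z).1 hzP, ?_, ?_⟩
  · ext l
    rw [W2_CM, W2_CMP]
    constructor
    · rintro ⟨hl, h1⟩
      refine ⟨hl, fun u hu => ?_⟩
      have h2 : s⁻¹ * l * s ∈ CM L {z} := by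
        rw [W2_CM]
        refine ⟨W2_mem hL hl, ?_⟩
        have h3 : z * (s⁻¹ * l * s) = s⁻¹ * (s * z * s⁻¹ * l) * s := by group
        rw [h3, h1]
        group
      rw [hzC, W2_CMP] at h2
      have h4 := h2.2 _ (W2_mem hP hu)
      have h5 : u * l = s * (s⁻¹ * u * s * (s⁻¹ * l * s)) * s⁻¹ := by group
      rw [h5, h4]
      group
    · rintro ⟨hl, h1⟩
      exact ⟨hl, h1 _ ((hP z).1 hzP)⟩
  · intro l hl
    have h1 := hzp _ (W2_mem hL hl)
    have h2 : (s * z * s⁻¹) ^ p = s * z ^ p * s⁻¹ := conj_pow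
    rw [h2]
    have h3 : s * z ^ p * s⁻¹ * l = s * (z ^ p * (s⁻¹ * l * s)) * s⁻¹ := by group
    rw [h3, h1]
    group

theorem ZS_conj_inv {p : ℕ} {L P : Subgroup G} {s : G} (hL : Nz s L) (hP : Nz s P) {z : G} (hz : s * z * s⁻¹ ∈ ZS p L P) :
    z ∈ ZS p L P := by
  have hL' : Nz s⁻¹ L := by
    intro g
    rw [inv_inv]
    constructor
    · intro hg
      exact W2_mem hL hg
    · intro hg
      have h1 := (hL _).1 hg
      have e : s * (s⁻¹ * g * s) * s⁻¹ = g := by group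
      rwa [e] at h1
  have hP' : Nz s⁻¹ P := by
    intro g
    rw [inv_inv]
    constructor
    · intro hg
      exact W2_mem hP hg
    · intro hg
      have h1 := (hP _).1 hg
      have e : s * (s⁻¹ * g * s) * s⁻¹ = g := by group
      rwa [e] at h1
  have h := ZS_conj hL' hP' hz
  have e : s⁻¹ * (s * z * s⁻¹) * s⁻¹⁻¹ = z := by group
  rwa [e] at h

/-- `P1` is normalised by elements normalising `L` and `P`. -/
theorem P1_Nz {p : ℕ} {L P : Subgroup G} {s : G} (hL : Nz s L) (hP : Nz s P) : Nz s (P1 p L P) := by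
  have h1 : ∀ t : G, (∀ z ∈ ZS p L P, t * z * t⁻¹ ∈ ZS p L P) → ∀ g ∈ P1 p L P, t * g * t⁻¹ ∈ P1 p L P := by
    intro t ht g hg
    have h2 : P1 p L P ≤ (P1 p L P).comap (MulAut.conj t).toMonoidHom := by
      refine (Subgroup.closure_le _).2 fun z hz => ?_
      change t * z * t⁻¹ ∈ P1 p L P
      exact ZS_sub_P1 (ht z hz)
    exact h2 hg
  intro g
  constructor
  · exact h1 s (fun z hz => ZS_conj hL hP hz) g
  · intro hg
    have h3 := h1 s⁻¹ (fun z hz => ZS_conj_inv hL hP (by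
      have e : s * (s⁻¹ * z * s⁻¹⁻¹) * s⁻¹ = z := by group
      rw [e]
      exact hz)) _ hg
    have e : s⁻¹ * (s * g * s⁻¹) * s⁻¹⁻¹ = g := by group
    rwa [e] at h3

/-- `u ^ p` centralises `L` for `u ∈ P1` (`P` abelian). -/
theorem P1_pow {p : ℕ} {L P : Subgroup G} (hab : ∀ b ∈ P, ∀ c ∈ P, b * c = c * b) :
    ∀ u ∈ P1 p L P, ∀ l ∈ L, u ^ p * l = l * u ^ p := by
  intro u hu
  have h0 : ∀ u ∈ P1 p L P, (u ∈ P ∧ ∀ l ∈ L, u ^ p * l = l * u ^ p) := by
    intro u hu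
    unfold P1 at hu
    refine Subgroup.closure_induction (p := fun u _ => u ∈ P ∧ ∀ l ∈ L, u ^ p * l = l * u ^ p) ?_ ?_ ?_ ?_ hu
    · intro z hz
      exact ⟨hz.1, hz.2.2⟩
    · exact ⟨P.one_mem, fun l _ => by rw [one_pow, one_mul, mul_one]⟩
    · rintro a b - - ⟨ha, ha'⟩ ⟨hb, hb'⟩
      refine ⟨P.mul_mem ha hb, fun l hl => ?_⟩
      have hc : Commute a b := hab a ha b hb
      rw [hc.mul_pow, mul_assoc, hb' l hl, ← mul_assoc, ha' l hl, mul_assoc]
    · rintro a - ⟨ha, ha'⟩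
      refine ⟨P.inv_mem ha, fun l hl => ?_⟩
      have hc : Commute (a ^ p) l := ha' l hl
      have := hc.inv_left
      rw [← inv_pow] at this
      exact this
  exact (h0 u hu).2

/-- The centraliser of `P1` in `L` is that of `P`, if there is a good element. -/
theorem P1_CM {p : ℕ} {L P : Subgroup G} (hZ : (ZS p L P).Nonempty) : CM L (P1 p L P : Set G) = CM L (P : Set G) := by
  obtain ⟨z, hz⟩ := hZ
  ext l
  rw [W2_CMP, W2_CMP]
  constructor
  · rintro ⟨hl, h1⟩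
    have h2 : l ∈ CM L {z} := by
      rw [W2_CM]
      exact ⟨hl, h1 z (ZS_sub_P1 hz)⟩
    rw [hz.2.1, W2_CMP] at h2
    exact h2
  · rintro ⟨hl, h1⟩
    exact ⟨hl, fun u hu => h1 u (P1_le hu)⟩

/-- The centraliser of a good element is that of `P1`. -/
theorem ZS_CM1 {p : ℕ} {L P : Subgroup G} {z : G} (hz : z ∈ ZS p L P) : CM L {z} = CM L (P1 p L P : Set G) := by
  rw [P1_CM ⟨z, hz⟩]
  exact hz.2.1

/-- The Glauberman relation for `P1`. -/
theorem P1_GC {p : ℕ} {L P : Subgroup G} (hZ : (ZS p L P).Nonempty) [Fintype G] {θ θs : G → ℂ} (h : GC p L (P : Set G) θ θs) :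
    GC p L (P1 p L P : Set G) θ θs := F7_gc_of_CM (P1_CM hZ).symm h

end Pool.Agent.Lib.H88B
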