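import Pool.Agent.Lib.H90Q.A15
import Pool.Agent.Lib.H88B.Defs

/-!
H88B, Z1: deflation.
-/

open scoped Classical ComplexConjugate BigOperators

noncomputable section

namespace Pool.Agent.Lib.H88B

open Pool.Agent.Lib.H90Q

private theorem z1_card {X G : Type*} [Group X] [Fintype X] [Group G] [Fintype G] (π : X →* G) (Γ : Subgroup X) :
    Nat.card (Γ.map π) * Nat.card (Γ ⊓ π.ker : Subgroup X) = Nat.card Γ := by
  have h1 := (π.comp Γ.subtype).ker.card_mul_index
  rw [Subgroup.index_ker] at h1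
  have h2 : (π.comp Γ.subtype).range = Γ.map π := by
    rw [MonoidHom.range_comp, Subgroup.range_subtype]
  have h3 : (π.comp Γ.subtype).ker = (Γ ⊓ π.ker : Subgroup X).subgroupOf Γ := by
    ext x
    rw [MonoidHom.mem_ker, Subgroup.mem_subgroupOf, Subgroup.mem_inf, MonoidHom.mem_ker]
    simp
  have h4 : Nat.card ((Γ ⊓ π.ker : Subgroup X).subgroupOf Γ) = Nat.card (Γ ⊓ π.ker : Subgroup X) :=
    Nat.card_congr (Subgroup.subgroupOfEquivOfLe inf_le_left).toEquiv
  rw [h2, h3, h4] at h1
  rw [mul_comm]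
  exact h1

/-- Deflation of a character along a homomorphism `π : X → G` of finite groups. `Γ ≤ X`, `f ∈ CharS Γ`, `K = Γ ⊓ ker π`: the function
`g ↦ |K|⁻¹ ∑_(q : X, π q = g) f q` is a character of `T = π(Γ)`.
Proof (as `ind_charS` in A15): it is a class function of `T` (zero off `T` because `f` is zero off `Γ`; conjugation by `π γ`: reindex the sum by `q ↦ γ q γ⁻¹`). For `ψ ∈ irr T` put
`ψ' q = if q ∈ Γ then ψ (π q) else 0`, a character of `Γ` (`isChar_comp`). `ip T f♭ ψ = ip Γ f ψ'` (exchange the sums, `|T| |K| = |Γ|`), a natural number (`parseval` and `mu_spec`, as in `ind_charS`). So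
`f♭ = ∑ n_ψ ψ` (`cf_expand`) is a character (`charS_combo`). -/
theorem defl {X G : Type*} [Group X] [Fintype X] [Group G] [Fintype G] (π : X →* G) (Γ : Subgroup X) {f : X → ℂ} (hf : f ∈ CharS Γ) :
    (fun g => (Nat.card (Γ ⊓ π.ker : Subgroup X) : ℂ)⁻¹ * ∑ q : X, if π q = g then f q else 0) ∈ CharS (Γ.map π) := by
  set K : Subgroup X := Γ ⊓ π.ker with hK
  set F : G → ℂ := fun g => (Nat.card K : ℂ)⁻¹ * ∑ q : X, if π q = g then f q else 0 with hF
  have hz : ∀ q, q ∉ Γ → f q = 0 := hf.1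
  have hfc := cf_charS hf
  have hcard := z1_card π Γ
  rw [← hK] at hcard
  have hcard' : (Nat.card (Γ.map π) : ℂ) * (Nat.card K : ℂ) = (Nat.card Γ : ℂ) := by
    exact_mod_cast hcard
  have hF0 : ∀ g, g ∉ Γ.map π → F g = 0 := by
    intro g hg
    simp only [hF]
    rw [mul_eq_zero]
    right
    refine Finset.sum_eq_zero (fun q _ => ?_)
    by_cases hq : π q = g
    · rw [if_pos hq]
      exact hz q (fun h => hg (hq ▸ Subgroup.mem_map_of_mem π h))
    · rw [if_neg hq]
  have hFc : IsCF (Γ.map π) F := by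
    refine ⟨hF0, ?_⟩
    rintro _ ⟨c, hc, rfl⟩ g
    simp only [hF]
    congr 1
    refine (Fintype.sum_equiv (MulAut.conj c).toEquiv _ _ (fun q => ?_)).symm
    simp only [MulEquiv.toEquiv_eq_coe, EquivLike.coe_coe, MulAut.conj_apply]
    have h1 : π (c * q * c⁻¹) = π c * g * (π c)⁻¹ ↔ π q = g := by
      rw [map_mul, map_mul, map_inv]
      constructor
      · intro h
        exact mul_left_cancel (mul_right_cancel h)
      · intro h
        rw [h]
    by_cases hq : π q = g
    · rw [if_pos hq, if_pos (h1.2 hq)]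
      exact (hfc.2 c hc q).symm
    · rw [if_neg hq, if_neg (fun h => hq (h1.1 h))]
  have hnat : ∀ ψ ∈ irr (Γ.map π), ∃ n : ℕ, ip (Γ.map π) F ψ = n := by
    intro ψ hψ
    have hψ' : ψ ∈ IrrS (Γ.map π) := mem_irr.1 hψ
    have hc : ψ ∈ CharS (Γ.map π) := charS_of_irrS hψ'
    set ψ' : X → ℂ := fun q => if q ∈ Γ then ψ (π q) else 0 with hψd
    have hr : ψ' ∈ CharS Γ := by
      refine ⟨fun q hq => if_neg hq, ?_⟩
      have h1 := isChar_comp (π.subgroupMap Γ) hc.2
      have h2 : (fun h : Γ => ψ' h) = fun x : Γ => ψ ((π.subgroupMap Γ x : Γ.map π) : G) := by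
        funext x
        simp only [hψd]
        rw [if_pos x.2]
        rfl
      rw [h2]
      exact h1
    have e1 : ip (Γ.map π) F ψ = ip Γ f ψ' := by
      have a1 : ∀ g : G, (if g ∈ Γ.map π then F g * conj (ψ g) else 0)
          = (Nat.card K : ℂ)⁻¹ * ∑ q : X, (if π q = g then f q * conj (ψ (π q)) else 0) := by
        intro g
        have a2 : (if g ∈ Γ.map π then F g * conj (ψ g) else 0) = F g * conj (ψ g) := by
          by_cases hg : g ∈ Γ.map π
          · rw [if_pos hg]
          · rw [if_neg hg, hF0 g hg, zero_mul]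
        rw [a2]
        simp only [hF]
        rw [mul_assoc, Finset.sum_mul]
        congr 1
        refine Finset.sum_congr rfl (fun q _ => ?_)
        by_cases hq : π q = g
        · rw [if_pos hq, if_pos hq, hq]
        · rw [if_neg hq, if_neg hq, zero_mul]
      have a3 : ∑ g : G, (if g ∈ Γ.map π then F g * conj (ψ g) else 0)
          = (Nat.card K : ℂ)⁻¹ * ∑ q : X, f q * conj (ψ (π q)) := by
        rw [Finset.sum_congr rfl (fun g _ => a1 g), ← Finset.mul_sum, Finset.sum_comm]
        congr 1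
        refine Finset.sum_congr rfl (fun q _ => ?_)
        rw [Finset.sum_ite_eq, if_pos (Finset.mem_univ _)]
      have a4 : ∑ q : X, (if q ∈ Γ then f q * conj (ψ' q) else 0) = ∑ q : X, f q * conj (ψ (π q)) := by
        refine Finset.sum_congr rfl (fun q _ => ?_)
        by_cases hq : q ∈ Γ
        · simp only [hψd, if_pos hq]
        · rw [if_neg hq, hz q hq, zero_mul]
      unfold ip
      rw [a3, a4, ← hcard', ← mul_assoc, mul_inv]
    rw [e1, parseval hfc (cf_charS hr)]
    refine ⟨∑ χ ∈ irr Γ, mu Γ f χ * mu Γ ψ' χ, ?_⟩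
    push_cast
    refine Finset.sum_congr rfl (fun χ hχ => ?_)
    rw [← mu_spec le_rfl hf (mem_irr.1 hχ), ← mu_spec le_rfl hr (mem_irr.1 hχ)]
    simp
  choose! n hn using hnat
  rw [cf_expand hFc]
  have h2 : ∑ φ ∈ irr (Γ.map π), ip (Γ.map π) F φ • φ = ∑ φ ∈ irr (Γ.map π), (n φ : ℂ) • φ :=
    Finset.sum_congr rfl (fun φ hφ => by rw [hn φ hφ])
  rw [h2]
  exact charS_combo n

end Pool.Agent.Lib.H88B
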