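import Pool.Agent.Lib.H90Q.A18
import Pool.Agent.Lib.H90Q.B2
import Pool.Agent.Lib.H88B.Defs

/-!
H88B, Z2: characters on a coset of a normal subgroup with cyclic quotient.
-/

open scoped Classical ComplexConjugate BigOperators

noncomputable section

namespace Pool.Agent.Lib.H88B

open Pool.Agent.Lib.H90Q

variable {G : Type*} [Group G] [Fintype G]

/-- `f` a character of `T' ≥ N⟨u⟩` which is a multiple of `χ ∈ Irr N` on `N`; `ψ` an extension of `χ` to `N⟨u⟩`. Then on the coset `N u` the function `f` is a constant multiple of `ψ`.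
Proof: `T = N ⊔ zpowers u`; `charS_expand` : `rs T f = ∑ mu T f φ • φ` over `φ ∈ irr T`. If `mu T f φ ≠ 0` then `φ` lies over `χ` and over no other character of `N` (`A15_mu_trans`: `mu N f χ' = 0` for `χ' ≠ χ`, because `f = n χ` on `N`),
so (`under_exists`) `Over N φ χ`, and `abel_trans` (commutators of `T` lie in `N`: `comm_cyclic`) gives `φ = l * ψ`, `l ∈ LinS T N`: `φ (x * u) = l u * ψ (x * u)` (`l (x * u) = l x * l u = l u`). -/
theorem coset_const {N T' : Subgroup G} {u : G} (hu : Nz u N) (hT : N ⊔ Subgroup.zpowers u ≤ T') {χ : G → ℂ} (hχ : χ ∈ IrrS N) {f : G → ℂ} (hf : f ∈ CharS T')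
    {n : ℂ} (hfn : ∀ x ∈ N, f x = n * χ x) {ψ : G → ℂ} (hψ : ψ ∈ IrrS (N ⊔ Subgroup.zpowers u)) (hψe : ∀ x ∈ N, ψ x = χ x) :
    ∃ b : ℂ, ∀ x ∈ N, f (x * u) = b * ψ (x * u) := by
  obtain ⟨T, hTe⟩ : ∃ T, T = N ⊔ Subgroup.zpowers u := ⟨_, rfl⟩
  rw [← hTe] at hT hψ
  have hNT : N ≤ T := by rw [hTe]; exact le_sup_left
  have huT : u ∈ T := by rw [hTe]; exact Subgroup.mem_sup_right (Subgroup.mem_zpowers u)
  have hab := comm_cyclic hu hTe
  have hψχ : Over N ψ χ := by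
    unfold Over
    rw [ip_congr N hψe (fun _ _ => rfl), irrS_ortho hχ hχ, if_pos rfl]
    exact one_ne_zero
  have hkey : ∀ φ ∈ irr T, ∃ c : ℂ, ∀ x ∈ N, (mu T f φ : ℂ) * φ (x * u) = c * ψ (x * u) := by
    intro φ hφ
    have hφ' : φ ∈ IrrS T := mem_irr.1 hφ
    by_cases h0 : mu T f φ = 0
    · exact ⟨0, fun x _ => by rw [h0]; simp⟩
    · obtain ⟨θ, hθ, hov⟩ := under_exists hNT hφ'
      have hθχ : θ = χ := by
        by_contra hne
        have h1 : (mu N f θ : ℂ) = 0 := by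
          rw [mu_spec (hNT.trans hT) hf hθ]
          have h2 : ip N f θ = ip N (n • χ) θ := ip_congr N (fun x hx => hfn x hx) (fun _ _ => rfl)
          rw [h2, ip_smul_left, irrS_ortho hχ hθ, if_neg (fun h => hne h.symm), mul_zero]
        have h2 : mu N f θ = 0 := by exact_mod_cast h1
        rw [A15_mu_trans hNT hT hf hθ] at h2
        have h3 := Finset.sum_eq_zero_iff.1 h2 φ hφ
        have h4 : 0 < mu N φ θ := (A15_over_iff hNT (charS_of_irrS hφ') hθ).1 hov
        rcases Nat.mul_eq_zero.1 h3 with h5 | h5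
        · exact h0 h5
        · omega
      rw [hθχ] at hov
      obtain ⟨l, hl, hle⟩ := abel_trans hNT hab hψ hφ' hχ hψχ hov
      refine ⟨(mu T f φ : ℂ) * l u, fun x hx => ?_⟩
      have h5 : l (x * u) = l u := by
        rw [hl.2.2 x (hNT hx) u huT, hl.2.1 x hx, one_mul]
      rw [hle, Pi.mul_apply, h5, mul_assoc]
  choose! c hc using hkey
  refine ⟨∑ φ ∈ irr T, c φ, fun x hx => ?_⟩
  have h1 : f (x * u) = rs T f (x * u) := by
    unfold rs
    rw [if_pos (T.mul_mem (hNT hx) huT)]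
  rw [h1, charS_expand hT hf, Finset.sum_apply, Finset.sum_mul]
  refine Finset.sum_congr rfl (fun φ hφ => ?_)
  rw [Pi.smul_apply, smul_eq_mul, hc φ hφ x hx]

/-- `coset_one` for the coset `N u` (written on the other side: reindex by `x ↦ u⁻¹ x u`, which permutes `N`). -/
theorem coset_norm {N : Subgroup G} {u : G} (hu : Nz u N) {χ ψ : G → ℂ} (hχ : χ ∈ IrrS N) (hψ : ψ ∈ IrrS (N ⊔ Subgroup.zpowers u))
    (hψe : ∀ x ∈ N, ψ x = χ x) : ∑ x : G, (if x ∈ N then ψ (x * u) * conj (ψ (x * u)) else 0) = (Nat.card N : ℂ) := by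
  obtain ⟨T, hTe⟩ : ∃ T, T = N ⊔ Subgroup.zpowers u := ⟨_, rfl⟩
  rw [← hTe] at hψ
  have hNT : N ≤ T := by rw [hTe]; exact le_sup_left
  have huT : u ∈ T := by rw [hTe]; exact Subgroup.mem_sup_right (Subgroup.mem_zpowers u)
  have hab := comm_cyclic hu hTe
  have h1 := coset_one hNT hab hψ (ip_self_of_ext hχ hψe) huT
  have hN0 : (Nat.card N : ℂ) ≠ 0 := A15_card_ne N
  have h2 : ∑ x : G, (if x ∈ N then ψ (u * x) * conj (ψ (u * x)) else 0) = (Nat.card N : ℂ) := by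
    rw [inv_mul_eq_iff_eq_mul₀ hN0] at h1
    rw [h1, mul_one]
  rw [← h2, ← Equiv.sum_comp (MulAut.conj u).toEquiv]
  refine Finset.sum_congr rfl (fun x _ => ?_)
  have h3 : (MulAut.conj u).toEquiv x = u * x * u⁻¹ := rfl
  rw [h3, inv_mul_cancel_right]
  by_cases hx : x ∈ N
  · rw [if_pos hx, if_pos ((hu x).1 hx)]
  · rw [if_neg hx, if_neg (fun h => hx ((hu x).2 h))]

end Pool.Agent.Lib.H88B
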