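import Pool.Agent.Lib.H90Q.C3
import Pool.Agent.Lib.H88B.Defs

/-!
H88B, Z3: products of characters.
-/

open scoped Classical ComplexConjugate BigOperators

noncomputable section

namespace Pool.Agent.Lib.H88B

open Pool.Agent.Lib.H90Q

/-- The conjugate of a character is a character (`ρ ↦` the transpose inverse, or the entrywise conjugate matrices of the representation: `LinearMap.toMatrix'`, `Matrix.map`, `star`). -/
theorem isChar_conj {X : Type*} [Group X] {χ : X → ℂ} (h : IsChar χ) : IsChar (fun x => conj (χ x)) := by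
  obtain ⟨n, ρ, rfl⟩ := h
  let τ : Representation ℂ X (Fin n → ℂ) :=
    { toFun := fun g => Matrix.toLin' ((starRingEnd ℂ).mapMatrix (LinearMap.toMatrix' (ρ g)))
      map_one' := by
        rw [map_one]
        have h1 : LinearMap.toMatrix' (1 : (Fin n → ℂ) →ₗ[ℂ] (Fin n → ℂ)) = 1 :=
          LinearMap.toMatrix'_one
        rw [h1, map_one]
        exact Matrix.toLin'_one
      map_mul' := by
        intro g h
        rw [map_mul, LinearMap.toMatrix'_mul, map_mul]
        exact Matrix.toLin'_mul _ _ }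
  refine ⟨n, τ, ?_⟩
  funext g
  have h2 : LinearMap.trace ℂ (Fin n → ℂ) (ρ g) = (LinearMap.toMatrix' (ρ g)).trace := by
    rw [← Matrix.trace_toLin'_eq, Matrix.toLin'_toMatrix']
  show LinearMap.trace ℂ (Fin n → ℂ)
    (Matrix.toLin' ((starRingEnd ℂ).mapMatrix (LinearMap.toMatrix' (ρ g)))) =
    conj (LinearMap.trace ℂ (Fin n → ℂ) (ρ g))
  rw [Matrix.trace_toLin'_eq, h2, Matrix.trace, Matrix.trace, map_sum]
  rfl

/-- The product of two characters is a character (tensor product: `Representation.tprod`, `isChar_of_rep`, `LinearMap.trace_tensorProduct'`; or Kronecker products of matrices, `Matrix.trace_kronecker`). -/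
theorem isChar_mul {X : Type*} [Group X] {χ ψ : X → ℂ} (h : IsChar χ) (h' : IsChar ψ) : IsChar (fun x => χ x * ψ x) := by
  obtain ⟨n, ρ, rfl⟩ := h
  obtain ⟨m, σ, rfl⟩ := h'
  have h1 := isChar_of_rep (Representation.tprod ρ σ)
  rw [Representation.char_tensor] at h1
  exact h1

variable {G : Type*} [Group G] [Fintype G]

/-- The character `(x, y) ↦ φ x * conj (ψ y)` on a subgroup `Δ` of `H × K` (`isChar_comp` with the two projections `Δ → H`, `Δ → K`, `isChar_conj`, `isChar_mul`). -/
theorem prod_charS {H K : Subgroup G} {Δ : Subgroup (G × G)} (hΔ : Δ ≤ H.prod K) {φ ψ : G → ℂ} (hφ : φ ∈ CharS H) (hψ : ψ ∈ CharS K) :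
    (fun q : G × G => if q ∈ Δ then φ q.1 * conj (ψ q.2) else 0) ∈ CharS Δ := by
  refine ⟨fun q hq => if_neg hq, ?_⟩
  let f1 : Δ →* H := ((MonoidHom.fst G G).comp Δ.subtype).codRestrict H
    (fun x => (hΔ x.2).1)
  let f2 : Δ →* K := ((MonoidHom.snd G G).comp Δ.subtype).codRestrict K
    (fun x => (hΔ x.2).2)
  have h1 := isChar_mul (isChar_comp f1 hφ.2) (isChar_conj (isChar_comp f2 hψ.2))
  have h2 : (fun x : Δ => (fun q : G × G => if q ∈ Δ then φ q.1 * conj (ψ q.2) else 0) x) =
      fun x : Δ => (fun h : H => φ h) (f1 x) * conj ((fun h : K => ψ h) (f2 x)) := by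
    funext x
    show (if (x : G × G) ∈ Δ then φ (x : G × G).1 * conj (ψ (x : G × G).2) else 0) = _
    rw [if_pos x.2]
    rfl
  rw [h2]
  exact h1

/-- For irreducible characters and `Δ = H × K` it is irreducible: its norm is the product of the norms (`irrS_ortho`; `Fintype.sum_prod_type`, `Nat.card_prod`), `irrS_of_norm_one`. -/
theorem prod_irrS {H K : Subgroup G} {φ ψ : G → ℂ} (hφ : φ ∈ IrrS H) (hψ : ψ ∈ IrrS K) :
    (fun q : G × G => if q ∈ H.prod K then φ q.1 * conj (ψ q.2) else 0) ∈ IrrS (H.prod K) := by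
  refine irrS_of_norm_one (prod_charS le_rfl (charS_of_irrS hφ) (charS_of_irrS hψ)) ?_
  have h1 : ip H φ φ = 1 := by rw [irrS_ortho hφ hφ, if_pos rfl]
  have h2 : ip K ψ ψ = 1 := by rw [irrS_ortho hψ hψ, if_pos rfl]
  have hc : Nat.card (H.prod K : Subgroup (G × G)) = Nat.card H * Nat.card K := by
    rw [Nat.card_congr (Subgroup.prodEquiv H K).toEquiv, Nat.card_prod]
  have h3 : (∑ q : G × G, if q ∈ H.prod K then
      (if q ∈ H.prod K then φ q.1 * conj (ψ q.2) else 0) *
        conj (if q ∈ H.prod K then φ q.1 * conj (ψ q.2) else 0) else 0) =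
      (∑ x : G, if x ∈ H then φ x * conj (φ x) else 0) *
        (∑ y : G, if y ∈ K then ψ y * conj (ψ y) else 0) := by
    rw [Fintype.sum_prod_type, Finset.sum_mul_sum]
    refine Finset.sum_congr rfl fun x _ => Finset.sum_congr rfl fun y _ => ?_
    by_cases hx : x ∈ H
    · by_cases hy : y ∈ K
      · have hq : (x, y) ∈ H.prod K := ⟨hx, hy⟩
        rw [if_pos hq, if_pos hq, if_pos hx, if_pos hy, map_mul, Complex.conj_conj]
        ring
      · have hq : (x, y) ∉ H.prod K := fun hh => hy hh.2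
        rw [if_neg hq, if_neg hy, mul_zero]
    · have hq : (x, y) ∉ H.prod K := fun hh => hx hh.1
      rw [if_neg hq, if_neg hx, zero_mul]
  unfold ip
  unfold ip at h1 h2
  rw [h3, hc, Nat.cast_mul, mul_inv]
  calc _ = ((Nat.card H : ℂ)⁻¹ * ∑ x : G, if x ∈ H then φ x * conj (φ x) else 0) *
        ((Nat.card K : ℂ)⁻¹ * ∑ y : G, if y ∈ K then ψ y * conj (ψ y) else 0) := by ring
    _ = 1 := by rw [h1, h2, mul_one]

end Pool.Agent.Lib.H88B
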