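import Pool.Agent.Lib.H90Q.B0
import Pool.Agent.Lib.H88B.Z2
import Pool.Agent.Lib.H88B.Z3

/-!
H88B, Z4: the bridging character on a coset.
-/

open scoped Classical ComplexConjugate BigOperators

noncomputable section

namespace Pool.Agent.Lib.H88B

open Pool.Agent.Lib.H90Q

variable {G : Type*} [Group G] [Fintype G]

omit [Fintype G] in
private theorem Z4_nz_normal {M : Subgroup G} [hM : M.Normal] (u : G) : Nz u M := by
  intro g
  constructor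
  · exact fun hg => hM.conj_mem g hg u
  · intro hg
    have h1 := hM.conj_mem _ hg u⁻¹
    have h2 : u⁻¹ * (u * g * u⁻¹) * u⁻¹⁻¹ = g := by group
    rwa [h2] at h1

private theorem Z4_nz_inf {M S : Subgroup G} [M.Normal] {u : G} (hu : u ∈ S) : Nz u (M ⊓ S) := by
  intro g
  constructor
  · intro hg
    exact ⟨(Z4_nz_normal u g).1 hg.1, (nz_mem hu g).1 hg.2⟩
  · intro hg
    exact ⟨(Z4_nz_normal u g).2 hg.1, (nz_mem hu g).2 hg.2⟩

omit [Fintype G] in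
private theorem Z4_nz_prod {A B : Subgroup G} {u : G} (hA : Nz u A) (hB : Nz u B) : Nz ((u, u) : G × G) (A.prod B) := by
  intro g
  constructor
  · intro hg
    exact ⟨(hA g.1).1 hg.1, (hB g.2).1 hg.2⟩
  · intro hg
    exact ⟨(hA g.1).2 hg.1, (hB g.2).2 hg.2⟩

/-- For every `u ∈ S` the bridging character is a product on the coset of `(u, u)`.
Proof. `C = M ⊓ S` is normalised by `u`. `ext_cyclic` : `φ ∈ Irr (M⟨u⟩)` extending `Θ`, `ψ ∈ Irr (C⟨u⟩)` extending `θs`. In the ambient group `G × G` let `N = M.prod C`, `w = (u, u)`, `Δ = N ⊔ zpowers w ≤ (M⟨u⟩).prod (C⟨u⟩)`;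
`w` normalises `N`. `χ = ` the character `(y, c) ↦ Θ y * conj (θs c)` of `N` is irreducible (`prod_irrS`), `Ψ = ` the restriction to `Δ` of `(g, h) ↦ φ g * conj (ψ h)` is a character (`prod_charS`) and irreducible because it extends `χ` (`irrS_of_ext`, C3).
`η` is a character of `BG M S ≥ Δ` and equals `χ` on `N`. `coset_const` (with `n = 1`) : `η (y * u, c * u) = ν * (φ (y * u) * conj (ψ (c * u)))`. Norms: the restriction of `η` to `Δ` is irreducible too (`irrS_of_ext`), so by `coset_norm` for `η` and for `Ψ`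
(same `N`, `w`) `ν * conj ν = 1`. -/
theorem eta_coset {M S : Subgroup G} [M.Normal] {Θ θs : G → ℂ} (hΘ : Θ ∈ IrrS M) (hθs : θs ∈ IrrS (M ⊓ S)) {η : G × G → ℂ} (hη : η ∈ CharS (BG M S))
    (hres : ∀ g ∈ M, ∀ h ∈ M ⊓ S, η (g, h) = Θ g * conj (θs h)) {u : G} (hu : u ∈ S) (hΘu : cj u Θ = Θ) (hθu : cj u θs = θs) :
    ∃ φ ∈ IrrS (M ⊔ Subgroup.zpowers u), ∃ ψ ∈ IrrS ((M ⊓ S) ⊔ Subgroup.zpowers u), (∀ y ∈ M, φ y = Θ y) ∧ (∀ c ∈ M ⊓ S, ψ c = θs c) ∧
      ∃ ν : ℂ, ν * conj ν = 1 ∧ ∀ y ∈ M, ∀ c ∈ M ⊓ S, η (y * u, c * u) = ν * (φ (y * u) * conj (ψ (c * u))) := by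
  have huM : Nz u M := Z4_nz_normal u
  have huC : Nz u (M ⊓ S) := Z4_nz_inf hu
  obtain ⟨φ, hφ, hφe⟩ := ext_cyclic huM rfl hΘ hΘu
  obtain ⟨ψ, hψ, hψe⟩ := ext_cyclic huC rfl hθs hθu
  refine ⟨φ, hφ, ψ, hψ, hφe, hψe, ?_⟩
  have hwN : Nz ((u, u) : G × G) (M.prod (M ⊓ S)) := Z4_nz_prod huM huC
  set N : Subgroup (G × G) := M.prod (M ⊓ S) with hN
  set w : G × G := (u, u) with hw
  have hNT : N ≤ N ⊔ Subgroup.zpowers w := le_sup_left
  have hwT : w ∈ N ⊔ Subgroup.zpowers w := (le_sup_right : Subgroup.zpowers w ≤ _) (Subgroup.mem_zpowers w)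
  have hTP : N ⊔ Subgroup.zpowers w ≤ (M ⊔ Subgroup.zpowers u).prod ((M ⊓ S) ⊔ Subgroup.zpowers u) := by
    refine sup_le (Subgroup.prod_mono le_sup_left le_sup_left) ?_
    rw [Subgroup.zpowers_le]
    exact ⟨(le_sup_right : Subgroup.zpowers u ≤ M ⊔ Subgroup.zpowers u) (Subgroup.mem_zpowers u),
      (le_sup_right : Subgroup.zpowers u ≤ (M ⊓ S) ⊔ Subgroup.zpowers u) (Subgroup.mem_zpowers u)⟩
  have hTB : N ⊔ Subgroup.zpowers w ≤ BG M S := by
    refine sup_le ?_ ?_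
    · rintro ⟨y, c⟩ ⟨hy, hc⟩
      exact mem_BG.2 ⟨hc.2, M.mul_mem hy (M.inv_mem hc.1)⟩
    · rw [Subgroup.zpowers_le]
      refine mem_BG.2 ⟨hu, ?_⟩
      rw [mul_inv_cancel]
      exact M.one_mem
  have hχ := prod_irrS hΘ hθs
  rw [← hN] at hχ
  set χ : G × G → ℂ := fun q => if q ∈ N then Θ q.1 * conj (θs q.2) else 0 with hχd
  have hΨc := prod_charS hTP (charS_of_irrS hφ) (charS_of_irrS hψ)
  set Ψ : G × G → ℂ := fun q => if q ∈ N ⊔ Subgroup.zpowers w then φ q.1 * conj (ψ q.2) else 0 with hΨd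
  have hΨe : ∀ x ∈ N, Ψ x = χ x := by
    intro x hx
    have h1 : Ψ x = φ x.1 * conj (ψ x.2) := if_pos (hNT hx)
    have h2 : χ x = Θ x.1 * conj (θs x.2) := if_pos hx
    rw [h1, h2, hφe x.1 hx.1, hψe x.2 hx.2]
  have hΨ : Ψ ∈ IrrS (N ⊔ Subgroup.zpowers w) := irrS_of_ext hNT hΨc hχ hΨe
  have hηχ : ∀ x ∈ N, η x = χ x := by
    rintro ⟨y, c⟩ hx
    have h2 : χ (y, c) = Θ y * conj (θs c) := if_pos hx
    rw [h2]
    exact hres y hx.1 c hx.2
  obtain ⟨b, hb⟩ := coset_const hwN hTB hχ hη (n := 1) (fun x hx => by rw [hηχ x hx, one_mul]) hΨ hΨe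
  have hηT : ∀ x ∈ N ⊔ Subgroup.zpowers w, rs (N ⊔ Subgroup.zpowers w) η x = η x := fun x hx => if_pos hx
  have hrs : rs (N ⊔ Subgroup.zpowers w) η ∈ IrrS (N ⊔ Subgroup.zpowers w) :=
    irrS_of_ext hNT (charS_rs hTB hη) hχ fun x hx => by rw [hηT x (hNT hx), hηχ x hx]
  have n1 := coset_norm hwN hχ hrs fun x hx => by rw [hηT x (hNT hx), hηχ x hx]
  have n2 := coset_norm hwN hχ hΨ hΨe
  have hxw : ∀ x ∈ N, x * w ∈ N ⊔ Subgroup.zpowers w := fun x hx => Subgroup.mul_mem _ (hNT hx) hwT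
  have n3 : ∑ x : G × G, (if x ∈ N then rs (N ⊔ Subgroup.zpowers w) η (x * w) * conj (rs (N ⊔ Subgroup.zpowers w) η (x * w)) else 0) =
      (b * conj b) * ∑ x : G × G, (if x ∈ N then Ψ (x * w) * conj (Ψ (x * w)) else 0) := by
    rw [Finset.mul_sum]
    refine Finset.sum_congr rfl fun x _ => ?_
    by_cases hx : x ∈ N
    · rw [if_pos hx, if_pos hx, hηT _ (hxw x hx), hb x hx, map_mul]
      ring
    · rw [if_neg hx, if_neg hx, mul_zero]
  rw [n1, n2] at n3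
  have hcard : (Nat.card N : ℂ) ≠ 0 := by
    have h0 : Nat.card N ≠ 0 := Nat.card_pos.ne'
    exact_mod_cast h0
  refine ⟨b, ?_, ?_⟩
  · have h5 : (b * conj b) * (Nat.card N : ℂ) = 1 * (Nat.card N : ℂ) := by rw [← n3, one_mul]
    exact mul_right_cancel₀ hcard h5
  · intro y hy c hc
    have hx : ((y, c) : G × G) ∈ N := ⟨hy, hc⟩
    have h1 := hb (y, c) hx
    have h2 : ((y, c) : G × G) * w = (y * u, c * u) := rfl
    rw [h2] at h1
    have h3 : Ψ (y * u, c * u) = φ (y * u) * conj (ψ (c * u)) := if_pos (hxw _ hx)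
    rw [h1, h3]

end Pool.Agent.Lib.H88B
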