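import Pool.Agent.Lib.H88B.Z1
import Pool.Agent.Lib.H88B.Z3

/-!
H88B, Z5: `al` and `be` are characters.
-/

open scoped Classical ComplexConjugate BigOperators

noncomputable section

namespace Pool.Agent.Lib.H88B

open Pool.Agent.Lib.H90Q

variable {G : Type*} [Group G] [Fintype G]

omit [Fintype G] in
/-- Any homomorphism into a subgroup. -/
private theorem Z5_char {X : Type*} [Group X] {H : Subgroup G} {φ : G → ℂ} (hφ : φ ∈ CharS H) (Γ : Subgroup X) (π : X →* G)
    (h : ∀ q ∈ Γ, π q ∈ H) : IsChar (fun q : Γ => φ (π q)) :=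
  isChar_comp (((π.comp Γ.subtype)).codRestrict H (fun q => h q.1 q.2)) hφ.2

omit [Fintype G] in
private theorem Z5_map_fst (M S : Subgroup G) [M.Normal] : (BG M S).map (MonoidHom.fst G G) = M ⊔ S := by
  ext g
  rw [Subgroup.mem_map, Subgroup.mem_sup_of_normal_left]
  constructor
  · rintro ⟨⟨a, h⟩, hq, rfl⟩
    obtain ⟨h1, h2⟩ := mem_BG.1 hq
    exact ⟨a * h⁻¹, h2, h, h1, by simp⟩
  · rintro ⟨m, hm, s, hs, rfl⟩
    exact ⟨(m * s, s), mem_BG.2 ⟨hs, by simpa using hm⟩, rfl⟩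

omit [Fintype G] in
private theorem Z5_map_snd (M S : Subgroup G) [M.Normal] : (BG M S).map (MonoidHom.snd G G) = S := by
  ext g
  rw [Subgroup.mem_map]
  constructor
  · rintro ⟨⟨a, h⟩, hq, rfl⟩
    exact (mem_BG.1 hq).1
  · intro hs
    exact ⟨(g, g), mem_BG.2 ⟨hs, by simp⟩, rfl⟩

omit [Fintype G] in
private theorem Z5_card_fst (M S : Subgroup G) [M.Normal] :
    Nat.card ((BG M S) ⊓ (MonoidHom.fst G G).ker : Subgroup (G × G)) = Nat.card (M ⊓ S : Subgroup G) := by
  symm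
  refine Nat.card_eq_of_bijective (fun c : (M ⊓ S : Subgroup G) =>
    (⟨((1 : G), (c : G)), ?_⟩ : ((BG M S) ⊓ (MonoidHom.fst G G).ker : Subgroup (G × G)))) ⟨?_, ?_⟩
  · refine Subgroup.mem_inf.2 ⟨mem_BG.2 ⟨(Subgroup.mem_inf.1 c.2).2, ?_⟩, rfl⟩
    rw [one_mul]
    exact M.inv_mem (Subgroup.mem_inf.1 c.2).1
  · intro c c' h
    have h1 := congrArg (fun q => (q : ((BG M S) ⊓ (MonoidHom.fst G G).ker : Subgroup (G × G))).1.2) h
    exact Subtype.ext h1
  · rintro ⟨⟨a, h⟩, hq⟩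
    obtain ⟨h1, h2⟩ := Subgroup.mem_inf.1 hq
    have h3 : a = 1 := h2
    subst h3
    obtain ⟨h4, h5⟩ := mem_BG.1 h1
    rw [one_mul] at h5
    exact ⟨⟨h, Subgroup.mem_inf.2 ⟨by simpa using M.inv_mem h5, h4⟩⟩, rfl⟩

omit [Fintype G] in
private theorem Z5_card_snd (M S : Subgroup G) [M.Normal] :
    Nat.card ((BG M S) ⊓ (MonoidHom.snd G G).ker : Subgroup (G × G)) = Nat.card M := by
  symm
  refine Nat.card_eq_of_bijective (fun c : M =>
    (⟨((c : G), (1 : G)), ?_⟩ : ((BG M S) ⊓ (MonoidHom.snd G G).ker : Subgroup (G × G)))) ⟨?_, ?_⟩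
  · refine Subgroup.mem_inf.2 ⟨mem_BG.2 ⟨S.one_mem, ?_⟩, rfl⟩
    rw [inv_one, mul_one]
    exact c.2
  · intro c c' h
    have h1 := congrArg (fun q => (q : ((BG M S) ⊓ (MonoidHom.snd G G).ker : Subgroup (G × G))).1.1) h
    exact Subtype.ext h1
  · rintro ⟨⟨a, h⟩, hq⟩
    obtain ⟨h1, h2⟩ := Subgroup.mem_inf.1 hq
    have h3 : h = 1 := h2
    subst h3
    obtain ⟨h4, h5⟩ := mem_BG.1 h1
    rw [inv_one, mul_one] at h5
    exact ⟨⟨a, h5⟩, rfl⟩

private theorem Z5_sum_fst (F : G × G → ℂ) (g : G) :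
    (∑ q : G × G, if MonoidHom.fst G G q = g then F q else 0) = ∑ h : G, F (g, h) := by
  rw [Fintype.sum_prod_type, Finset.sum_eq_single g]
  · refine Finset.sum_congr rfl fun h _ => ?_
    exact if_pos rfl
  · intro b _ hb
    exact Finset.sum_eq_zero fun h _ => if_neg hb
  · intro h
    exact absurd (Finset.mem_univ _) h

private theorem Z5_sum_snd (F : G × G → ℂ) (h : G) :
    (∑ q : G × G, if MonoidHom.snd G G q = h then F q else 0) = ∑ g : G, F (g, h) := by
  rw [Fintype.sum_prod_type_right, Finset.sum_eq_single h]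
  · refine Finset.sum_congr rfl fun h _ => ?_
    exact if_pos rfl
  · intro b _ hb
    exact Finset.sum_eq_zero fun h _ => if_neg hb
  · intro h
    exact absurd (Finset.mem_univ _) h

/-- `defl` for `π = MonoidHom.fst G G`, `Γ = BG M S` and `f (g, h) = η (g, h) * β h` (a character of `Γ`: `isChar_comp` with the projection `Γ → S`, `isChar_mul`). `Γ.map fst = M ⊔ S` (`(g, h) ∈ Γ` : `g = (g h⁻¹) h`; conversely `m s` is the image of `(m s, s)`;
`mem_sup_nz` of B0), `Γ ⊓ ker fst = {(1, h) : h ∈ M ⊓ S}` has the order of `M ⊓ S`; `∑_(q : G × G) if q.1 = g then .. = ∑_h ..` (`Fintype.sum_prod_type`, `Finset.sum_ite_eq`), and `f` is zero off `Γ`. -/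
theorem al_charS {M S : Subgroup G} [M.Normal] {η : G × G → ℂ} (hη : η ∈ CharS (BG M S)) {β : G → ℂ} (hβ : β ∈ CharS S) :
    al M S η β ∈ CharS (M ⊔ S) := by
  have hf : (fun q : G × G => if q ∈ BG M S then η q * β q.2 else 0) ∈ CharS (BG M S) := by
    refine ⟨fun q hq => if_neg hq, ?_⟩
    have h1 : IsChar (fun q : (BG M S) => η q * β (MonoidHom.snd G G q)) :=
      isChar_mul hη.2 (Z5_char hβ (BG M S) (MonoidHom.snd G G) fun q hq => (mem_BG.1 hq).1)
    have e : (fun q : (BG M S) => (if (q : G × G) ∈ BG M S then η q * β (q : G × G).2 else 0)) =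
        fun q : (BG M S) => η q * β (MonoidHom.snd G G q) := by
      funext q
      rw [if_pos q.2]
      rfl
    rw [e]
    exact h1
  have h := defl (MonoidHom.fst G G) (BG M S) hf
  rw [Z5_map_fst, Z5_card_fst] at h
  have e : al M S η β = fun g => (Nat.card (M ⊓ S : Subgroup G) : ℂ)⁻¹ *
      ∑ q : G × G, if MonoidHom.fst G G q = g then (if q ∈ BG M S then η q * β q.2 else 0) else 0 := by
    funext g
    rw [Z5_sum_fst]
    rfl
  rw [e]
  exact h

/-- The same with `π = snd`, `f (g, h) = conj (η (g, h)) * α g`: `Γ.map snd = S` (image of `(s, s)`), `Γ ⊓ ker snd = {(g, 1) : g ∈ M}`; `g ∈ M ⊔ S` for `(g, h) ∈ Γ`. -/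
theorem be_charS {M S : Subgroup G} [M.Normal] {η : G × G → ℂ} (hη : η ∈ CharS (BG M S)) {α : G → ℂ} (hα : α ∈ CharS (M ⊔ S)) :
    be M S η α ∈ CharS S := by
  have hf : (fun q : G × G => if q ∈ BG M S then conj (η q) * α q.1 else 0) ∈ CharS (BG M S) := by
    refine ⟨fun q hq => if_neg hq, ?_⟩
    have h1 : IsChar (fun q : (BG M S) => conj (η q) * α (MonoidHom.fst G G q)) := by
      refine isChar_mul (isChar_conj hη.2) (Z5_char hα (BG M S) (MonoidHom.fst G G) fun q hq => ?_)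
      rw [← Z5_map_fst]
      exact Subgroup.mem_map_of_mem _ hq
    have e : (fun q : (BG M S) => (if (q : G × G) ∈ BG M S then conj (η q) * α (q : G × G).1 else 0)) =
        fun q : (BG M S) => conj (η q) * α (MonoidHom.fst G G q) := by
      funext q
      rw [if_pos q.2]
      rfl
    rw [e]
    exact h1
  have h := defl (MonoidHom.snd G G) (BG M S) hf
  rw [Z5_map_snd, Z5_card_snd] at h
  have e : be M S η α = fun g => (Nat.card M : ℂ)⁻¹ *
      ∑ q : G × G, if MonoidHom.snd G G q = g then (if q ∈ BG M S then conj (η q) * α q.1 else 0) else 0 := by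
    funext g
    rw [Z5_sum_snd]
    rfl
  rw [e]
  exact h

end Pool.Agent.Lib.H88B
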