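import Pool.Agent.Lib.H88B.Z4
import Pool.Agent.Lib.H88B.Z5

/-!
H88B, Z6: the values of `al` and `be` on cosets.
-/

open scoped Classical ComplexConjugate BigOperators

noncomputable section

namespace Pool.Agent.Lib.H88B

open Pool.Agent.Lib.H90Q

variable {G : Type*} [Group G] [Fintype G]

omit [Fintype G] in
private theorem z6_nz {M : Subgroup G} [hM : M.Normal] (g u : G) : g ∈ M ↔ u * g * u⁻¹ ∈ M := by
  constructor
  · intro h
    exact hM.conj_mem g h u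
  · intro h
    have h3 := hM.conj_mem _ h u⁻¹
    have e2 : u⁻¹ * (u * g * u⁻¹) * u⁻¹⁻¹ = g := by group
    rwa [e2] at h3

/-- The sum over the `h` with `(y * u, h) ∈ BG M S` (`u ∈ S`, `y ∈ M`) is the sum over the coset `(M ⊓ S) u`: `h ∈ S` and `y u h⁻¹ ∈ M` iff `h u⁻¹ ∈ M ⊓ S`; reindex by `h = c * u`. -/
theorem sum_fst {M S : Subgroup G} [hM : M.Normal] (F : G → ℂ) {y u : G} (hy : y ∈ M) (hu : u ∈ S) :
    ∑ h : G, (if (y * u, h) ∈ BG M S then F h else 0) = ∑ c : G, if c ∈ M ⊓ S then F (c * u) else 0 := by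
  rw [← Equiv.sum_comp (Equiv.mulRight u)]
  refine Finset.sum_congr rfl fun c _ => ?_
  rw [Equiv.coe_mulRight]
  have e : y * u * (c * u)⁻¹ = y * c⁻¹ := by group
  have key : (y * u, c * u) ∈ BG M S ↔ c ∈ M ⊓ S := by
    rw [mem_BG, e, Subgroup.mem_inf]
    constructor
    · rintro ⟨h1, h2⟩
      refine ⟨?_, ?_⟩
      · have h3 := M.mul_mem (M.inv_mem h2) hy
        have e2 : (y * c⁻¹)⁻¹ * y = c := by group
        rwa [e2] at h3
      · have h3 := S.mul_mem h1 (S.inv_mem hu)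
        rwa [mul_inv_cancel_right] at h3
    · rintro ⟨h1, h2⟩
      exact ⟨S.mul_mem h2 hu, M.mul_mem hy (M.inv_mem h1)⟩
  by_cases h : c ∈ M ⊓ S
  · rw [if_pos h, if_pos (key.2 h)]
  · rw [if_neg h, if_neg (fun h' => h (key.1 h'))]

/-- The sum over the `g` with `(g, c * u) ∈ BG M S` (`c ∈ M ⊓ S`) is the sum over the coset `M u` (`g (c u)⁻¹ ∈ M` iff `g u⁻¹ ∈ M`, `M` is normal). -/
theorem sum_snd {M S : Subgroup G} [hM : M.Normal] (F : G → ℂ) {c u : G} (hc : c ∈ M ⊓ S) (hu : u ∈ S) :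
    ∑ g : G, (if (g, c * u) ∈ BG M S then F g else 0) = ∑ y : G, if y ∈ M then F (y * u) else 0 := by
  rw [← Equiv.sum_comp (Equiv.mulRight u)]
  refine Finset.sum_congr rfl fun y _ => ?_
  rw [Equiv.coe_mulRight]
  have e : y * u * (c * u)⁻¹ = y * c⁻¹ := by group
  obtain ⟨hcM, hcS⟩ := Subgroup.mem_inf.1 hc
  have key : (y * u, c * u) ∈ BG M S ↔ y ∈ M := by
    rw [mem_BG, e]
    constructor
    · rintro ⟨-, h2⟩
      have h3 := M.mul_mem h2 hcM
      rwa [inv_mul_cancel_right] at h3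
    · intro h
      exact ⟨S.mul_mem hcS hu, M.mul_mem h (M.inv_mem hcM)⟩
  by_cases h : y ∈ M
  · rw [if_pos h, if_pos (key.2 h)]
  · rw [if_neg h, if_neg (fun h' => h (key.1 h'))]

/-- If `η (y u, c u) = ν φ(y u) conj ψ(c u)` and `β (c u) = b ψ(c u)` on the cosets then `al β (y u) = ν b φ(y u)`. `sum_fst`, `coset_norm` for `ψ` (over `θs`). -/
theorem al_coset {M S : Subgroup G} [M.Normal] {θs : G → ℂ} (hθs : θs ∈ IrrS (M ⊓ S)) {η : G × G → ℂ} {u : G} (hu : u ∈ S) {φ ψ β : G → ℂ}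
    (hψ : ψ ∈ IrrS ((M ⊓ S) ⊔ Subgroup.zpowers u)) (hψe : ∀ c ∈ M ⊓ S, ψ c = θs c) {ν b : ℂ}
    (hv : ∀ y ∈ M, ∀ c ∈ M ⊓ S, η (y * u, c * u) = ν * (φ (y * u) * conj (ψ (c * u)))) (hb : ∀ c ∈ M ⊓ S, β (c * u) = b * ψ (c * u)) :
    ∀ y ∈ M, al M S η β (y * u) = ν * b * φ (y * u) := by
  intro y hy
  have hN : Nz u (M ⊓ S) := by
    intro g
    rw [Subgroup.mem_inf, Subgroup.mem_inf]
    refine and_congr (z6_nz g u) ?_
    constructor
    · intro h
      exact S.mul_mem (S.mul_mem hu h) (S.inv_mem hu)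
    · intro h
      have h3 := S.mul_mem (S.mul_mem (S.inv_mem hu) h) hu
      have e2 : u⁻¹ * (u * g * u⁻¹) * u = g := by group
      rwa [e2] at h3
  have hn := coset_norm hN hθs hψ hψe
  have hc0 : (Nat.card (M ⊓ S : Subgroup G) : ℂ) ≠ 0 := by
    exact_mod_cast Nat.card_pos.ne'
  unfold al
  rw [sum_fst (fun h => η (y * u, h) * β h) hy hu]
  have e3 : (∑ c : G, if c ∈ M ⊓ S then η (y * u, c * u) * β (c * u) else 0) =
      ν * b * φ (y * u) * ∑ c : G, if c ∈ M ⊓ S then ψ (c * u) * conj (ψ (c * u)) else 0 := by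
    rw [Finset.mul_sum]
    refine Finset.sum_congr rfl fun c _ => ?_
    by_cases h : c ∈ M ⊓ S
    · rw [if_pos h, if_pos h, hv y hy c h, hb c h]
      ring
    · rw [if_neg h, if_neg h, mul_zero]
  rw [e3, hn]
  field_simp

/-- If moreover `α (y u) = a φ(y u)` then `be α (c u) = conj ν a ψ(c u)`. `sum_snd`, `coset_norm` for `φ` (over `Θ`). -/
theorem be_coset {M S : Subgroup G} [M.Normal] {Θ : G → ℂ} (hΘ : Θ ∈ IrrS M) {η : G × G → ℂ} {u : G} (hu : u ∈ S) {φ ψ α : G → ℂ}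
    (hφ : φ ∈ IrrS (M ⊔ Subgroup.zpowers u)) (hφe : ∀ y ∈ M, φ y = Θ y) {ν a : ℂ}
    (hv : ∀ y ∈ M, ∀ c ∈ M ⊓ S, η (y * u, c * u) = ν * (φ (y * u) * conj (ψ (c * u)))) (ha : ∀ y ∈ M, α (y * u) = a * φ (y * u)) :
    ∀ c ∈ M ⊓ S, be M S η α (c * u) = conj ν * a * ψ (c * u) := by
  intro c hc
  have hN : Nz u M := fun g => z6_nz g u
  have hn := coset_norm hN hΘ hφ hφe
  have hc0 : (Nat.card M : ℂ) ≠ 0 := by
    exact_mod_cast Nat.card_pos.ne'
  unfold be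
  rw [sum_snd (fun g => conj (η (g, c * u)) * α g) hc hu]
  have e3 : (∑ y : G, if y ∈ M then conj (η (y * u, c * u)) * α (y * u) else 0) =
      conj ν * a * ψ (c * u) * ∑ y : G, if y ∈ M then φ (y * u) * conj (φ (y * u)) else 0 := by
    rw [Finset.mul_sum]
    refine Finset.sum_congr rfl fun y _ => ?_
    by_cases h : y ∈ M
    · rw [if_pos h, if_pos h, hv y h c hc, ha y h]
      simp only [map_mul, Complex.conj_conj]
      ring
    · rw [if_neg h, if_neg h, mul_zero]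
  rw [e3, hn]
  field_simp

end Pool.Agent.Lib.H88B
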