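import Pool.Agent.Lib.H88B.Z6

/-!
H88B, Z7: the bijection given by a bridging character.
-/

open scoped Classical ComplexConjugate BigOperators

noncomputable section

namespace Pool.Agent.Lib.H88B

open Pool.Agent.Lib.H90Q

variable {G : Type*} [Group G] [Fintype G]

/-- A character of `T ≥ N` over an invariant `χ ∈ Irr N` is a multiple of `χ` on `N` (`clifford_inv`), so by `coset_const` it is a multiple of an extension `ψ` of `χ` on each coset. -/
theorem over_coset {N T : Subgroup G} (hNT : N ≤ T) (hn : ∀ t ∈ T, Nz t N) {χ : G → ℂ} (hχ : χ ∈ IrrS N) (hinv : ∀ t ∈ T, cj t χ = χ) {f : G → ℂ} (hf : f ∈ IrrS T)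
    (ho : Over N f χ) {u : G} (hu : u ∈ T) {ψ : G → ℂ} (hψ : ψ ∈ IrrS (N ⊔ Subgroup.zpowers u)) (hψe : ∀ x ∈ N, ψ x = χ x) :
    ∃ b : ℂ, ∀ x ∈ N, f (x * u) = b * ψ (x * u) := by
  have h1 := clifford_inv hNT hn hf hχ ho hinv
  have hT : N ⊔ Subgroup.zpowers u ≤ T := sup_le hNT ((Subgroup.zpowers_le).2 hu)
  exact coset_const (hn u hu) hT hχ (charS_of_irrS hf) h1.2 hψ hψe

omit [Fintype G] in
private theorem z7_nz {M : Subgroup G} [hM : M.Normal] (u : G) : Nz u M := by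
  intro g
  constructor
  · intro h
    exact hM.conj_mem g h u
  · intro h
    have h3 := hM.conj_mem _ h u⁻¹
    have e2 : u⁻¹ * (u * g * u⁻¹) * u⁻¹⁻¹ = g := by group
    rwa [e2] at h3

omit [Fintype G] in
private theorem z7_nz_inf {M S : Subgroup G} [M.Normal] {u : G} (hu : u ∈ S) : Nz u (M ⊓ S) := by
  intro g
  rw [Subgroup.mem_inf, Subgroup.mem_inf]
  refine and_congr (z7_nz u g) ?_
  constructor
  · intro h
    exact S.mul_mem (S.mul_mem hu h) (S.inv_mem hu)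
  · intro h
    have h3 := S.mul_mem (S.mul_mem (S.inv_mem hu) h) hu
    have e2 : u⁻¹ * (u * g * u⁻¹) * u = g := by group
    rwa [e2] at h3

private theorem z7_card_sum (K : Subgroup G) : (∑ c : G, if c ∈ K then (1 : ℂ) else 0) = (Nat.card K : ℂ) := by
  rw [Finset.sum_boole, Nat.card_eq_fintype_card, Fintype.card_subtype]

private theorem z7_sumM (M S : Subgroup G) [hM : M.Normal] (F : G → ℂ) :
    (Nat.card (M ⊓ S : Subgroup G) : ℂ) * (∑ g : G, if g ∈ M ⊔ S then F g else 0) =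
      ∑ s : G, if s ∈ S then (∑ y : G, if y ∈ M then F (y * s) else 0) else 0 := by
  have h1 : ∀ s : G, (if s ∈ S then (∑ y : G, if y ∈ M then F (y * s) else 0) else 0) =
      ∑ g : G, if (g, s) ∈ BG M S then F g else 0 := by
    intro s
    by_cases hs : s ∈ S
    · rw [if_pos hs]
      have h2 := sum_snd (M := M) (S := S) F (Subgroup.one_mem (M ⊓ S)) hs
      rw [one_mul] at h2
      exact h2.symm
    · rw [if_neg hs]
      symm
      refine Finset.sum_eq_zero fun g _ => ?_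
      rw [if_neg]
      intro h
      exact hs (mem_BG.1 h).1
  rw [Finset.sum_congr rfl fun s _ => h1 s, Finset.sum_comm, Finset.mul_sum]
  refine Finset.sum_congr rfl fun g _ => ?_
  by_cases hg : g ∈ M ⊔ S
  · rw [if_pos hg]
    obtain ⟨y, hy, u, hu, rfl⟩ := Subgroup.mem_sup_of_normal_left.1 hg
    have h2 := sum_fst (M := M) (S := S) (fun _ => F (y * u)) hy hu
    rw [h2]
    have h3 : (∑ c : G, if c ∈ M ⊓ S then F (y * u) else 0) = (∑ c : G, if c ∈ M ⊓ S then (1 : ℂ) else 0) * F (y * u) := by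
      rw [Finset.sum_mul]
      refine Finset.sum_congr rfl fun c _ => ?_
      by_cases h : c ∈ M ⊓ S
      · rw [if_pos h, if_pos h, one_mul]
      · rw [if_neg h, if_neg h, zero_mul]
    rw [h3, z7_card_sum]
  · rw [if_neg hg, mul_zero]
    symm
    refine Finset.sum_eq_zero fun s _ => ?_
    rw [if_neg]
    intro h
    obtain ⟨h3, h4⟩ := mem_BG.1 h
    apply hg
    have e : g = g * s⁻¹ * s := by group
    rw [e]
    exact (M ⊔ S).mul_mem (Subgroup.mem_sup_left h4) (Subgroup.mem_sup_right h3)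

private theorem z7_sumS (M S : Subgroup G) (F : G → ℂ) :
    (Nat.card (M ⊓ S : Subgroup G) : ℂ) * (∑ h : G, if h ∈ S then F h else 0) =
      ∑ s : G, if s ∈ S then (∑ c : G, if c ∈ M ⊓ S then F (c * s) else 0) else 0 := by
  have h1 : ∀ s : G, (if s ∈ S then (∑ c : G, if c ∈ M ⊓ S then F (c * s) else 0) else 0) =
      ∑ c : G, if c ∈ M ⊓ S then (if c * s ∈ S then F (c * s) else 0) else 0 := by
    intro s
    by_cases hs : s ∈ S
    · rw [if_pos hs]
      refine Finset.sum_congr rfl fun c _ => ?_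
      by_cases hc : c ∈ M ⊓ S
      · rw [if_pos hc, if_pos hc, if_pos (S.mul_mem (Subgroup.mem_inf.1 hc).2 hs)]
      · rw [if_neg hc, if_neg hc]
    · rw [if_neg hs]
      symm
      refine Finset.sum_eq_zero fun c _ => ?_
      by_cases hc : c ∈ M ⊓ S
      · rw [if_pos hc, if_neg]
        intro h
        exact hs ((S.mul_mem_cancel_left (Subgroup.mem_inf.1 hc).2).1 h)
      · rw [if_neg hc]
  rw [Finset.sum_congr rfl fun s _ => h1 s, Finset.sum_comm, ← z7_card_sum, Finset.sum_mul]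
  refine Finset.sum_congr rfl fun c _ => ?_
  by_cases hc : c ∈ M ⊓ S
  · rw [if_pos hc, one_mul]
    have h2 := Equiv.sum_comp (Equiv.mulLeft c) (fun h => if h ∈ S then F h else 0)
    rw [← h2]
    refine Finset.sum_congr rfl fun s _ => ?_
    rw [if_pos hc, Equiv.coe_mulLeft]
  · rw [if_neg hc, zero_mul]
    symm
    refine Finset.sum_eq_zero fun s _ => ?_
    rw [if_neg hc]

private theorem z7_card (M S : Subgroup G) [M.Normal] :
    (Nat.card (M ⊓ S : Subgroup G) : ℂ) * (Nat.card (M ⊔ S : Subgroup G) : ℂ) = (Nat.card S : ℂ) * (Nat.card M : ℂ) := by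
  have h1 := z7_sumM M S (fun _ => (1 : ℂ))
  rw [z7_card_sum, z7_card_sum] at h1
  rw [h1, ← z7_card_sum S, Finset.sum_mul]
  refine Finset.sum_congr rfl fun s _ => ?_
  by_cases h : s ∈ S
  · rw [if_pos h, if_pos h, one_mul]
  · rw [if_neg h, if_neg h, zero_mul]

/-- The two averaged sums compared. -/
private theorem z7_ip (M S : Subgroup G) [M.Normal] (A A' B B' : G → ℂ)
    (h : ∀ s ∈ S, (Nat.card (M ⊓ S : Subgroup G) : ℂ) * (∑ y : G, if y ∈ M then A (y * s) * conj (A' (y * s)) else 0) =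
      (Nat.card M : ℂ) * (∑ c : G, if c ∈ M ⊓ S then B (c * s) * conj (B' (c * s)) else 0)) :
    ip (M ⊔ S) A A' = ip S B B' := by
  have hM0 : (Nat.card M : ℂ) ≠ 0 := A15_card_ne M
  have hS0 : (Nat.card S : ℂ) ≠ 0 := A15_card_ne S
  have hI0 : (Nat.card (M ⊓ S : Subgroup G) : ℂ) ≠ 0 := A15_card_ne _
  have hU0 : (Nat.card (M ⊔ S : Subgroup G) : ℂ) ≠ 0 := A15_card_ne _
  have hc := z7_card M S
  have h1 := z7_sumM M S (fun g => A g * conj (A' g))
  have h2 := z7_sumS M S (fun g => B g * conj (B' g))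
  have h3 : (Nat.card (M ⊓ S : Subgroup G) : ℂ) * (∑ s : G, if s ∈ S then (∑ y : G, if y ∈ M then A (y * s) * conj (A' (y * s)) else 0) else 0) =
      (Nat.card M : ℂ) * (∑ s : G, if s ∈ S then (∑ c : G, if c ∈ M ⊓ S then B (c * s) * conj (B' (c * s)) else 0) else 0) := by
    rw [Finset.mul_sum, Finset.mul_sum]
    refine Finset.sum_congr rfl fun s _ => ?_
    by_cases hs : s ∈ S
    · rw [if_pos hs, if_pos hs]
      exact h s hs
    · rw [if_neg hs, if_neg hs, mul_zero, mul_zero]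
  rw [← h1, ← h2] at h3
  unfold ip
  set X := ∑ x : G, if x ∈ M ⊔ S then A x * conj (A' x) else 0 with hX
  set Y := ∑ x : G, if x ∈ S then B x * conj (B' x) else 0 with hY
  set I : ℂ := (Nat.card (M ⊓ S : Subgroup G) : ℂ) with hI
  set U : ℂ := (Nat.card (M ⊔ S : Subgroup G) : ℂ) with hU
  set m : ℂ := (Nat.card M : ℂ) with hm
  set n : ℂ := (Nat.card S : ℂ) with hn
  have h4 : I * X = m * Y := by
    have h5 : I * (I * X) = I * (m * Y) := by rw [h3]; ring
    exact mul_left_cancel₀ hI0 h5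
  rw [inv_mul_eq_iff_eq_mul₀ hU0, mul_left_comm, eq_comm, inv_mul_eq_iff_eq_mul₀ hS0]
  have h5 : I * (U * Y) = I * (n * X) := by
    rw [← mul_assoc, hc, mul_assoc, ← h4]
    ring
  exact mul_left_cancel₀ hI0 h5

/-- `al` preserves the inner product: `∑_(g ∈ M S) F g = |M ⊓ S|⁻¹ ∑_(s ∈ S) ∑_(y ∈ M) F (y s)` and `∑_(h ∈ S) F h = |M ⊓ S|⁻¹ ∑_(s ∈ S) ∑_(c ∈ M ⊓ S) F (c s)`; for every `s` take `φ, ψ, ν` from `eta_coset`, `b, b'` from `over_coset` for `β, β'`;
`al_coset`; the inner sums are `ν b conj (ν b') |M|` and `b conj b' |M ⊓ S|` (`coset_norm`); `|M S| |M ⊓ S| = |M| |S|`. -/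
theorem al_ip {M S : Subgroup G} [M.Normal] {Θ θs : G → ℂ} (hΘ : Θ ∈ IrrS M) (hθs : θs ∈ IrrS (M ⊓ S)) (hSΘ : ∀ s ∈ S, cj s Θ = Θ)
    (hSθ : ∀ s ∈ S, cj s θs = θs) {η : G × G → ℂ} (hη : η ∈ CharS (BG M S)) (hres : ∀ g ∈ M, ∀ h ∈ M ⊓ S, η (g, h) = Θ g * conj (θs h))
    {β β' : G → ℂ} (hβ : β ∈ IrrS S) (hβo : Over (M ⊓ S) β θs) (hβ' : β' ∈ IrrS S) (hβo' : Over (M ⊓ S) β' θs) :
    ip (M ⊔ S) (al M S η β) (al M S η β') = ip S β β' := by
  refine z7_ip M S _ _ _ _ fun s hs => ?_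
  obtain ⟨φ, hφ, ψ, hψ, hφe, hψe, ν, hν, hv⟩ := eta_coset hΘ hθs hη hres hs (hSΘ s hs) (hSθ s hs)
  obtain ⟨b, hb⟩ := over_coset inf_le_right (fun t ht => z7_nz_inf ht) hθs hSθ hβ hβo hs hψ hψe
  obtain ⟨b', hb'⟩ := over_coset inf_le_right (fun t ht => z7_nz_inf ht) hθs hSθ hβ' hβo' hs hψ hψe
  have ha := al_coset hθs hs hψ hψe hv hb
  have ha' := al_coset hθs hs hψ hψe hv hb'
  have hn1 := coset_norm (z7_nz s) hΘ hφ hφe
  have hn2 := coset_norm (z7_nz_inf hs) hθs hψ hψe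
  have e1 : (∑ y : G, if y ∈ M then al M S η β (y * s) * conj (al M S η β' (y * s)) else 0) = b * conj b' * (Nat.card M : ℂ) := by
    rw [← hn1, Finset.mul_sum]
    refine Finset.sum_congr rfl fun y _ => ?_
    by_cases hy : y ∈ M
    · rw [if_pos hy, if_pos hy, ha y hy, ha' y hy]
      simp only [map_mul]
      calc ν * b * φ (y * s) * (conj ν * conj b' * conj (φ (y * s)))
          = (ν * conj ν) * (b * conj b' * (φ (y * s) * conj (φ (y * s)))) := by ring
        _ = _ := by rw [hν, one_mul]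
    · rw [if_neg hy, if_neg hy, mul_zero]
  have e2 : (∑ c : G, if c ∈ M ⊓ S then β (c * s) * conj (β' (c * s)) else 0) = b * conj b' * (Nat.card (M ⊓ S : Subgroup G) : ℂ) := by
    rw [← hn2, Finset.mul_sum]
    refine Finset.sum_congr rfl fun c _ => ?_
    by_cases hc : c ∈ M ⊓ S
    · rw [if_pos hc, if_pos hc, hb c hc, hb' c hc]
      simp only [map_mul]
      ring
    · rw [if_neg hc, if_neg hc, mul_zero]
  rw [e1, e2]
  ring

/-- The same for `be`. (`α ∈ Irr (M S)` over `Θ`; `Θ` is invariant under `M S`.) -/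
theorem be_ip {M S : Subgroup G} [M.Normal] {Θ θs : G → ℂ} (hΘ : Θ ∈ IrrS M) (hθs : θs ∈ IrrS (M ⊓ S)) (hSΘ : ∀ s ∈ S, cj s Θ = Θ)
    (hSθ : ∀ s ∈ S, cj s θs = θs) {η : G × G → ℂ} (hη : η ∈ CharS (BG M S)) (hres : ∀ g ∈ M, ∀ h ∈ M ⊓ S, η (g, h) = Θ g * conj (θs h))
    {α α' : G → ℂ} (hα : α ∈ IrrS (M ⊔ S)) (hαo : Over M α Θ) (hα' : α' ∈ IrrS (M ⊔ S)) (hαo' : Over M α' Θ) :
    ip S (be M S η α) (be M S η α') = ip (M ⊔ S) α α' := by
  have hinv : ∀ t ∈ M ⊔ S, cj t Θ = Θ := by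
    intro t ht
    obtain ⟨y, hy, u, hu, rfl⟩ := Subgroup.mem_sup_of_normal_left.1 ht
    have h1 : cj (y * u) Θ = cj y (cj u Θ) := by
      funext g
      unfold cj
      congr 1
      group
    rw [h1, hSΘ u hu]
    exact cj_mem hy (cf_charS (charS_of_irrS hΘ))
  symm
  refine z7_ip M S _ _ _ _ fun s hs => ?_
  have hs' : s ∈ M ⊔ S := Subgroup.mem_sup_right hs
  obtain ⟨φ, hφ, ψ, hψ, hφe, hψe, ν, hν, hv⟩ := eta_coset hΘ hθs hη hres hs (hSΘ s hs) (hSθ s hs)
  obtain ⟨a, ha⟩ := over_coset le_sup_left (fun t _ => z7_nz t) hΘ hinv hα hαo hs' hφ hφe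
  obtain ⟨a', ha'⟩ := over_coset le_sup_left (fun t _ => z7_nz t) hΘ hinv hα' hαo' hs' hφ hφe
  have hb := be_coset hΘ hs hφ hφe hv ha
  have hb' := be_coset hΘ hs hφ hφe hv ha'
  have hn1 := coset_norm (z7_nz s) hΘ hφ hφe
  have hn2 := coset_norm (z7_nz_inf hs) hθs hψ hψe
  have e1 : (∑ y : G, if y ∈ M then α (y * s) * conj (α' (y * s)) else 0) = a * conj a' * (Nat.card M : ℂ) := by
    rw [← hn1, Finset.mul_sum]
    refine Finset.sum_congr rfl fun y _ => ?_
    by_cases hy : y ∈ M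
    · rw [if_pos hy, if_pos hy, ha y hy, ha' y hy]
      simp only [map_mul]
      ring
    · rw [if_neg hy, if_neg hy, mul_zero]
  have e2 : (∑ c : G, if c ∈ M ⊓ S then be M S η α (c * s) * conj (be M S η α' (c * s)) else 0) = a * conj a' * (Nat.card (M ⊓ S : Subgroup G) : ℂ) := by
    rw [← hn2, Finset.mul_sum]
    refine Finset.sum_congr rfl fun c _ => ?_
    by_cases hc : c ∈ M ⊓ S
    · rw [if_pos hc, if_pos hc, hb c hc, hb' c hc]
      simp only [map_mul, Complex.conj_conj]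
      calc conj ν * a * ψ (c * s) * (ν * conj a' * conj (ψ (c * s)))
          = (ν * conj ν) * (a * conj a' * (ψ (c * s) * conj (ψ (c * s)))) := by ring
        _ = _ := by rw [hν, one_mul]
    · rw [if_neg hc, if_neg hc, mul_zero]
  rw [e1, e2]
  ring

end Pool.Agent.Lib.H88B
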